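import Pool.Graph.R_seed8.W401.Cheb.Frob

/-! Almost all places are unramified in a finite extension. -/

set_option autoImplicit false
set_option linter.all false

namespace Pool.Agent.H499.CM

open Filter Topology NumberField IsDedekindDomain
open Pool.Agent.W401.Cheb (GK IsFrob IsInert)

variable {K : Type} [Field K] [NumberField K]

theorem finite_div (δ : 𝓞 (AlgebraicClosure K)) (hδ : δ ≠ 0) :
    {v : HeightOneSpectrum (𝓞 K) | ∃ Q : Ideal (𝓞 (AlgebraicClosure K)),
      Q.comap (algebraMap (𝓞 K) (𝓞 (AlgebraicClosure K))) = v.asIdeal ∧ δ ∈ Q}.Finite := by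
  have h1 : (Ideal.span {δ}).comap (algebraMap (𝓞 K) (𝓞 (AlgebraicClosure K))) ≠ ⊥ := by
    refine Ideal.comap_ne_bot_of_integral_mem hδ (Ideal.mem_span_singleton_self δ) ?_
    have h2 : IsIntegral ℤ δ := RingOfIntegers.isIntegral δ
    exact h2.tower_top
  refine (Ideal.finite_factors h1).subset ?_
  rintro v ⟨Q, hQ, hδQ⟩
  rw [Set.mem_ofPred_eq, Ideal.dvd_iff_le, ← hQ]
  exact Ideal.comap_mono ((Ideal.span_singleton_le_iff_mem _).2 hδQ)

theorem exists_moved (U : Subgroup (GK K)) (hU : IsClosed (U : Set (GK K))) (g : GK K) (hg : g ∉ U) :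
    ∃ x : 𝓞 (AlgebraicClosure K), (∀ u ∈ U, u • x = x) ∧ g • x ≠ x := by
  let H : ClosedSubgroup (GK K) := ⟨U, hU⟩
  have h1 := InfiniteGalois.fixingSubgroup_fixedField H
  have h2 : g ∉ (IntermediateField.fixedField H.toSubgroup).fixingSubgroup := by
    rw [h1]
    exact hg
  rw [IntermediateField.mem_fixingSubgroup_iff] at h2
  push Not at h2
  obtain ⟨y, hy, hgy⟩ := h2
  have hy' : ∀ u ∈ U, u y = y := fun u hu => hy ⟨u, hu⟩
  have halg : IsAlgebraic ℤ y := by
    have h3 : IsAlgebraic ℚ y := by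
      have h4 : IsAlgebraic K y := Algebra.IsAlgebraic.isAlgebraic y
      exact h4.restrictScalars ℚ
    exact (IsFractionRing.isAlgebraic_iff ℤ ℚ (AlgebraicClosure K)).2 h3
  obtain ⟨b, hb, hint⟩ := halg.exists_integral_multiple
  have hb0 : ((b : ℤ) : AlgebraicClosure K) ≠ 0 := by exact_mod_cast hb
  refine ⟨⟨b • y, hint⟩, fun u hu => ?_, fun h => hgy ?_⟩
  · apply RingOfIntegers.ext
    show u (b • y) = b • y
    rw [map_zsmul, hy' u hu]
  · have h3 : g (b • y) = b • y := congrArg (fun z : 𝓞 (AlgebraicClosure K) => (z : AlgebraicClosure K)) h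
    rw [map_zsmul, zsmul_eq_mul, zsmul_eq_mul] at h3
    exact mul_left_cancel₀ hb0 h3

/-- almost all places are unramified -/
theorem finite_ram (U : Subgroup (GK K)) (hU : IsOpen (U : Set (GK K))) :
    {v : HeightOneSpectrum (𝓞 K) | ∃ σ, IsInert v σ ∧ σ ∉ U}.Finite := by
  classical
  haveI : Finite (GK K ⧸ U) := Subgroup.quotient_finite_of_isOpen _ hU
  choose! x hx1 hx2 using exists_moved U (Subgroup.isClosed_of_isOpen _ hU)
  have hfin : ∀ q : GK K ⧸ U, {v : HeightOneSpectrum (𝓞 K) | q.out ∉ U ∧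
      ∃ Q : Ideal (𝓞 (AlgebraicClosure K)),
      Q.comap (algebraMap (𝓞 K) (𝓞 (AlgebraicClosure K))) = v.asIdeal ∧
        q.out • x q.out - x q.out ∈ Q}.Finite := by
    intro q
    by_cases hq : q.out ∈ U
    · convert Set.finite_empty
      ext v
      simp [hq]
    · refine (finite_div (q.out • x q.out - x q.out) (sub_ne_zero.2 (hx2 _ hq))).subset ?_
      rintro v ⟨_, h⟩
      exact h
  refine (Set.finite_iUnion hfin).subset ?_
  rintro v ⟨σ, ⟨Q, hQm, hQv, hQ⟩, hσ⟩
  refine Set.mem_iUnion.2 ⟨(QuotientGroup.mk σ : GK K ⧸ U), ?_⟩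
  obtain ⟨u, hu⟩ := QuotientGroup.mk_out_eq_mul U σ
  set g := (QuotientGroup.mk σ : GK K ⧸ U).out with hg
  have hgU : g ∉ U := by
    intro h
    apply hσ
    have : σ = g * (u : GK K)⁻¹ := by rw [hu, mul_inv_cancel_right]
    rw [this]
    exact U.mul_mem h (U.inv_mem u.2)
  refine ⟨hgU, Q, hQv, ?_⟩
  have h1 : g • x g = σ • x g := by
    rw [hu, mul_smul, ← hu, hx1 g hgU u u.2]
  rw [h1]
  exact hQ _

end Pool.Agent.H499.CM
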