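import Mathlib

/-! Two embeddings of an algebraically closed field which agree on a subfield and separate a given element
outside it. -/

set_option autoImplicit false
set_option linter.all false

namespace Pool.Agent.H499.CM

open IntermediateField Polynomial
open scoped TensorProduct

theorem exists_hom_ne {F Ω : Type} [Field F] [Field Ω] [Algebra F Ω] [IsAlgClosed Ω] [CharZero F]
    (x : Ω) (hx : x ∉ (algebraMap F Ω).range) : ∃ φ : F⟮x⟯ →ₐ[F] Ω, φ (AdjoinSimple.gen F x) ≠ x := by
  by_cases halg : IsAlgebraic F x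
  · have hint : IsIntegral F x := halg.isIntegral
    have hsep : (minpoly F x).Separable := (minpoly.irreducible hint).separable
    have hdeg : 2 ≤ (minpoly F x).natDegree := by
      by_contra h
      have h1 : (minpoly F x).natDegree = 1 := by
        have := minpoly.natDegree_pos hint
        omega
      exact hx (minpoly.natDegree_eq_one_iff.1 h1)
    have hcard : Fintype.card ((minpoly F x).rootSet Ω) = (minpoly F x).natDegree :=
      Polynomial.card_rootSet_eq_natDegree hsep (IsAlgClosed.splits _)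
    have hne : minpoly F x ≠ 0 := minpoly.ne_zero hint
    obtain ⟨y, hy⟩ : ∃ y : (minpoly F x).rootSet Ω, (y : Ω) ≠ x := by
      have hxr : x ∈ (minpoly F x).rootSet Ω := by
        rw [Polynomial.mem_rootSet]
        exact ⟨hne, minpoly.aeval F x⟩
      have h1 : 1 < Fintype.card ((minpoly F x).rootSet Ω) := by omega
      obtain ⟨y, hy⟩ := Fintype.exists_ne_of_one_lt_card h1 ⟨x, hxr⟩
      exact ⟨y, fun h => hy (Subtype.ext h)⟩
    have hyr : (y : Ω) ∈ (minpoly F x).aroots Ω := by
      rw [Polynomial.mem_aroots]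
      exact ⟨hne, (Polynomial.mem_rootSet.1 y.2).2⟩
    refine ⟨(algHomAdjoinIntegralEquiv F hint).symm ⟨y, hyr⟩, ?_⟩
    rw [algHomAdjoinIntegralEquiv_symm_apply_gen]
    exact hy
  · have h1 : Transcendental F x := halg
    have h2 : Transcendental F (x + 1) := by
      intro h
      apply h1
      have h3 : IsAlgebraic F (x + 1 - 1) := h.sub (isAlgebraic_one)
      rwa [add_sub_cancel_right] at h3
    refine ⟨((F⟮x + 1⟯).val.comp (RatFunc.algEquivOfTranscendental (x + 1) h2).toAlgHom).comp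
      (RatFunc.algEquivOfTranscendental x h1).symm.toAlgHom, ?_⟩
    show ((RatFunc.algEquivOfTranscendental (x + 1) h2)
      ((RatFunc.algEquivOfTranscendental x h1).symm (AdjoinSimple.gen F x)) : Ω) ≠ x
    rw [RatFunc.algEquivOfTranscendental_symm_gen, RatFunc.algEquivOfTranscendental_X]
    intro h
    have h3 : x + 1 = x := h
    exact one_ne_zero (add_eq_left.1 h3)

/-- amalgamation of two extensions of a field -/
theorem exists_amalg {E A B : Type} [Field E] [Field A] [Field B] [Algebra E A] [Algebra E B] :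
    ∃ (C : Type) (_ : Field C) (a : A →+* C) (b : B →+* C), ∀ x : E,
      a (algebraMap E A x) = b (algebraMap E B x) := by
  haveI : Nontrivial (A ⊗[E] B) := by infer_instance
  obtain ⟨m, hm⟩ := Ideal.exists_maximal (A ⊗[E] B)
  refine ⟨(A ⊗[E] B) ⧸ m, Ideal.Quotient.field m,
    (Ideal.Quotient.mk m).comp (Algebra.TensorProduct.includeLeftRingHom),
    (Ideal.Quotient.mk m).comp ((Algebra.TensorProduct.includeRight : B →ₐ[E] A ⊗[E] B) : B →+* A ⊗[E] B),
    fun x => ?_⟩
  show Ideal.Quotient.mk m ((algebraMap E A x) ⊗ₜ 1) = Ideal.Quotient.mk m (1 ⊗ₜ (algebraMap E B x))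
  congr 1
  rw [Algebra.algebraMap_eq_smul_one, Algebra.algebraMap_eq_smul_one, TensorProduct.smul_tmul]

theorem exists_amalg' {E A B : Type} [Field E] [Field A] [Field B] (i : E →+* A) (i' : E →+* B) :
    ∃ (C : Type) (_ : Field C) (a : A →+* C) (b : B →+* C), ∀ x : E, a (i x) = b (i' x) := by
  letI := i.toAlgebra
  letI := i'.toAlgebra
  exact exists_amalg (E := E) (A := A) (B := B)

/-- **Two embeddings.** -/
theorem exists_two {F Ω : Type} [Field F] [Field Ω] [IsAlgClosed Ω] [CharZero F] (i : F →+* Ω)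
    (x : Ω) (hx : x ∉ i.range) : ∃ (C : Type) (_ : Field C) (a b : Ω →+* C),
      (∀ y : F, a (i y) = b (i y)) ∧ a x ≠ b x := by
  letI := i.toAlgebra
  obtain ⟨φ, hφ⟩ := exists_hom_ne (F := F) x hx
  obtain ⟨C, iC, a, b, hab⟩ := exists_amalg' (F⟮x⟯.val : F⟮x⟯ →+* Ω) (φ : F⟮x⟯ →+* Ω)
  refine ⟨C, iC, a, b, fun y => ?_, ?_⟩
  · have h := hab (algebraMap F F⟮x⟯ y)
    have e1 : (F⟮x⟯.val : F⟮x⟯ →+* Ω) (algebraMap F F⟮x⟯ y) = i y := (F⟮x⟯.val).commutes y
    have e2 : (φ : F⟮x⟯ →+* Ω) (algebraMap F F⟮x⟯ y) = i y := φ.commutes y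
    rwa [e1, e2] at h
  · have h := hab (AdjoinSimple.gen F x)
    have e1 : (F⟮x⟯.val : F⟮x⟯ →+* Ω) (AdjoinSimple.gen F x) = x := rfl
    rw [e1] at h
    rw [h]
    intro h2
    exact hφ (b.injective h2)

end Pool.Agent.H499.CM
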