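import Pool.Agent.H499.CM.Final

/-! Reductions of continuous representations. -/

set_option autoImplicit false
set_option linter.all false

namespace Pool.Agent.H499.CM

open MeasureTheory Topology Filter Matrix NumberField IsDedekindDomain Polynomial
open Pool.Agent.X320.DS (Semisimple)
open Pool.Agent.W401.Cheb (GK IsFrob IsInert dens)

variable {K : Type} [Field K] [NumberField K] {ℓ : ℕ} [Fact ℓ.Prime] {n : ℕ}

theorem charpoly_conj {R : Type} [CommRing R] (P A : GL (Fin n) R) :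
    ((P⁻¹ * A * P : GL (Fin n) R) : Matrix (Fin n) (Fin n) R).charpoly =
      (A : Matrix (Fin n) (Fin n) R).charpoly := by
  rw [Units.val_mul, Matrix.charpoly_mul_comm, ← Units.val_mul, mul_inv_cancel_left]

theorem trace_conj {R : Type} [CommRing R] (P A : GL (Fin n) R) :
    ((P⁻¹ * A * P : GL (Fin n) R) : Matrix (Fin n) (Fin n) R).trace =
      (A : Matrix (Fin n) (Fin n) R).trace := by
  rw [Units.val_mul, Matrix.trace_mul_comm, ← Units.val_mul, mul_inv_cancel_left]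

theorem near_one {G : Type*} [Group G] [TopologicalSpace G]
    (f : G → Matrix (Fin n) (Fin n) (PadicAlgCl ℓ)) (hf : Continuous f) (h1 : f 1 = 1) (m : ℕ) :
    {g : G | ∀ i j, ‖f g i j - (1 : Matrix (Fin n) (Fin n) (PadicAlgCl ℓ)) i j‖ <
      ‖(ℓ : PadicAlgCl ℓ)‖ ^ m} ∈ 𝓝 (1 : G) := by
  have e : {g : G | ∀ i j, ‖f g i j - (1 : Matrix (Fin n) (Fin n) (PadicAlgCl ℓ)) i j‖ <
      ‖(ℓ : PadicAlgCl ℓ)‖ ^ m} = ⋂ i, ⋂ j, {g : G | ‖f g i j - (1 : Matrix (Fin n) (Fin n)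
        (PadicAlgCl ℓ)) i j‖ < ‖(ℓ : PadicAlgCl ℓ)‖ ^ m} := by
    ext g
    simp only [Set.mem_setOf_eq, Set.mem_iInter]
  rw [e]
  refine Filter.iInter_mem.2 fun i => Filter.iInter_mem.2 fun j => ?_
  have h2 : Continuous fun g : G => ‖f g i j - (1 : Matrix (Fin n) (Fin n) (PadicAlgCl ℓ)) i j‖ :=
    ((hf.matrix_elem i j).sub continuous_const).norm
  have h3 : IsOpen {g : G | ‖f g i j - (1 : Matrix (Fin n) (Fin n) (PadicAlgCl ℓ)) i j‖ <
      ‖(ℓ : PadicAlgCl ℓ)‖ ^ m} := isOpen_lt h2 continuous_const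
  refine h3.mem_nhds ?_
  show ‖f 1 i j - (1 : Matrix (Fin n) (Fin n) (PadicAlgCl ℓ)) i j‖ < ‖(ℓ : PadicAlgCl ℓ)‖ ^ m
  rw [h1, sub_self, norm_zero]
  exact pow_pos norm_ell_pos m

/-- an integral model of a continuous representation -/
def IntModel (ρ : GK K →* GL (Fin n) (PadicAlgCl ℓ)) (N : GK K →* Matrix (Fin n) (Fin n) (OO ℓ)) : Prop :=
  ∃ P : GL (Fin n) (PadicAlgCl ℓ), ∀ g, (N g).map (algebraMap (OO ℓ) (PadicAlgCl ℓ)) =
    ((P⁻¹ * ρ g * P : GL (Fin n) (PadicAlgCl ℓ)) : Matrix (Fin n) (Fin n) (PadicAlgCl ℓ))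

theorem exists_model (ρ : GK K →* GL (Fin n) (PadicAlgCl ℓ)) (hρ : Continuous ρ) :
    ∃ N : GK K →* Matrix (Fin n) (Fin n) (OO ℓ), IntModel ρ N := by
  classical
  have hρ' : Continuous fun g => (ρ g : Matrix (Fin n) (Fin n) (PadicAlgCl ℓ)) :=
    Units.continuous_val.comp hρ
  obtain ⟨P, hP⟩ := exists_integral ρ hρ'
  let ρ1 : GK K →* GL (Fin n) (PadicAlgCl ℓ) := (MulAut.conj P⁻¹).toMonoidHom.comp ρ
  have hρ1 : ∀ g, ρ1 g = P⁻¹ * ρ g * P := fun g => by
    show P⁻¹ * ρ g * P⁻¹⁻¹ = _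
    rw [inv_inv]
  have hint : ∀ g, IntM (ρ1 g : Matrix (Fin n) (Fin n) (PadicAlgCl ℓ)) := fun g => by rw [hρ1]; exact hP g
  let N : GK K →* Matrix (Fin n) (Fin n) (OO ℓ) :=
    { toFun := fun g => Matrix.of fun i j => ⟨(ρ1 g : Matrix (Fin n) (Fin n) (PadicAlgCl ℓ)) i j, hint g i j⟩
      map_one' := by
        ext i j
        show (ρ1 1 : Matrix (Fin n) (Fin n) (PadicAlgCl ℓ)) i j =
          (((1 : Matrix (Fin n) (Fin n) (OO ℓ)) i j : OO ℓ) : PadicAlgCl ℓ)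
        rw [map_one, Units.val_one, Matrix.one_apply, Matrix.one_apply]
        split_ifs <;> rfl
      map_mul' := fun g h => by
        ext i j
        show (ρ1 (g * h) : Matrix (Fin n) (Fin n) (PadicAlgCl ℓ)) i j = ((∑ k, _ * _ : OO ℓ) : PadicAlgCl ℓ)
        rw [map_mul, Units.val_mul, Matrix.mul_apply, AddSubmonoidClass.coe_finsetSum]
        rfl }
  refine ⟨N, P, fun g => ?_⟩
  rw [← hρ1]
  ext i j
  rfl

/-- reduction modulo `ℓ ^ m` -/
noncomputable def redRep (N : GK K →* Matrix (Fin n) (Fin n) (OO ℓ)) (m : ℕ) : GK K →* GL (Fin n) (RR ℓ m) :=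
  (((mk m).mapMatrix : Matrix (Fin n) (Fin n) (OO ℓ) →+* Matrix (Fin n) (Fin n) (RR ℓ m)).toMonoidHom.comp
    N).toHomUnits

theorem redRep_apply (N : GK K →* Matrix (Fin n) (Fin n) (OO ℓ)) (m : ℕ) (g : GK K) :
    (redRep N m g : Matrix (Fin n) (Fin n) (RR ℓ m)) = (N g).map (mk m) := rfl

theorem map_inj : Function.Injective (fun A : Matrix (Fin n) (Fin n) (OO ℓ) =>
    A.map (algebraMap (OO ℓ) (PadicAlgCl ℓ))) := Matrix.map_injective Subtype.val_injective

namespace IntModel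

variable {ρ : GK K →* GL (Fin n) (PadicAlgCl ℓ)} {N : GK K →* Matrix (Fin n) (Fin n) (OO ℓ)}

theorem charpoly (h : IntModel ρ N) (g : GK K) : (N g).charpoly.map (algebraMap (OO ℓ) (PadicAlgCl ℓ)) =
    (ρ g : Matrix (Fin n) (Fin n) (PadicAlgCl ℓ)).charpoly := by
  obtain ⟨P, hP⟩ := h
  rw [← Matrix.charpoly_map, hP, charpoly_conj]

theorem trace (h : IntModel ρ N) (g : GK K) : (((N g).trace : OO ℓ) : PadicAlgCl ℓ) =
    (ρ g : Matrix (Fin n) (Fin n) (PadicAlgCl ℓ)).trace := by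
  obtain ⟨P, hP⟩ := h
  rw [← trace_conj P, ← hP, Matrix.trace, Matrix.trace, AddSubmonoidClass.coe_finsetSum]
  rfl

theorem one (h : IntModel ρ N) {g : GK K} (hg : ρ g = 1) : N g = 1 := by
  obtain ⟨P, hP⟩ := h
  apply map_inj
  show (N g).map _ = (1 : Matrix (Fin n) (Fin n) (OO ℓ)).map _
  rw [hP, hg, mul_one, inv_mul_cancel, Units.val_one, Matrix.map_one _ (map_zero _) (map_one _)]

theorem red_one (h : IntModel ρ N) {g : GK K} (hg : ρ g = 1) (m : ℕ) : redRep N m g = 1 := by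
  apply Units.ext
  rw [redRep_apply, h.one hg, Units.val_one, Matrix.map_one _ (map_zero _) (map_one _)]

theorem aeval_map {R S : Type} [CommRing R] [CommRing S] (f : R →+* S) (A : Matrix (Fin n) (Fin n) R) (Q : R[X]) :
    aeval (A.map f) (Q.map f) = (aeval A Q).map f := by
  rw [aeval_def, eval₂_map, aeval_def, eval₂_eq_sum, eval₂_eq_sum, Polynomial.sum_def, Polynomial.sum_def]
  show _ = f.mapMatrix _
  rw [map_sum]
  refine Finset.sum_congr rfl fun k _ => ?_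
  rw [map_mul, map_pow, RingHom.comp_apply]
  congr 1
  ext i j
  rw [Matrix.algebraMap_matrix_apply, RingHom.mapMatrix_apply, Matrix.map_apply, Matrix.algebraMap_matrix_apply]
  split_ifs
  · rfl
  · rw [map_zero]

theorem aeval_conj {R : Type} [CommRing R] (P A : GL (Fin n) R) (Q : R[X]) :
    aeval ((P⁻¹ * A * P : GL (Fin n) R) : Matrix (Fin n) (Fin n) R) Q =
      ((P⁻¹ : GL (Fin n) R) : Matrix (Fin n) (Fin n) R) * aeval (A : Matrix (Fin n) (Fin n) R) Q *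
        (P : Matrix (Fin n) (Fin n) R) := by
  have hpow : ∀ m : ℕ, ((P⁻¹ * A * P : GL (Fin n) R) : Matrix (Fin n) (Fin n) R) ^ m =
      ((P⁻¹ : GL (Fin n) R) : Matrix (Fin n) (Fin n) R) * (A : Matrix (Fin n) (Fin n) R) ^ m *
        (P : Matrix (Fin n) (Fin n) R) := by
    intro m
    have h1 : (P⁻¹ * A * P) ^ m = P⁻¹ * A ^ m * P := by
      have h2 := conj_pow (a := P⁻¹) (b := A) (i := m)
      rw [inv_inv] at h2
      exact h2
    rw [← Units.val_pow_eq_pow_val, h1, Units.val_mul, Units.val_mul, Units.val_pow_eq_pow_val]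
  rw [aeval_def, eval₂_eq_sum, aeval_def, eval₂_eq_sum, Polynomial.sum_def, Polynomial.sum_def, Finset.mul_sum,
    Finset.sum_mul]
  refine Finset.sum_congr rfl fun k _ => ?_
  rw [hpow, ← mul_assoc, ← mul_assoc, ← mul_assoc, Algebra.commutes, mul_assoc _ _ ((A : Matrix (Fin n) (Fin n) R) ^ k)]

theorem relation (h : IntModel ρ N) {g : GK K} {Q : (OO ℓ)[X]}
    (hQ : aeval (ρ g : Matrix (Fin n) (Fin n) (PadicAlgCl ℓ)) (Q.map (algebraMap (OO ℓ) (PadicAlgCl ℓ))) = 0)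
    (m : ℕ) : aeval (redRep N m g : Matrix (Fin n) (Fin n) (RR ℓ m)) (Q.map (mk m)) = 0 := by
  obtain ⟨P, hP⟩ := h
  have h1 : aeval (N g) Q = 0 := by
    apply map_inj
    show (aeval (N g) Q).map _ = (0 : Matrix (Fin n) (Fin n) (OO ℓ)).map _
    rw [← aeval_map, hP, aeval_conj, hQ, mul_zero, zero_mul, Matrix.map_zero _ (map_zero _)]
  rw [redRep_apply, aeval_map, h1, Matrix.map_zero _ (map_zero _)]

theorem isOpen_ker (h : IntModel ρ N) (hρ : Continuous ρ) (m : ℕ) : IsOpen ((redRep N m).ker : Set (GK K)) := by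
  obtain ⟨P, hP⟩ := h
  have hρ' : Continuous fun g => (ρ g : Matrix (Fin n) (Fin n) (PadicAlgCl ℓ)) :=
    Units.continuous_val.comp hρ
  have hc : Continuous fun g => (N g).map (algebraMap (OO ℓ) (PadicAlgCl ℓ)) := by
    have e : (fun g => (N g).map (algebraMap (OO ℓ) (PadicAlgCl ℓ))) = fun g =>
        ((P⁻¹ : GL (Fin n) (PadicAlgCl ℓ)) : Matrix (Fin n) (Fin n) (PadicAlgCl ℓ)) *
          (ρ g : Matrix (Fin n) (Fin n) (PadicAlgCl ℓ)) * (P : Matrix (Fin n) (Fin n) (PadicAlgCl ℓ)) := by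
      funext g
      rw [hP, Units.val_mul, Units.val_mul]
    rw [e]
    exact (continuous_const.mul hρ').mul continuous_const
  apply Subgroup.isOpen_of_mem_nhds (g := 1)
  have h2 := near_one (fun g => (N g).map (algebraMap (OO ℓ) (PadicAlgCl ℓ))) hc
    (by show (N 1).map _ = 1; rw [map_one, Matrix.map_one _ (map_zero _) (map_one _)]) m
  filter_upwards [h2] with g hg
  show redRep N m g = 1
  apply Units.ext
  rw [redRep_apply, Units.val_one]
  ext i j
  have h3 : (N g).map (mk m) i j = mk m (N g i j) := rfl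
  have h4 : (1 : Matrix (Fin n) (Fin n) (RR ℓ m)) i j = mk m ((1 : Matrix (Fin n) (Fin n) (OO ℓ)) i j) := by
    rw [Matrix.one_apply, Matrix.one_apply]
    split_ifs
    · rw [map_one]
    · rw [map_zero]
  rw [h3, h4, mk_eq]
  have h5 : (((1 : Matrix (Fin n) (Fin n) (OO ℓ)) i j : OO ℓ) : PadicAlgCl ℓ) =
      (1 : Matrix (Fin n) (Fin n) (PadicAlgCl ℓ)) i j := by
    rw [Matrix.one_apply, Matrix.one_apply]
    split_ifs <;> rfl
  rw [h5]
  exact (hg i j).le

end IntModel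

/-- the roots of a monic polynomial with integral coefficients -/
theorem int_of_coeff (a : Fin n → PadicAlgCl ℓ) (h : ∀ k, (∏ i, (X - C (a i))).coeff k ∈ OO ℓ) (i : Fin n) :
    a i ∈ OO ℓ := by
  have hm : (∏ i, (X - C (a i))).Monic := Polynomial.monic_prod_of_monic _ _ fun i _ => monic_X_sub_C _
  have hl : (∏ i, (X - C (a i))) ∈ Polynomial.lifts (algebraMap (OO ℓ) (PadicAlgCl ℓ)) := by
    rw [Polynomial.lifts_iff_coeff_lifts]
    intro k
    exact ⟨⟨_, h k⟩, rfl⟩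
  obtain ⟨Q, hQ1, -, hQ2⟩ := Polynomial.lifts_and_degree_eq_and_monic hl hm
  have h3 : IsIntegral (OO ℓ) (a i) := by
    refine ⟨Q, hQ2, ?_⟩
    rw [← Polynomial.eval_map, hQ1, Polynomial.eval_prod]
    exact Finset.prod_eq_zero (Finset.mem_univ i) (by simp)
  obtain ⟨y, hy⟩ := IsIntegrallyClosed.isIntegral_iff.1 h3
  rw [← hy]
  exact y.2

theorem map_prod_coe (b : Fin n → OO ℓ) : (∏ i, (X - C (b i))).map (algebraMap (OO ℓ) (PadicAlgCl ℓ)) =
    ∏ i, (X - C ((b i : OO ℓ) : PadicAlgCl ℓ)) := by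
  rw [Polynomial.map_prod]
  refine Finset.prod_congr rfl fun i _ => ?_
  rw [Polynomial.map_sub, Polynomial.map_X, Polynomial.map_C]
  rfl

theorem map_prod_mk (m : ℕ) (b : Fin n → OO ℓ) : (∏ i, (X - C (b i))).map (mk m) =
    ∏ i, (X - C (mk m (b i))) := by
  rw [Polynomial.map_prod]
  refine Finset.prod_congr rfl fun i _ => ?_
  rw [Polynomial.map_sub, Polynomial.map_X, Polynomial.map_C]

theorem IntModel.near {ρ : GK K →* GL (Fin n) (PadicAlgCl ℓ)} {N : GK K →* Matrix (Fin n) (Fin n) (OO ℓ)}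
    (h : IntModel ρ N) (m : ℕ) (v : HeightOneSpectrum (𝓞 K)) (a : Fin n → PadicAlgCl ℓ)
    (hc : CorrespondsNear m ρ v a) : CorrespondsMod false (mk m) (redRep N m) v a := by
  refine ⟨fun σ hσ => h.red_one (hc.1 σ hσ) m, fun σ hσ => ?_⟩
  have h1 := hc.2 σ hσ
  have h2 := h.charpoly σ⁻¹
  have hcoef : ∀ k, (∏ i, (X - C (a i))).coeff k ∈ OO ℓ := by
    intro k
    have h3 := h1 k
    rw [← h2, Polynomial.coeff_map] at h3
    have h4 := (mem_OO _).2 (h3.trans (pow_le_one₀ (norm_nonneg _) norm_ell_lt.le))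
    have h5 := sub_mem ((N σ⁻¹).charpoly.coeff k).2 h4
    have e : (((N σ⁻¹).charpoly.coeff k : OO ℓ) : PadicAlgCl ℓ) -
      (algebraMap (OO ℓ) (PadicAlgCl ℓ) ((N σ⁻¹).charpoly.coeff k) - (∏ i, (X - C (a i))).coeff k) =
      (∏ i, (X - C (a i))).coeff k := sub_sub_cancel _ _
    rw [e] at h5
    exact h5
  have hint := int_of_coeff a hcoef
  refine ⟨fun i => ⟨a i, hint i⟩, fun i => rfl, ?_, fun h => absurd h (by simp)⟩
  rw [redRep_apply, Matrix.charpoly_map, ← map_prod_mk]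
  ext k
  rw [Polynomial.coeff_map, Polynomial.coeff_map, mk_eq]
  have h3 := h1 k
  rw [← h2, Polynomial.coeff_map] at h3
  have h4 : (∏ i, (X - C (a i))).coeff k =
      (((∏ i, (X - C (⟨a i, hint i⟩ : OO ℓ))).coeff k : OO ℓ) : PadicAlgCl ℓ) := by
    have h5 := congrArg (fun P : (PadicAlgCl ℓ)[X] => P.coeff k) (map_prod_coe fun i => (⟨a i, hint i⟩ : OO ℓ))
    simp only [Polynomial.coeff_map] at h5
    exact h5.symm
  rw [h4] at h3
  exact h3

theorem IntModel.traceNear {ρ : GK K →* GL (Fin n) (PadicAlgCl ℓ)} {N : GK K →* Matrix (Fin n) (Fin n) (OO ℓ)}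
    (h : IntModel ρ N) (m : ℕ) (v : HeightOneSpectrum (𝓞 K)) (a : Fin n → PadicAlgCl ℓ)
    (hc : TraceNear m ρ v a) : TraceMod (mk m) (redRep N m) v a := by
  obtain ⟨σ0, hσ0⟩ := Pool.Agent.W401.Frob.exists_frob v
  have hs : ∑ i, a i ∈ OO ℓ := by
    have h3 := hc σ0 hσ0
    rw [← h.trace] at h3
    have h4 := (mem_OO _).2 (h3.trans (pow_le_one₀ (norm_nonneg _) norm_ell_lt.le))
    have h5 := sub_mem (N σ0⁻¹).trace.2 h4
    rw [sub_sub_cancel] at h5
    exact h5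
  refine ⟨⟨_, hs⟩, rfl, fun σ hσ => ?_⟩
  have e1 : (redRep N m σ⁻¹ : Matrix (Fin n) (Fin n) (RR ℓ m)).trace = mk m (N σ⁻¹).trace := by
    rw [redRep_apply, Matrix.trace, Matrix.trace]
    exact (map_sum (mk m) _ _).symm
  rw [e1, mk_eq, h.trace]
  exact hc σ hσ

theorem redRep_trace (N : GK K →* Matrix (Fin n) (Fin n) (OO ℓ)) (m : ℕ) (g : GK K) :
    (redRep N m g : Matrix (Fin n) (Fin n) (RR ℓ m)).trace = mk m (N g).trace := by
  rw [redRep_apply, Matrix.trace, Matrix.trace]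
  exact (map_sum (mk m) _ _).symm

theorem adic_to_torsion (S : Set (HeightOneSpectrum (𝓞 K)))
    (α : HeightOneSpectrum (𝓞 K) → Fin n → PadicAlgCl ℓ) (c : ℝ)
    (ρ : ℕ → GK K →* GL (Fin n) (PadicAlgCl ℓ)) (h : AdicSystem S α c ρ) :
    ∃ N : ∀ m, GK K →* Matrix (Fin n) (Fin n) (OO ℓ), (∀ m, IntModel (ρ m) (N m)) ∧
      TorsionSystem S α false c fun m => redRep (N m) m := by
  obtain ⟨h1, h2, h3⟩ := h
  choose N hN using fun m => exists_model (ρ m) (h1 m)
  refine ⟨N, hN, fun m => (hN m).isOpen_ker (h1 m) m, fun m => ?_, fun v hv => ?_⟩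
  · intro ε hε
    refine (h2 m ε hε).mono fun M hM => le_trans ?_ hM
    have hsub : {v : HeightOneSpectrum (𝓞 K) | Ideal.absNorm v.asIdeal ≤ M ∧
        (v ∉ S ∧ ¬ TraceMod (mk m) (redRep (N m) m) v (α v))} ⊆ {v : HeightOneSpectrum (𝓞 K) |
        Ideal.absNorm v.asIdeal ≤ M ∧ (v ∉ S ∧ ¬ TraceNear m (ρ m) v (α v))} := fun v hv =>
      ⟨hv.1, hv.2.1, fun hh => hv.2.2 ((hN m).traceNear m v (α v) hh)⟩
    have hf : {v : HeightOneSpectrum (𝓞 K) | Ideal.absNorm v.asIdeal ≤ M ∧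
        (v ∉ S ∧ ¬ TraceNear m (ρ m) v (α v))}.Finite :=
      (Pool.Agent.W352.ChAbs.finite_le (K := K) M).subset (fun v hv => hv.1)
    exact_mod_cast Set.ncard_le_ncard hsub hf
  · exact (h3 v hv).mono fun m hm => (hN m).near m v (α v) hm

theorem adic_limit (S : Set (HeightOneSpectrum (𝓞 K))) (hS : S.Finite)
    (α : HeightOneSpectrum (𝓞 K) → Fin n → PadicAlgCl ℓ) (c : ℝ) (hc : c * (4 * n ^ 2) < 1)
    (hF : FiniteTraces S α) (ρ' : ℕ → GK K →* GL (Fin n) (PadicAlgCl ℓ)) (h : AdicSystem S α c ρ') :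
    ∃ ρ : GK K →* GL (Fin n) (PadicAlgCl ℓ), Attached S α false ρ ∧ TrNear ρ ρ' := by
  obtain ⟨N, hN, hT⟩ := adic_to_torsion S α c ρ' h
  obtain ⟨ρ, hρ1, hρ2⟩ := forward S hS α c hc hF false _ hT
  refine ⟨ρ, hρ1, fun σ m => ?_⟩
  obtain ⟨t, ht1, ht2⟩ := hρ2 σ m
  rw [redRep_trace, mk_eq, (hN m).trace] at ht2
  rw [ht1]
  exact ht2

theorem near_of_corr {strict : Bool} {ρ : GK K →* GL (Fin n) (PadicAlgCl ℓ)} {v : HeightOneSpectrum (𝓞 K)}
    {a : Fin n → PadicAlgCl ℓ} (h : Corresponds strict ρ v a) (m : ℕ) : CorrespondsNear m ρ v a := by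
  refine ⟨h.1, fun σ hσ k => ?_⟩
  rw [(h.2 σ hσ).1, sub_self, norm_zero]
  exact pow_nonneg (norm_nonneg _) _

theorem trace_of_corr {strict : Bool} {ρ : GK K →* GL (Fin n) (PadicAlgCl ℓ)} {v : HeightOneSpectrum (𝓞 K)}
    {a : Fin n → PadicAlgCl ℓ} (h : Corresponds strict ρ v a) {σ : GK K} (hσ : IsFrob v σ) :
    (ρ σ⁻¹ : Matrix (Fin n) (Fin n) (PadicAlgCl ℓ)).trace = ∑ i, a i := by
  have h4 := trace_of_charpoly _ _ (h.2 σ hσ).1 1
  simp only [pow_one] at h4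
  exact h4

theorem traceNear_of_corr {strict : Bool} {ρ : GK K →* GL (Fin n) (PadicAlgCl ℓ)} {v : HeightOneSpectrum (𝓞 K)}
    {a : Fin n → PadicAlgCl ℓ} (h : Corresponds strict ρ v a) (m : ℕ) : TraceNear m ρ v a := by
  intro σ hσ
  rw [trace_of_corr h hσ, sub_self, norm_zero]
  exact pow_nonneg (norm_nonneg _) _

theorem IntModel.corr {ρ : GK K →* GL (Fin n) (PadicAlgCl ℓ)} {N : GK K →* Matrix (Fin n) (Fin n) (OO ℓ)}
    (hN : IntModel ρ N) {strict : Bool} {v : HeightOneSpectrum (𝓞 K)} {a : Fin n → PadicAlgCl ℓ}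
    (h : Corresponds strict ρ v a) (m : ℕ) : CorrespondsMod strict (mk m) (redRep N m) v a := by
  classical
  obtain ⟨σ0, hσ0⟩ := Pool.Agent.W401.Frob.exists_frob v
  have hint : ∀ i, a i ∈ OO ℓ := by
    refine int_of_coeff _ fun k => ?_
    rw [← (h.2 σ0 hσ0).1, ← hN.charpoly, Polynomial.coeff_map]
    exact ((N σ0⁻¹).charpoly.coeff k).2
  refine ⟨fun σ hσ => hN.red_one (h.1 σ hσ) m, fun σ hσ => ?_⟩
  obtain ⟨h4, h5⟩ := h.2 σ hσ
  refine ⟨fun i => ⟨a i, hint i⟩, fun i => rfl, ?_, fun hs => ?_⟩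
  · rw [redRep_apply, Matrix.charpoly_map, ← map_prod_mk]
    congr 1
    apply Polynomial.map_injective (algebraMap (OO ℓ) (PadicAlgCl ℓ)) Subtype.val_injective
    rw [hN.charpoly, h4, map_prod_coe]
  · obtain ⟨P, hP⟩ := h5 hs
    have h6 : aeval (ρ σ⁻¹ : Matrix (Fin n) (Fin n) (PadicAlgCl ℓ))
        ((∏ x ∈ Finset.univ.image (fun i => (⟨a i, hint i⟩ : OO ℓ)), (X - C x)).map
          (algebraMap (OO ℓ) (PadicAlgCl ℓ))) = 0 := by
      rw [hP]
      have h7 := relation_of_conj P a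
      have h8 : Finset.univ.image a = (Finset.univ.image (fun i => (⟨a i, hint i⟩ : OO ℓ))).image
          fun x : OO ℓ => (x : PadicAlgCl ℓ) := by
        rw [Finset.image_image]
        exact Finset.image_congr fun i _ => rfl
      rw [h8, Finset.prod_image fun x _ y _ hxy => Subtype.ext hxy] at h7
      rw [Polynomial.map_prod]
      simp only [Polynomial.map_sub, Polynomial.map_X, Polynomial.map_C]
      exact h7
    have h9 := hN.relation h6 m
    rw [Polynomial.map_prod] at h9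
    have h10 : ∀ x : OO ℓ, (X - C x).map (mk m) = X - C (mk m x) := fun x => by
      rw [Polynomial.map_sub, Polynomial.map_X, Polynomial.map_C]
    simp only [h10] at h9
    exact h9

theorem attached_to_adic (S : Set (HeightOneSpectrum (𝓞 K)))
    (α : HeightOneSpectrum (𝓞 K) → Fin n → PadicAlgCl ℓ) {c : ℝ} (hc : 0 ≤ c) (strict : Bool)
    (ρ : GK K →* GL (Fin n) (PadicAlgCl ℓ)) (h : Attached S α strict ρ) :
    AdicSystem S α c (fun _ => ρ) := by
  obtain ⟨h1, -, h3⟩ := h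
  refine ⟨fun _ => h1, fun m ε hε => ?_, fun v hv => ?_⟩
  · refine Filter.Eventually.of_forall fun M => ?_
    have e : {v : HeightOneSpectrum (𝓞 K) | Ideal.absNorm v.asIdeal ≤ M ∧
        (v ∉ S ∧ ¬ TraceNear m ρ v (α v))} = ∅ := by
      ext v
      simp only [Set.mem_setOf_eq, Set.mem_empty_iff_false, iff_false]
      rintro ⟨_, hv, h4⟩
      exact h4 (traceNear_of_corr (h3 v hv) m)
    rw [e, Set.ncard_empty, Nat.cast_zero]
    positivity
  · have e : {m | CorrespondsNear m ρ v (α v)} = Set.univ := by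
      ext m
      simp only [Set.mem_setOf_eq, Set.mem_univ, iff_true]
      exact near_of_corr (h3 v hv) m
    rw [e]
    exact Set.infinite_univ

theorem attached_to_torsion (S : Set (HeightOneSpectrum (𝓞 K)))
    (α : HeightOneSpectrum (𝓞 K) → Fin n → PadicAlgCl ℓ) {c : ℝ} (hc : 0 ≤ c) (strict : Bool)
    (ρ : GK K →* GL (Fin n) (PadicAlgCl ℓ)) (h : Attached S α strict ρ) :
    ∃ r, TorsionSystem S α strict c r := by
  classical
  obtain ⟨h1, -, h3⟩ := h
  obtain ⟨N, hN⟩ := exists_model ρ h1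
  refine ⟨fun m => redRep N m, fun m => hN.isOpen_ker h1 m, fun m ε hε => ?_, fun v hv => ?_⟩
  · refine Filter.Eventually.of_forall fun M => ?_
    have e : {v : HeightOneSpectrum (𝓞 K) | Ideal.absNorm v.asIdeal ≤ M ∧
        (v ∉ S ∧ ¬ TraceMod (mk m) (redRep N m) v (α v))} = ∅ := by
      ext v
      simp only [Set.mem_setOf_eq, Set.mem_empty_iff_false, iff_false]
      rintro ⟨_, hv, h4⟩
      exact h4 (hN.traceNear m v (α v) (traceNear_of_corr (h3 v hv) m))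
    rw [e, Set.ncard_empty, Nat.cast_zero]
    positivity
  · have e : {m | CorrespondsMod strict (mk m) (redRep N m) v (α v)} = Set.univ := by
      ext m
      simp only [Set.mem_setOf_eq, Set.mem_univ, iff_true]
      exact hN.corr (h3 v hv) m
    rw [e]
    exact Set.infinite_univ

/-- the traces of a continuous representation are in a finite extension of `ℚ_ℓ` -/
theorem exists_field (ρ : GK K →* GL (Fin n) (PadicAlgCl ℓ)) (hρ : Continuous ρ) :
    ∃ F : IntermediateField ℚ_[ℓ] (PadicAlgCl ℓ), FiniteDimensional ℚ_[ℓ] F ∧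
      ∀ g, (ρ g : Matrix (Fin n) (Fin n) (PadicAlgCl ℓ)).trace ∈ F := by
  obtain ⟨E, hE, hEt⟩ := Pool.Agent.Y800.finite_ext ρ hρ
  obtain ⟨s, hs⟩ := Submodule.fg_iff_finiteDimensional E |>.2 hE
  refine ⟨IntermediateField.adjoin ℚ_[ℓ] (s : Set (PadicAlgCl ℓ)), ?_, fun g => ?_⟩
  · haveI : Finite (s : Set (PadicAlgCl ℓ)) := s.finite_toSet.to_subtype
    exact IntermediateField.finiteDimensional_adjoin fun x _ => Algebra.IsIntegral.isIntegral x
  · have h5 := hEt g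
    rw [← hs] at h5
    have h6 : Submodule.span ℚ_[ℓ] (s : Set (PadicAlgCl ℓ)) ≤
        (IntermediateField.adjoin ℚ_[ℓ] (s : Set (PadicAlgCl ℓ))).toSubalgebra.toSubmodule :=
      Submodule.span_le.2 fun x hx => IntermediateField.subset_adjoin _ _ hx
    exact h6 h5

theorem attached_finite (S : Set (HeightOneSpectrum (𝓞 K)))
    (α : HeightOneSpectrum (𝓞 K) → Fin n → PadicAlgCl ℓ) (strict : Bool)
    (ρ : GK K →* GL (Fin n) (PadicAlgCl ℓ)) (h : Attached S α strict ρ) : FiniteTraces S α := by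
  obtain ⟨h1, -, h3⟩ := h
  obtain ⟨F, hF, hFt⟩ := exists_field ρ h1
  refine ⟨F, hF, fun v hv => ?_⟩
  obtain ⟨σ, hσ⟩ := Pool.Agent.W401.Frob.exists_frob v
  rw [← trace_of_corr (h3 v hv) hσ]
  exact hFt _

end Pool.Agent.H499.CM
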