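import Mathlib

/-! Finitely many vectors over a ring in which any two elements are comparable by divisibility are
combinations of at most as many of them as there are coordinates; equality of traces of two representations
over such a ring from equality on a large set. -/

set_option autoImplicit false
set_option linter.all false

namespace Pool.Agent.H499.CM

open MeasureTheory

section chain

variable {R : Type*} [CommRing R]

theorem exists_dvd_all (hR : ∀ a b : R, a ∣ b ∨ b ∣ a) {ι : Type*} (s : Finset ι) (hs : s.Nonempty)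
    (f : ι → R) : ∃ i ∈ s, ∀ j ∈ s, f i ∣ f j := by
  classical
  induction hs using Finset.Nonempty.cons_induction with
  | singleton a => exact ⟨a, by simp, by simp⟩
  | cons a s ha hs ih =>
    obtain ⟨i, hi, hij⟩ := ih
    rcases hR (f a) (f i) with h | h
    · refine ⟨a, Finset.mem_cons_self a s, fun j hj => ?_⟩
      rcases Finset.mem_cons.1 hj with rfl | hj
      · exact dvd_rfl
      · exact h.trans (hij j hj)
    · refine ⟨i, Finset.mem_cons.2 (Or.inr hi), fun j hj => ?_⟩
      rcases Finset.mem_cons.1 hj with rfl | hj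
      · exact h
      · exact hij j hj

/-- adding a zero coordinate -/
def consZero (N : ℕ) : (Fin N → R) →ₗ[R] (Fin (N + 1) → R) where
  toFun w := Fin.cons 0 w
  map_add' a b := by
    funext i
    refine Fin.cases ?_ (fun k => ?_) i
    · simp
    · simp
  map_smul' c a := by
    funext i
    refine Fin.cases ?_ (fun k => ?_) i
    · simp
    · simp

theorem chain_span (hR : ∀ a b : R, a ∣ b ∨ b ∣ a) {ι : Type*} (s : Finset ι) (N : ℕ) :
    ∀ y : ι → (Fin N → R), ∃ J ⊆ s, J.card ≤ N ∧ ∀ i ∈ s, y i ∈ Submodule.span R (y '' (J : Set ι)) := by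
  classical
  induction N with
  | zero =>
    intro y
    refine ⟨∅, by simp, by simp, fun i _ => ?_⟩
    have : y i = 0 := Subsingleton.elim _ _
    rw [this]
    exact Submodule.zero_mem _
  | succ N ih =>
    intro y
    rcases s.eq_empty_or_nonempty with rfl | hs
    · exact ⟨∅, by simp, by simp, by simp⟩
    obtain ⟨j0, hj0, hdiv⟩ := exists_dvd_all hR s hs fun i => y i 0
    have hc : ∀ i, ∃ a : R, i ∈ s → y i 0 = y j0 0 * a := by
      intro i
      by_cases hi : i ∈ s
      · obtain ⟨a, ha⟩ := hdiv i hi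
        exact ⟨a, fun _ => ha⟩
      · exact ⟨0, fun h => absurd h hi⟩
    choose a ha using hc
    obtain ⟨J, hJs, hJc, hJ⟩ := ih fun i k => y i k.succ - a i * y j0 k.succ
    refine ⟨insert j0 J, Finset.insert_subset hj0 hJs, (Finset.card_insert_le _ _).trans (by omega),
      fun i hi => ?_⟩
    have key : ∀ i ∈ s, y i = consZero N (fun k => y i k.succ - a i * y j0 k.succ) + a i • y j0 := by
      intro i hi
      funext k
      refine Fin.cases ?_ (fun k => ?_) k
      · show y i 0 = (0 : R) + a i * y j0 0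
        rw [ha i hi]
        ring
      · show y i k.succ = (y i k.succ - a i * y j0 k.succ) + a i * y j0 k.succ
        ring
    rw [key i hi]
    refine Submodule.add_mem _ ?_ (Submodule.smul_mem _ _ (Submodule.subset_span
      ⟨j0, Finset.mem_coe.2 (Finset.mem_insert_self _ _), rfl⟩))
    have h1 := Submodule.mem_map_of_mem (f := consZero (R := R) N) (hJ i hi)
    rw [Submodule.map_span] at h1
    refine (Submodule.span_le.2 ?_) h1
    rintro _ ⟨_, ⟨j, hj, rfl⟩, rfl⟩
    have h2 : consZero N (fun k => y j k.succ - a j * y j0 k.succ) = y j - a j • y j0 := by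
      rw [eq_sub_iff_add_eq]
      exact (key j (hJs hj)).symm
    rw [h2]
    refine Submodule.sub_mem _ (Submodule.subset_span ⟨j, Finset.mem_coe.2 (Finset.mem_insert_of_mem hj), rfl⟩)
      (Submodule.smul_mem _ _ (Submodule.subset_span ⟨j0, Finset.mem_coe.2 (Finset.mem_insert_self _ _), rfl⟩))

/-- the version with coefficients, for a map with finite range -/
theorem chain_coeff (hR : ∀ a b : R, a ∣ b ∨ b ∣ a) {G κ : Type*} [Nonempty G] [Fintype κ] (y : G → (κ → R))
    (hy : (Set.range y).Finite) : ∃ g : Fin (Fintype.card κ) → G, ∀ h : G, ∃ a : Fin (Fintype.card κ) → R,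
      y h = ∑ i, a i • y (g i) := by
  classical
  obtain ⟨s, hs⟩ : ∃ s : Finset G, ∀ h, ∃ g ∈ s, y g = y h := by
    choose f hf using fun z : hy.toFinset => (hy.mem_toFinset.1 z.2)
    refine ⟨Finset.univ.image f, fun h => ?_⟩
    refine ⟨f ⟨y h, hy.mem_toFinset.2 ⟨h, rfl⟩⟩, Finset.mem_image.2 ⟨_, Finset.mem_univ _, rfl⟩, ?_⟩
    exact hf ⟨y h, hy.mem_toFinset.2 ⟨h, rfl⟩⟩
  set e := (Fintype.equivFin κ) with he
  let L : (κ → R) ≃ₗ[R] (Fin (Fintype.card κ) → R) := LinearEquiv.funCongrLeft R R e.symm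
  obtain ⟨J, hJs, hJc, hJ⟩ := chain_span hR s (Fintype.card κ) fun i => L (y i)
  -- number the elements of `J`
  obtain ⟨g, hg⟩ : ∃ g : Fin (Fintype.card κ) → G, ∀ j ∈ J, ∃ i, g i = j := by
    let e2 := J.equivFin
    refine ⟨fun i => if h : (i : ℕ) < J.card then (e2.symm ⟨i, h⟩ : G) else Classical.arbitrary G,
      fun j hj => ?_⟩
    refine ⟨⟨(e2 ⟨j, hj⟩ : ℕ), lt_of_lt_of_le (e2 ⟨j, hj⟩).2 hJc⟩, ?_⟩
    have h1 : (e2 ⟨j, hj⟩ : ℕ) < J.card := (e2 ⟨j, hj⟩).2
    simp only [h1, dif_pos]
    have h2 : (⟨(e2 ⟨j, hj⟩ : ℕ), h1⟩ : Fin J.card) = e2 ⟨j, hj⟩ := rfl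
    rw [h2, Equiv.symm_apply_apply]
  refine ⟨g, fun h => ?_⟩
  obtain ⟨g0, hg0, hgh⟩ := hs h
  have h1 := hJ g0 hg0
  have h2 : L (y h) ∈ Submodule.span R (Set.range fun i => L (y (g i))) := by
    rw [← hgh]
    refine (Submodule.span_mono ?_) h1
    rintro _ ⟨j, hj, rfl⟩
    obtain ⟨i, hi⟩ := hg j hj
    exact ⟨i, by simp only [hi]⟩
  obtain ⟨a, ha⟩ := (Submodule.mem_span_range_iff_exists_fun R).1 h2
  refine ⟨a, ?_⟩
  apply L.injective
  rw [← ha, map_sum]
  simp only [map_smul]

end chain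

section count

variable {G : Type*} [Group G] [MeasurableSpace G] [MeasurableMul G]

/-- If `N μ(Zᶜ) < 1`, then there is `x` with `g_i x ∈ Z` for all `i < N`. -/
theorem exists_translate (μ : Measure G) [IsProbabilityMeasure μ] [μ.IsMulLeftInvariant] {N : ℕ}
    (g : Fin N → G) (Z : Set G) (hZ : (N : ENNReal) * μ Zᶜ < 1) : ∃ x, ∀ i, g i * x ∈ Z := by
  by_contra hcon
  push Not at hcon
  have h1 : (Set.univ : Set G) ⊆ ⋃ i, (fun x => g i * x) ⁻¹' Zᶜ := by
    intro x _
    obtain ⟨i, hi⟩ := hcon x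
    exact Set.mem_iUnion.2 ⟨i, hi⟩
  have h2 := (measure_mono h1).trans (measure_iUnion_fintype_le μ _)
  rw [measure_univ] at h2
  have h3 : ∀ i, μ ((fun x => g i * x) ⁻¹' Zᶜ) = μ Zᶜ := fun i => measure_preimage_mul μ (g i) Zᶜ
  rw [Finset.sum_congr rfl fun i _ => h3 i, Finset.sum_const, Finset.card_univ, Fintype.card_fin,
    nsmul_eq_mul] at h2
  exact absurd h2 (not_le.2 hZ)

/-- Two representations over a ring whose traces agree on a large set. -/
theorem trace_eq_of_large {R : Type*} [CommRing R] {n : ℕ} (μ : Measure G) [IsProbabilityMeasure μ]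
    [μ.IsMulLeftInvariant] (r r' : G →* Matrix (Fin n) (Fin n) R) {N : ℕ} (g : Fin N → G)
    (hg : ∀ h, ∃ a : Fin N → R, r h = ∑ i, a i • r (g i) ∧ r' h = ∑ i, a i • r' (g i))
    (Z : Set G) (hZ : (N : ENNReal) * μ Zᶜ < 1) (h : ∀ x ∈ Z, (r x).trace = (r' x).trace) (x : G) :
    (r x).trace = (r' x).trace := by
  obtain ⟨y, hy⟩ := exists_translate μ g Z hZ
  obtain ⟨a, ha, ha'⟩ := hg (x * y⁻¹)
  have e : x = (x * y⁻¹) * y := by group
  have h1 : r x = ∑ i, a i • r (g i * y) := by
    conv_lhs => rw [e, map_mul, ha, Finset.sum_mul]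
    refine Finset.sum_congr rfl fun i _ => ?_
    rw [smul_mul_assoc, ← map_mul]
  have h2 : r' x = ∑ i, a i • r' (g i * y) := by
    conv_lhs => rw [e, map_mul, ha', Finset.sum_mul]
    refine Finset.sum_congr rfl fun i _ => ?_
    rw [smul_mul_assoc, ← map_mul]
  rw [h1, h2, Matrix.trace_sum, Matrix.trace_sum]
  refine Finset.sum_congr rfl fun i _ => ?_
  rw [Matrix.trace_smul, Matrix.trace_smul, h _ (hy i)]

/-- the index set of the entries of two matrices -/
abbrev Two (n : ℕ) : Type := (Fin n × Fin n) ⊕ (Fin n × Fin n)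

theorem card_two (n : ℕ) : Fintype.card (Two n) = 2 * n ^ 2 := by
  simp [Two]
  ring

/-- the entries of two matrices -/
def entries {R : Type*} {n : ℕ} (A B : Matrix (Fin n) (Fin n) R) : Two n → R :=
  Sum.elim (fun x => A x.1 x.2) (fun x => B x.1 x.2)

theorem entries_sum {R : Type*} [CommRing R] {n N : ℕ} (A B : Matrix (Fin n) (Fin n) R)
    (C D : Fin N → Matrix (Fin n) (Fin n) R) (a : Fin N → R)
    (h : entries A B = ∑ i, a i • entries (C i) (D i)) : A = ∑ i, a i • C i ∧ B = ∑ i, a i • D i := by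
  constructor
  · ext s t
    have := congrFun h (Sum.inl (s, t))
    rw [Finset.sum_apply] at this
    rw [Matrix.sum_apply]
    exact this
  · ext s t
    have := congrFun h (Sum.inr (s, t))
    rw [Finset.sum_apply] at this
    rw [Matrix.sum_apply]
    exact this

/-- representations with finite image over a chain ring -/
theorem trace_eq_chain {R : Type*} [CommRing R] (hR : ∀ a b : R, a ∣ b ∨ b ∣ a) {n : ℕ} (μ : Measure G)
    [IsProbabilityMeasure μ] [μ.IsMulLeftInvariant] (r r' : G →* Matrix (Fin n) (Fin n) R)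
    (hr : (Set.range r).Finite) (hr' : (Set.range r').Finite)
    (Z : Set G) (hZ : ((2 * n ^ 2 : ℕ) : ENNReal) * μ Zᶜ < 1)
    (h : ∀ x ∈ Z, (r x).trace = (r' x).trace) (x : G) : (r x).trace = (r' x).trace := by
  have hfin : (Set.range fun g => entries (r g) (r' g)).Finite := by
    have h1 : (Set.range fun g => (r g, r' g)).Finite := by
      refine (hr.prod hr').subset ?_
      rintro _ ⟨g, rfl⟩
      exact ⟨⟨g, rfl⟩, ⟨g, rfl⟩⟩
    refine (h1.image fun z => entries z.1 z.2).subset ?_
    rintro _ ⟨g, rfl⟩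
    exact ⟨_, ⟨g, rfl⟩, rfl⟩
  obtain ⟨g, hg⟩ := chain_coeff hR _ hfin
  rw [← card_two n] at hZ
  refine trace_eq_of_large μ r r' g (fun h => ?_) Z hZ h x
  obtain ⟨a, ha⟩ := hg h
  exact ⟨a, entries_sum _ _ _ _ _ ha⟩

/-- representations over a field -/
theorem trace_eq_field {R : Type*} [Field R] {n : ℕ} (μ : Measure G)
    [IsProbabilityMeasure μ] [μ.IsMulLeftInvariant] (r r' : G →* Matrix (Fin n) (Fin n) R)
    (Z : Set G) (hZ : ((2 * n ^ 2 : ℕ) : ENNReal) * μ Zᶜ < 1)
    (h : ∀ x ∈ Z, (r x).trace = (r' x).trace) (x : G) : (r x).trace = (r' x).trace := by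
  classical
  set y : G → (Two n → R) := fun g => entries (r g) (r' g) with hy
  obtain ⟨f, hf1, hf2, hf3⟩ := Submodule.exists_fun_fin_finrank_span_eq R (Set.range y)
  choose g hg using hf1
  have hle : Module.finrank R (Submodule.span R (Set.range y)) ≤ 2 * n ^ 2 := by
    have := Submodule.finrank_le (Submodule.span R (Set.range y))
    rwa [Module.finrank_fintype_fun_eq_card, card_two] at this
  have hZ' : ((Module.finrank R (Submodule.span R (Set.range y)) : ℕ) : ENNReal) * μ Zᶜ < 1 :=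
    lt_of_le_of_lt (mul_le_mul_left (by exact_mod_cast hle) _) hZ
  refine trace_eq_of_large μ r r' g (fun h => ?_) Z hZ' h x
  have h1 : y h ∈ Submodule.span R (Set.range f) := by
    rw [hf2]
    exact Submodule.subset_span ⟨h, rfl⟩
  obtain ⟨a, ha⟩ := (Submodule.mem_span_range_iff_exists_fun R).1 h1
  refine ⟨a, entries_sum _ _ _ _ _ ?_⟩
  have h2 : y h = entries (r h) (r' h) := rfl
  rw [← h2, ← ha]
  refine Finset.sum_congr rfl fun i _ => ?_
  rw [← hg i]

end count

end Pool.Agent.H499.CM
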