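import Pool.Graph.R_pool_sql_team_seeded_64922ed1.X320.DS.Dual
import Pool.Graph.R_pool_sql_team_seeded_64922ed1.X320.DS.Transfer

/-! A semisimple representation whose traces lie in an algebraically closed subfield comes from this
subfield. -/

set_option autoImplicit false
set_option linter.all false

namespace Pool.Agent.H499.CM

open Matrix
open Pool.Agent.X320.DS (Semisimple exists_dual exists_hom)

theorem descend {k Ω : Type} [Field k] [IsAlgClosed k] [CharZero k] [Field Ω] (j : k →+* Ω) {Γ : Type*}
    [Group Γ] {n : ℕ} (ρ : Γ →* GL (Fin n) Ω) (hρ : Semisimple ρ) (T : Γ → k)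
    (hT : ∀ g, (ρ g : Matrix (Fin n) (Fin n) Ω).trace = j (T g)) :
    ∃ (N : ℕ) (g : Fin N → Γ) (B : Fin N → Matrix (Fin n) (Fin n) k) (ρ' : Γ →* Matrix (Fin n) (Fin n) k),
      (∀ x, ρ' x = ∑ i, T (g i * x) • B i) ∧ ∀ x, (ρ' x).trace = T x := by
  classical
  letI := j.toAlgebra
  haveI : CharZero Ω := charZero_of_injective_ringHom j.injective
  obtain ⟨N, g, B, -, hB⟩ := exists_dual hρ (by exact_mod_cast n.factorial_ne_zero)
  let s : Finset Ω := Finset.univ.image fun x : Fin N × Fin n × Fin n => B x.1 x.2.1 x.2.2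
  obtain ⟨θ⟩ := exists_hom (E := k) (F := Ω) (Ω := k) s
  set A := Algebra.adjoin k (s : Set Ω) with hA
  have hmem : ∀ i a b, B i a b ∈ A := fun i a b =>
    Algebra.subset_adjoin (Finset.mem_coe.2 (Finset.mem_image.2 ⟨(i, a, b), Finset.mem_univ _, rfl⟩))
  let B1 : Fin N → Matrix (Fin n) (Fin n) A := fun i a b => ⟨B i a b, hmem i a b⟩
  let M : Γ → Matrix (Fin n) (Fin n) A := fun x => ∑ i, T (g i * x) • B1 i
  have hM : ∀ x, (M x).map (algebraMap A Ω) = ρ x := by
    intro x
    rw [hB x]
    ext a b
    have e1 : M x a b = ∑ i, (T (g i * x) • B1 i) a b := Matrix.sum_apply _ _ _ _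
    rw [Matrix.map_apply, e1, Matrix.sum_apply, map_sum]
    refine Finset.sum_congr rfl fun i _ => ?_
    rw [Matrix.smul_apply, Matrix.smul_apply, hT, Algebra.smul_def, map_mul, smul_eq_mul]
    rfl
  have hinj : Function.Injective (fun X : Matrix (Fin n) (Fin n) A => X.map (algebraMap A Ω)) :=
    Matrix.map_injective Subtype.val_injective
  have hM1 : M 1 = 1 := by
    apply hinj
    show (M 1).map (algebraMap A Ω) = (1 : Matrix (Fin n) (Fin n) A).map (algebraMap A Ω)
    rw [hM, map_one, Matrix.map_one _ (map_zero _) (map_one _)]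
    rfl
  have hMm : ∀ x y, M (x * y) = M x * M y := by
    intro x y
    apply hinj
    show (M (x * y)).map (algebraMap A Ω) = (M x * M y).map (algebraMap A Ω)
    rw [hM, map_mul, Matrix.map_mul, hM, hM]
    rfl
  have hMt : ∀ x, (M x).trace = algebraMap k A (T x) := by
    intro x
    have h1 : algebraMap A Ω (M x).trace = algebraMap A Ω (algebraMap k A (T x)) := by
      have e : algebraMap A Ω (M x).trace = ((M x).map (algebraMap A Ω)).trace := by
        rw [Matrix.trace, Matrix.trace, map_sum]
        rfl
      rw [e, hM, hT]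
      rfl
    exact Subtype.val_injective h1
  refine ⟨N, g, fun i => (B1 i).map θ, { toFun := fun x => (M x).map θ
                                         map_one' := by rw [hM1, Matrix.map_one _ (map_zero _) (map_one _)]
                                         map_mul' := fun x y => by rw [hMm, Matrix.map_mul] }, ?_, ?_⟩
  · intro x
    show (M x).map θ = ∑ i, T (g i * x) • (B1 i).map θ
    ext a b
    have e1 : M x a b = ∑ i, (T (g i * x) • B1 i) a b := Matrix.sum_apply _ _ _ _
    rw [Matrix.map_apply, e1, Matrix.sum_apply, map_sum]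
    refine Finset.sum_congr rfl fun i _ => ?_
    rw [Matrix.smul_apply, Matrix.smul_apply, map_smul, Matrix.map_apply]
  · intro x
    show ((M x).map θ).trace = T x
    have e : ((M x).map θ).trace = θ (M x).trace := by
      rw [Matrix.trace, Matrix.trace, map_sum]
      rfl
    rw [e, hMt, θ.commutes]
    rfl

end Pool.Agent.H499.CM
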