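import Pool.Agent.H499.CM.Defs

/-! The integers of the algebraic closure of `ℚ_ℓ`, their quotients modulo powers of `ℓ`, and a field which
contains a limit of these quotients. -/

set_option autoImplicit false
set_option linter.all false

namespace Pool.Agent.H499.CM

open Filter Topology
open scoped NNReal

variable (ℓ : ℕ) [Fact ℓ.Prime]

variable {ℓ}

theorem mem_OO (x : PadicAlgCl ℓ) : x ∈ OO ℓ ↔ ‖x‖ ≤ 1 := by
  rw [Valuation.mem_valuationSubring_iff, ← NNReal.coe_le_coe, PadicAlgCl.valuation_coe]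
  rfl

theorem norm_coe_le (x : OO ℓ) : ‖(x : PadicAlgCl ℓ)‖ ≤ 1 := (mem_OO _).1 x.2

theorem norm_ell : ‖(ℓ : PadicAlgCl ℓ)‖ = (ℓ : ℝ)⁻¹ := by
  have h := PadicAlgCl.valuation_p ℓ
  have h2 : ((Valued.v (ℓ : PadicAlgCl ℓ) : ℝ≥0) : ℝ) = ((1 / (ℓ : ℝ≥0) : ℝ≥0) : ℝ) := by rw [h]
  rw [PadicAlgCl.valuation_coe] at h2
  rw [h2]
  push_cast
  rw [one_div]

theorem norm_ell_pos : 0 < ‖(ℓ : PadicAlgCl ℓ)‖ := by
  rw [norm_ell]
  exact inv_pos.2 (by exact_mod_cast (Fact.out : ℓ.Prime).pos)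

theorem norm_ell_lt : ‖(ℓ : PadicAlgCl ℓ)‖ < 1 := by
  rw [norm_ell]
  exact inv_lt_one_of_one_lt₀ (by exact_mod_cast (Fact.out : ℓ.Prime).one_lt)

theorem coe_pow_ell (m : ℕ) : (((ℓ : OO ℓ) ^ m : OO ℓ) : PadicAlgCl ℓ) = (ℓ : PadicAlgCl ℓ) ^ m := by
  push_cast
  rfl

theorem dvd_iff (a b : OO ℓ) : a ∣ b ↔ ‖(b : PadicAlgCl ℓ)‖ ≤ ‖(a : PadicAlgCl ℓ)‖ := by
  constructor
  · rintro ⟨c, rfl⟩
    have e : ((a * c : OO ℓ) : PadicAlgCl ℓ) = (a : PadicAlgCl ℓ) * c := rfl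
    rw [e, norm_mul]
    exact mul_le_of_le_one_right (norm_nonneg _) (norm_coe_le c)
  · intro h
    by_cases ha : (a : PadicAlgCl ℓ) = 0
    · rw [ha, norm_zero] at h
      have hb : (b : PadicAlgCl ℓ) = 0 := norm_eq_zero.1 (le_antisymm h (norm_nonneg _))
      have hb' : b = 0 := Subtype.ext hb
      rw [hb']
      exact dvd_zero _
    · refine ⟨⟨(b : PadicAlgCl ℓ) / a, ?_⟩, ?_⟩
      · rw [mem_OO, norm_div]
        exact div_le_one_of_le₀ h (norm_nonneg _)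
      · apply Subtype.ext
        show (b : PadicAlgCl ℓ) = a * (b / a)
        rw [mul_div_cancel₀ _ ha]

theorem total (a b : OO ℓ) : a ∣ b ∨ b ∣ a := by
  rw [dvd_iff, dvd_iff]
  exact le_total _ _

theorem chain_RR (m : ℕ) (a b : RR ℓ m) : a ∣ b ∨ b ∣ a := by
  obtain ⟨a, rfl⟩ := Ideal.Quotient.mk_surjective a
  obtain ⟨b, rfl⟩ := Ideal.Quotient.mk_surjective b
  rcases total a b with h | h
  · exact Or.inl (map_dvd _ h)
  · exact Or.inr (map_dvd _ h)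

theorem mk_eq_zero (m : ℕ) (x : OO ℓ) : mk m x = 0 ↔ ‖(x : PadicAlgCl ℓ)‖ ≤ ‖(ℓ : PadicAlgCl ℓ)‖ ^ m := by
  rw [Ideal.Quotient.eq_zero_iff_mem, Ideal.mem_span_singleton, dvd_iff, coe_pow_ell, norm_pow]

theorem mk_eq (m : ℕ) (x y : OO ℓ) :
    mk m x = mk m y ↔ ‖(x : PadicAlgCl ℓ) - y‖ ≤ ‖(ℓ : PadicAlgCl ℓ)‖ ^ m := by
  rw [← sub_eq_zero, ← map_sub, mk_eq_zero]
  rfl

theorem span_le (m : ℕ) : Ideal.span {(ℓ : OO ℓ) ^ (m + 1)} ≤ Ideal.span {(ℓ : OO ℓ) ^ m} := by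
  rw [Ideal.span_singleton_le_span_singleton]
  exact pow_dvd_pow _ (Nat.le_succ m)

/-- reduction from `ℓ ^ (m + 1)` to `ℓ ^ m` -/
noncomputable def red (m : ℕ) : RR ℓ (m + 1) →+* RR ℓ m := Ideal.Quotient.factor (span_le m)

theorem red_mk (m : ℕ) (x : OO ℓ) : red m (mk (m + 1) x) = mk m x := Ideal.Quotient.factor_mk _ _

/-- compatible systems -/
def Compat (y : ∀ m, RR ℓ m) : Prop := ∀ m, red m (y (m + 1)) = y m

theorem compat_mk (x : OO ℓ) : Compat (fun m => mk m x) := fun m => red_mk m x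

theorem Compat.lift {y : ∀ m, RR ℓ m} (hy : Compat y) {t : ℕ → OO ℓ} (ht : ∀ m, mk m (t m) = y m) (m k : ℕ) :
    mk m (t (m + k)) = y m := by
  induction k with
  | zero => exact ht m
  | succ k ih =>
    rw [← ih, mk_eq]
    have h1 := hy (m + k)
    rw [← ht (m + k), ← ht (m + k + 1), red_mk, mk_eq] at h1
    refine h1.trans ?_
    exact pow_le_pow_of_le_one (norm_nonneg _) norm_ell_lt.le (Nat.le_add_right m k)

theorem exists_lift (y : ∀ m, RR ℓ m) : ∃ t : ℕ → OO ℓ, ∀ m, mk m (t m) = y m := by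
  choose t ht using fun m => Ideal.Quotient.mk_surjective (y m)
  exact ⟨t, ht⟩

/-- every integer different from zero divides a power of `ℓ` -/
theorem exists_dvd_pow (x : PadicAlgCl ℓ) (hx : x ≠ 0) : ∃ k : ℕ, ‖(ℓ : PadicAlgCl ℓ)‖ ^ k ≤ ‖x‖ := by
  have h := tendsto_pow_atTop_nhds_zero_of_lt_one (norm_nonneg (ℓ : PadicAlgCl ℓ)) norm_ell_lt
  have h2 := h.eventually (ge_mem_nhds (norm_pos_iff.2 hx))
  obtain ⟨k, hk⟩ := h2.exists
  exact ⟨k, hk⟩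

theorem exists_mul_mem (x : PadicAlgCl ℓ) : ∃ k : ℕ, (ℓ : PadicAlgCl ℓ) ^ k * x ∈ OO ℓ := by
  by_cases hx : x = 0
  · exact ⟨0, by rw [hx, mul_zero]; exact (OO ℓ).zero_mem⟩
  obtain ⟨k, hk⟩ := exists_dvd_pow x⁻¹ (inv_ne_zero hx)
  refine ⟨k, ?_⟩
  rw [mem_OO, norm_mul, norm_pow]
  rw [norm_inv] at hk
  calc ‖(ℓ : PadicAlgCl ℓ)‖ ^ k * ‖x‖ ≤ ‖x‖⁻¹ * ‖x‖ := mul_le_mul_of_nonneg_right hk (norm_nonneg _)
    _ = 1 := inv_mul_cancel₀ (norm_ne_zero_iff.2 hx)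

/-- the product of the quotients -/
abbrev DD (ℓ : ℕ) [Fact ℓ.Prime] : Type := ∀ m, RR ℓ m

/-- the ideal of the systems which are zero from some point on -/
noncomputable def evZero : Ideal (DD ℓ) where
  carrier := {f | ∀ᶠ m in atTop, f m = 0}
  add_mem' := by
    intro f g hf hg
    filter_upwards [hf, hg] with m h1 h2
    rw [Pi.add_apply, h1, h2, add_zero]
  zero_mem' := by
    show ∀ᶠ m in atTop, (0 : DD ℓ) m = 0
    exact Eventually.of_forall fun m => rfl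
  smul_mem' := by
    intro c f hf
    filter_upwards [hf] with m h1
    rw [smul_eq_mul, Pi.mul_apply, h1, mul_zero]

theorem mem_evZero (f : DD ℓ) : f ∈ evZero ↔ ∀ᶠ m in atTop, f m = 0 := Iff.rfl

theorem pow_notMem (k : ℕ) : ((ℓ : DD ℓ) ^ k) ∉ (evZero : Ideal (DD ℓ)) := by
  rw [mem_evZero]
  intro h
  obtain ⟨m, hm1, hm2⟩ := (h.and (eventually_gt_atTop k)).exists
  have e : ((ℓ : DD ℓ) ^ k) m = mk m ((ℓ : OO ℓ) ^ k) := by
    rw [Pi.pow_apply, map_pow, map_natCast]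
    rfl
  rw [e, mk_eq_zero, coe_pow_ell, norm_pow] at hm1
  have h2 := pow_lt_pow_right_of_lt_one₀ (norm_ell_pos (ℓ := ℓ)) norm_ell_lt hm2
  exact absurd hm1 (not_le.2 h2)

theorem exists_field_of_domain (B : Type) [CommRing B] [IsDomain B] : ∃ (Ω : Type) (_ : Field Ω)
    (_ : IsAlgClosed Ω) (a : B →+* Ω), Function.Injective a := by
  refine ⟨AlgebraicClosure (FractionRing B), inferInstance, inferInstance,
    (algebraMap (FractionRing B) (AlgebraicClosure (FractionRing B))).comp (algebraMap B (FractionRing B)), ?_⟩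
  exact (algebraMap (FractionRing B) (AlgebraicClosure (FractionRing B))).injective.comp
    (IsFractionRing.injective _ _)

/-- an algebraically closed field attached to a prime ideal -/
theorem exists_field_of_prime (D : Type) [CommRing D] (P : Ideal D) (hP : P.IsPrime) :
    ∃ (Ω : Type) (_ : Field Ω) (_ : IsAlgClosed Ω) (q : D →+* Ω), ∀ f, q f = 0 ↔ f ∈ P := by
  haveI := hP
  obtain ⟨Ω, i1, i2, a, ha⟩ := exists_field_of_domain (D ⧸ P)
  refine ⟨Ω, i1, i2, a.comp (Ideal.Quotient.mk P), fun f => ?_⟩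
  show a (Ideal.Quotient.mk P f) = 0 ↔ _
  rw [map_eq_zero_iff a ha, Ideal.Quotient.eq_zero_iff_mem]

theorem exists_limit : ∃ (Ω : Type) (_ : Field Ω) (_ : IsAlgClosed Ω) (j : PadicAlgCl ℓ →+* Ω)
    (q : DD ℓ →+* Ω), (∀ x : OO ℓ, q (fun m => mk m x) = j x) ∧
      ∀ (y : DD ℓ) (x : PadicAlgCl ℓ), Compat y → q y = j x → ∃ h : x ∈ OO ℓ, ∀ m, mk m ⟨x, h⟩ = y m := by
  have hdis : Disjoint ((evZero : Ideal (DD ℓ)) : Set (DD ℓ)) (Submonoid.powers (ℓ : DD ℓ) : Set (DD ℓ)) := by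
    rw [Set.disjoint_left]
    rintro f hf ⟨k, rfl⟩
    exact pow_notMem k hf
  obtain ⟨P, hP, hPI, hPS⟩ := Ideal.exists_le_prime_disjoint _ _ hdis
  obtain ⟨Ω, iΩ1, iΩ2, q, hq⟩ := exists_field_of_prime (DD ℓ) P hP
  have hqev : ∀ f : DD ℓ, (∀ᶠ m in atTop, f m = 0) → q f = 0 := fun f hf => (hq f).2 (hPI hf)
  have hql : ∀ k : ℕ, q ((ℓ : DD ℓ) ^ k) ≠ 0 := by
    intro k h
    rw [hq] at h
    exact (Set.disjoint_left.1 hPS) h ⟨k, rfl⟩
  let D : OO ℓ →+* DD ℓ := Pi.ringHom fun m => mk m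
  have hDl : ∀ k : ℕ, D ((ℓ : OO ℓ) ^ k) = (ℓ : DD ℓ) ^ k := by
    intro k
    rw [map_pow, map_natCast]
  -- compatible systems in the kernel are zero
  have hC2 : ∀ y : DD ℓ, Compat y → q y = 0 → y = 0 := by
    intro y hy hqy
    by_contra hne
    obtain ⟨m0, hm0⟩ : ∃ m0, y m0 ≠ 0 := by
      by_contra h
      push Not at h
      exact hne (funext h)
    obtain ⟨t, ht⟩ := exists_lift y
    have hdv : ∀ m, m0 ≤ m → t m ∣ (ℓ : OO ℓ) ^ m0 := by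
      intro m hm
      obtain ⟨k, rfl⟩ := Nat.exists_eq_add_of_le hm
      rw [dvd_iff, coe_pow_ell, norm_pow]
      by_contra h
      push Not at h
      apply hm0
      rw [← hy.lift ht m0 k, mk_eq_zero]
      exact h.le
    choose z hz using fun m : {m // m0 ≤ m} => hdv m.1 m.2
    let w : DD ℓ := fun m => if h : m0 ≤ m then mk m (z ⟨m, h⟩) else 0
    have h1 : q ((ℓ : DD ℓ) ^ m0 - y * w) = 0 := by
      refine hqev _ ?_
      filter_upwards [eventually_ge_atTop m0] with m hm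
      rw [Pi.sub_apply, Pi.mul_apply, sub_eq_zero]
      have hw : w m = mk m (z ⟨m, hm⟩) := dif_pos hm
      rw [hw, ← ht m, ← map_mul, ← hz ⟨m, hm⟩, ← hDl]
      rfl
    rw [map_sub, map_mul, hqy, zero_mul, sub_zero] at h1
    exact hql m0 h1
  have hinj : Function.Injective (q.comp D) := by
    rw [injective_iff_map_eq_zero]
    intro x hx
    have h1 : D x = 0 := hC2 (D x) (compat_mk x) hx
    by_contra hne
    have hne' : (x : PadicAlgCl ℓ) ≠ 0 := fun h => hne (Subtype.ext h)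
    obtain ⟨k, hk⟩ := exists_dvd_pow (x : PadicAlgCl ℓ) hne'
    have h2 : mk (k + 1) x = 0 := congrFun h1 (k + 1)
    rw [mk_eq_zero] at h2
    have h3 := pow_lt_pow_right_of_lt_one₀ (norm_ell_pos (ℓ := ℓ)) norm_ell_lt (Nat.lt_succ_self k)
    exact absurd (hk.trans h2) (not_le.2 h3)
  let j : PadicAlgCl ℓ →+* Ω := IsFractionRing.lift (A := OO ℓ) (K := PadicAlgCl ℓ) hinj
  have hj : ∀ x : OO ℓ, q (fun m => mk m x) = j x := by
    intro x
    exact (IsFractionRing.lift_algebraMap hinj x).symm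
  refine ⟨Ω, inferInstance, inferInstance, j, q, hj, fun y x hy hyx => ?_⟩
  obtain ⟨k, hk⟩ := exists_mul_mem x
  obtain ⟨t, ht⟩ := exists_lift y
  have h1 : ((ℓ : DD ℓ) ^ k) * y - D ⟨_, hk⟩ = 0 := by
    apply hC2
    · intro m
      rw [Pi.sub_apply, Pi.sub_apply, Pi.mul_apply, Pi.mul_apply, map_sub, map_mul, hy m, ← hDl]
      have e1 : red m (D ((ℓ : OO ℓ) ^ k) (m + 1)) = D ((ℓ : OO ℓ) ^ k) m := red_mk m _
      have e2 : red m (D ⟨_, hk⟩ (m + 1)) = D ⟨_, hk⟩ m := red_mk m _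
      rw [e1, e2]
    · rw [map_sub, map_mul, hyx, sub_eq_zero]
      have e1 : q (D ⟨_, hk⟩) = j ((ℓ : PadicAlgCl ℓ) ^ k * x) := hj ⟨_, hk⟩
      have e2 : q ((ℓ : DD ℓ) ^ k) = j ((ℓ : PadicAlgCl ℓ) ^ k) := by
        rw [map_pow, map_pow, map_natCast, map_natCast]
      rw [e1, e2, map_mul]
  have h2 : ∀ m, ‖(t (m + k) : PadicAlgCl ℓ) - x‖ ≤ ‖(ℓ : PadicAlgCl ℓ)‖ ^ m := by
    intro m
    have h3 := congrFun h1 (m + k)
    rw [Pi.sub_apply, Pi.mul_apply, ← ht (m + k), ← hDl] at h3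
    have e : D ((ℓ : OO ℓ) ^ k) (m + k) * mk (m + k) (t (m + k)) - D ⟨_, hk⟩ (m + k) =
        mk (m + k) ((ℓ : OO ℓ) ^ k * t (m + k) - ⟨_, hk⟩) := by
      rw [map_sub, map_mul]
      rfl
    rw [e] at h3
    have h4 : mk (m + k) ((ℓ : OO ℓ) ^ k * t (m + k) - ⟨_, hk⟩) = 0 := h3
    rw [mk_eq_zero] at h4
    have e2 : (((ℓ : OO ℓ) ^ k * t (m + k) - ⟨_, hk⟩ : OO ℓ) : PadicAlgCl ℓ) =
        (ℓ : PadicAlgCl ℓ) ^ k * ((t (m + k) : PadicAlgCl ℓ) - x) := by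
      rw [mul_sub]
      have e3 : (((ℓ : OO ℓ) ^ k * t (m + k) - ⟨_, hk⟩ : OO ℓ) : PadicAlgCl ℓ) =
          (((ℓ : OO ℓ) ^ k : OO ℓ) : PadicAlgCl ℓ) * (t (m + k) : PadicAlgCl ℓ) -
            (ℓ : PadicAlgCl ℓ) ^ k * x := rfl
      rw [e3, coe_pow_ell]
    rw [e2, norm_mul, norm_pow, pow_add, mul_comm] at h4
    exact le_of_mul_le_mul_right h4 (pow_pos norm_ell_pos k)
  have hx : x ∈ OO ℓ := by
    have h3 := h2 0
    rw [pow_zero] at h3
    have e : x = (t (0 + k) : PadicAlgCl ℓ) - ((t (0 + k) : PadicAlgCl ℓ) - x) := by ring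
    rw [e]
    exact sub_mem (t (0 + k)).2 ((mem_OO _).2 h3)
  refine ⟨hx, fun m => ?_⟩
  rw [← hy.lift ht m k]
  symm
  rw [mk_eq]
  exact h2 m

/-- completeness -/
theorem exists_mem_of_compat (F : IntermediateField ℚ_[ℓ] (PadicAlgCl ℓ)) [FiniteDimensional ℚ_[ℓ] F]
    {y : DD ℓ} (hy : Compat y) (h : ∀ m, ∃ x : OO ℓ, (x : PadicAlgCl ℓ) ∈ F ∧ mk m x = y m) :
    ∃ x : OO ℓ, (x : PadicAlgCl ℓ) ∈ F ∧ ∀ m, mk m x = y m := by
  choose t htF ht using h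
  have h1 : ∀ m k, ‖(t (m + k) : PadicAlgCl ℓ) - t m‖ ≤ ‖(ℓ : PadicAlgCl ℓ)‖ ^ m := by
    intro m k
    rw [← mk_eq, hy.lift ht m k, ht m]
  have hcau : CauchySeq fun m => (t m : PadicAlgCl ℓ) := by
    refine cauchySeq_of_le_geometric ‖(ℓ : PadicAlgCl ℓ)‖ 1 norm_ell_lt fun m => ?_
    rw [one_mul, dist_comm, dist_eq_norm]
    exact h1 m 1
  have hcomp : IsComplete ((Subalgebra.toSubmodule F.toSubalgebra : Submodule ℚ_[ℓ] (PadicAlgCl ℓ)) :
      Set (PadicAlgCl ℓ)) := by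
    haveI : FiniteDimensional ℚ_[ℓ] (Subalgebra.toSubmodule F.toSubalgebra : Submodule ℚ_[ℓ] (PadicAlgCl ℓ)) :=
      ‹FiniteDimensional ℚ_[ℓ] F›
    exact Submodule.complete_of_finiteDimensional _
  obtain ⟨x, hxF, hx⟩ := cauchySeq_tendsto_of_isComplete hcomp (fun m => htF m) hcau
  have h2 : ∀ m, ‖x - (t m : PadicAlgCl ℓ)‖ ≤ ‖(ℓ : PadicAlgCl ℓ)‖ ^ m := by
    intro m
    have h3 : Tendsto (fun k => ‖(t (m + k) : PadicAlgCl ℓ) - t m‖) atTop (𝓝 ‖x - t m‖) := by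
      have h4 : Tendsto (fun k => (t (m + k) : PadicAlgCl ℓ)) atTop (𝓝 x) := by
        have h5 := hx.comp (tendsto_add_atTop_nat m)
        refine h5.congr fun k => ?_
        rw [Function.comp, add_comm]
      exact (h4.sub_const _).norm
    exact le_of_tendsto' h3 fun k => h1 m k
  have hx0 : x ∈ OO ℓ := by
    have h3 := h2 0
    rw [pow_zero] at h3
    have e : x = (x - (t 0 : PadicAlgCl ℓ)) + (t 0 : PadicAlgCl ℓ) := by ring
    rw [e]
    exact add_mem ((mem_OO _).2 h3) (t 0).2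
  refine ⟨⟨x, hx0⟩, hxF, fun m => ?_⟩
  rw [← ht m, mk_eq]
  exact h2 m

end Pool.Agent.H499.CM
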