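import Pool.Agent.H499.CM.Chain
import Pool.Agent.H499.CM.Newt
import Pool.Agent.H499.CM.Limit
import Pool.Agent.H499.CM.Amalg
import Pool.Agent.H499.CM.Descend
import Pool.Graph.R_pool_sql_team_seeded_64922ed1.X320.DS.Pos
import Pool.Graph.R_pool_sql_team_seeded_ab47071d.TH119.FT.Tensor

/-! Limits of representations modulo powers of `ℓ`. -/

set_option autoImplicit false
set_option linter.all false

namespace Pool.Agent.H499.CM

open MeasureTheory Topology Filter Matrix
open Pool.Agent.X320.DS (Semisimple exists_dual Stable)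

section group

variable {G : Type*} [Group G] [TopologicalSpace G] [IsTopologicalGroup G] {H : Type*} [Group H]

theorem isOpen_of_ker {r : G →* H} (hr : IsOpen (r.ker : Set G)) (S : Set H) : IsOpen (r ⁻¹' S) := by
  rw [isOpen_iff_mem_nhds]
  intro x hx
  have h1 : (fun y => x⁻¹ * y) ⁻¹' (r.ker : Set G) ∈ 𝓝 x :=
    (hr.preimage (continuous_const_mul _)).mem_nhds (by
      show x⁻¹ * x ∈ r.ker
      rw [inv_mul_cancel]
      exact r.ker.one_mem)
  filter_upwards [h1] with y hy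
  have h2 : r (x⁻¹ * y) = 1 := hy
  rw [map_mul, map_inv, inv_mul_eq_one] at h2
  show r y ∈ S
  rw [← h2]
  exact hx

theorem isClosed_of_ker {r : G →* H} (hr : IsOpen (r.ker : Set G)) (S : Set H) : IsClosed (r ⁻¹' S) := by
  rw [← isOpen_compl_iff]
  exact isOpen_of_ker hr Sᶜ

theorem finite_range_of_ker [CompactSpace G] {r : G →* H} (hr : IsOpen (r.ker : Set G)) :
    (Set.range r).Finite := by
  haveI : Finite (G ⧸ r.ker) := Subgroup.quotient_finite_of_isOpen _ hr
  have e : Set.range r = Set.range (fun q : G ⧸ r.ker => QuotientGroup.kerLift r q) := by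
    ext h
    constructor
    · rintro ⟨g, rfl⟩
      exact ⟨QuotientGroup.mk g, rfl⟩
    · rintro ⟨q, rfl⟩
      obtain ⟨g, rfl⟩ := QuotientGroup.mk_surjective q
      exact ⟨g, rfl⟩
  rw [e]
  exact Set.finite_range _

end group

section core

variable {ℓ : ℕ} [Fact ℓ.Prime] {n : ℕ}

/-- reduction of the trace -/
theorem red_trace (m : ℕ) (A : Matrix (Fin n) (Fin n) (RR ℓ (m + 1))) :
    (A.map (red m)).trace = red m A.trace := by
  rw [Matrix.trace, Matrix.trace, map_sum]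
  rfl

/-- the matrices over the product of the rings -/
noncomputable def piM {G : Type*} [Group G] (r : ∀ m, G →* Matrix (Fin n) (Fin n) (RR ℓ m)) :
    G →* Matrix (Fin n) (Fin n) (DD ℓ) where
  toFun g := Matrix.of fun a b m => r m g a b
  map_one' := by
    ext a b m
    show r m 1 a b = (1 : Matrix (Fin n) (Fin n) (DD ℓ)) a b m
    rw [map_one]
    by_cases hab : a = b
    · subst hab
      rw [Matrix.one_apply_eq, Matrix.one_apply_eq]
      rfl
    · rw [Matrix.one_apply_ne hab, Matrix.one_apply_ne hab]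
      rfl
  map_mul' g h := by
    ext a b m
    show r m (g * h) a b = (∑ j, (fun m => r m g a j) * (fun m => r m h j b) : DD ℓ) m
    rw [Finset.sum_apply, map_mul, Matrix.mul_apply]
    rfl

theorem piM_trace {G : Type*} [Group G] (r : ∀ m, G →* Matrix (Fin n) (Fin n) (RR ℓ m)) (g : G) :
    (piM r g).trace = fun m => (r m g).trace := by
  funext m
  rw [Matrix.trace, Finset.sum_apply]
  rfl

/-- **The limit of the traces.** -/
theorem exists_limit_trace {G : Type*} [Group G] [MeasurableSpace G] [MeasurableMul G]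
    (μ : Measure G) [IsProbabilityMeasure μ] [μ.IsMulLeftInvariant]
    (r : ∀ m, G →* Matrix (Fin n) (Fin n) (RR ℓ m)) (hfin : ∀ m, (Set.range (r m)).Finite)
    (Z : ℕ → Set G) (hZ : ∀ m, ((2 * n ^ 2 : ℕ) : ENNReal) * μ (Z m)ᶜ < 1)
    (hZr : ∀ m, ∀ x ∈ Z m, (r m x).trace = red m (r (m + 1) x).trace)
    (F : IntermediateField ℚ_[ℓ] (PadicAlgCl ℓ)) [FiniteDimensional ℚ_[ℓ] F]
    (hF : ((2 * n ^ 2 : ℕ) : ENNReal) * μ {x | ∀ m, ∃ y : OO ℓ, (y : PadicAlgCl ℓ) ∈ F ∧
      mk m y = (r m x).trace}ᶜ < 1) :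
    (∀ x, Compat fun m => (r m x).trace) ∧
    ∃ (T : G → OO ℓ) (Ω : Type) (_ : Field Ω) (j : PadicAlgCl ℓ →+* Ω) (R : G →* Matrix (Fin n) (Fin n) Ω),
      (∀ x, (T x : PadicAlgCl ℓ) ∈ F) ∧ (∀ x m, mk m (T x) = (r m x).trace) ∧
      ∀ x, (R x).trace = j (T x) := by
  have hcomp : ∀ x, Compat fun m => (r m x).trace := by
    intro x m
    have h1 := trace_eq_chain (chain_RR m) μ (r m) (((red m).mapMatrix : Matrix (Fin n) (Fin n) (RR ℓ (m + 1)) →+*
      Matrix (Fin n) (Fin n) (RR ℓ m)).toMonoidHom.comp (r (m + 1))) (hfin m) (by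
        refine ((hfin (m + 1)).image ((red m).mapMatrix : Matrix (Fin n) (Fin n) (RR ℓ (m + 1)) →+*
          Matrix (Fin n) (Fin n) (RR ℓ m))).subset ?_
        rintro _ ⟨g, rfl⟩
        exact ⟨_, ⟨g, rfl⟩, rfl⟩) (Z m) (hZ m) (fun x hx => by
          rw [hZr m x hx, ← red_trace]
          rfl) x
    have h2 : (((red m).mapMatrix : Matrix (Fin n) (Fin n) (RR ℓ (m + 1)) →+*
      Matrix (Fin n) (Fin n) (RR ℓ m)).toMonoidHom.comp (r (m + 1)) x).trace = red m (r (m + 1) x).trace :=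
      red_trace m _
    rw [h2] at h1
    exact h1.symm
  refine ⟨hcomp, ?_⟩
  obtain ⟨Ω, iΩ, iΩ2, j, q, hj, hq⟩ := exists_limit (ℓ := ℓ)
  let R : G →* Matrix (Fin n) (Fin n) Ω := (q.mapMatrix : Matrix (Fin n) (Fin n) (DD ℓ) →+*
    Matrix (Fin n) (Fin n) Ω).toMonoidHom.comp (piM r)
  have hR : ∀ x, (R x).trace = q (fun m => (r m x).trace) := by
    intro x
    rw [← piM_trace, Matrix.trace, Matrix.trace, map_sum]
    rfl
  set S : Set G := {x | ∀ m, ∃ y : OO ℓ, (y : PadicAlgCl ℓ) ∈ F ∧ mk m y = (r m x).trace} with hS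
  have hSF : ∀ x ∈ S, ∃ z : F, (R x).trace = j z := by
    intro x hx
    obtain ⟨y, hyF, hy⟩ := exists_mem_of_compat F (hcomp x) hx
    refine ⟨⟨y, hyF⟩, ?_⟩
    rw [hR]
    show _ = j (y : PadicAlgCl ℓ)
    rw [← hj y]
    congr 1
    funext m
    exact (hy m).symm
  have hall : ∀ x, ∃ z : F, (R x).trace = j z := by
    intro x
    by_contra hcon
    have hx : (R x).trace ∉ (j.comp (algebraMap F (PadicAlgCl ℓ))).range := by
      rintro ⟨z, hz⟩
      exact hcon ⟨z, hz.symm⟩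
    obtain ⟨C, iC, a, b, hab, hne⟩ := exists_two (j.comp (algebraMap F (PadicAlgCl ℓ))) _ hx
    apply hne
    have hmap : ∀ (f : Ω →+* C) (x : G), (((f.mapMatrix : Matrix (Fin n) (Fin n) Ω →+*
        Matrix (Fin n) (Fin n) C).toMonoidHom.comp R) x).trace = f (R x).trace := by
      intro f x
      rw [Matrix.trace, Matrix.trace, map_sum]
      rfl
    have h1 := trace_eq_field μ ((a.mapMatrix : Matrix (Fin n) (Fin n) Ω →+*
        Matrix (Fin n) (Fin n) C).toMonoidHom.comp R) ((b.mapMatrix : Matrix (Fin n) (Fin n) Ω →+*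
        Matrix (Fin n) (Fin n) C).toMonoidHom.comp R) S hF (fun y hy => by
          obtain ⟨z, hz⟩ := hSF y hy
          rw [hmap, hmap, hz]
          exact hab z) x
    rwa [hmap, hmap] at h1
  choose z hz using hall
  have hT : ∀ x, ∃ h : ((z x : F) : PadicAlgCl ℓ) ∈ OO ℓ, ∀ m, mk m ⟨_, h⟩ = (r m x).trace := by
    intro x
    refine hq _ _ (hcomp x) ?_
    rw [← hR, hz]
  refine ⟨fun x => ⟨_, (hT x).1⟩, Ω, iΩ, j, R, fun x => (z x).2, fun x m => (hT x).2 m, fun x => hz x⟩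

/-- semisimplification of an abstract representation -/
theorem exists_ss_abstract {G : Type*} [Group G] {k : Type} [Field k] [Infinite k] (R : G →* Matrix (Fin n) (Fin n) k) :
    ∃ ρ : G →* GL (Fin n) k, Semisimple ρ ∧ ∀ g, (ρ g : Matrix (Fin n) (Fin n) k).trace = (R g).trace := by
  letI t1 : TopologicalSpace G := ⊥
  letI t2 : TopologicalSpace k := ⊥
  haveI : DiscreteTopology G := ⟨rfl⟩
  haveI : DiscreteTopology k := ⟨rfl⟩
  haveI : IsTopologicalRing k := inferInstance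
  obtain ⟨ρ, -, h2, h3, -⟩ := Pool.Agent.TH119.FT.exists_ss_mat (k := k) (G := G) (n := n) R.toHomUnits
    continuous_of_discreteTopology
  refine ⟨ρ, h2, fun g => ?_⟩
  rcases Nat.eq_zero_or_pos n with rfl | hn
  · simp [Matrix.trace]
  · haveI : Nonempty (Fin n) := ⟨⟨0, hn⟩⟩
    rw [Matrix.trace_eq_neg_charpoly_nextCoeff, Matrix.trace_eq_neg_charpoly_nextCoeff, h3]
    rfl

/-- **From the traces to a continuous representation.** -/
theorem exists_rep {G : Type*} [Group G] [TopologicalSpace G] [IsTopologicalGroup G]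
    (T : G → PadicAlgCl ℓ) (hT : Continuous T) (Ω : Type) [Field Ω] (j : PadicAlgCl ℓ →+* Ω)
    (R : G →* Matrix (Fin n) (Fin n) Ω) (hR : ∀ x, (R x).trace = j (T x)) :
    ∃ ρ : G →* GL (Fin n) (PadicAlgCl ℓ), Continuous ρ ∧ Semisimple ρ ∧
      ∀ x, (ρ x : Matrix (Fin n) (Fin n) (PadicAlgCl ℓ)).trace = T x := by
  haveI : CharZero Ω := charZero_of_injective_ringHom j.injective
  haveI : Infinite Ω := CharZero.infinite Ω
  haveI : Infinite (PadicAlgCl ℓ) := CharZero.infinite _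
  obtain ⟨ρ1, hss1, htr1⟩ := exists_ss_abstract R
  obtain ⟨N, g, B, ρ2, hρ2, htr2⟩ := descend j ρ1 hss1 T fun x => by rw [htr1, hR]
  have hc2 : Continuous fun x => ρ2 x := by
    simp only [hρ2]
    refine continuous_finsetSum _ fun i _ => ?_
    exact (hT.comp (continuous_const_mul (g i))).smul continuous_const
  obtain ⟨ρ, h1, h2, h3, -⟩ := Pool.Agent.TH119.FT.exists_ss_mat (k := PadicAlgCl ℓ) (G := G) (n := n)
    ρ2.toHomUnits hc2
  refine ⟨ρ, ?_, h2, fun x => ?_⟩
  · rw [Units.continuous_iff]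
    refine ⟨h1, ?_⟩
    have e : ((fun u : GL (Fin n) (PadicAlgCl ℓ) => ((u⁻¹ : GL (Fin n) (PadicAlgCl ℓ)) :
      Matrix (Fin n) (Fin n) (PadicAlgCl ℓ))) ∘ ρ) = fun x => (ρ x⁻¹ : Matrix (Fin n) (Fin n) (PadicAlgCl ℓ)) := by
      funext x
      show (((ρ x)⁻¹ : GL (Fin n) (PadicAlgCl ℓ)) : Matrix (Fin n) (Fin n) (PadicAlgCl ℓ)) = _
      rw [map_inv]
    show Continuous ((fun u : GL (Fin n) (PadicAlgCl ℓ) => ((u⁻¹ : GL (Fin n) (PadicAlgCl ℓ)) :
      Matrix (Fin n) (Fin n) (PadicAlgCl ℓ))) ∘ ρ)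
    rw [e]
    exact h1.comp continuous_inv
  · rcases Nat.eq_zero_or_pos n with rfl | hn
    · have h4 := htr2 x
      rw [← h4]
      simp [Matrix.trace]
    · haveI : Nonempty (Fin n) := ⟨⟨0, hn⟩⟩
      rw [← htr2 x, Matrix.trace_eq_neg_charpoly_nextCoeff, Matrix.trace_eq_neg_charpoly_nextCoeff, h3]
      rfl

/-- an element which does not change the traces acts trivially -/
theorem eq_one_of_trace {G : Type*} [Group G] {k : Type*} [Field k] [CharZero k] {ρ : G →* GL (Fin n) k}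
    (hρ : Semisimple ρ) (σ : G) (h : ∀ x, (ρ (σ * x) : Matrix (Fin n) (Fin n) k).trace =
      (ρ x : Matrix (Fin n) (Fin n) k).trace) : ρ σ = 1 := by
  obtain ⟨N, g, B, -, hB⟩ := exists_dual hρ (by exact_mod_cast n.factorial_ne_zero)
  have hcyc : ∀ x y : G, (ρ (x * y) : Matrix (Fin n) (Fin n) k).trace =
      (ρ (y * x) : Matrix (Fin n) (Fin n) k).trace := by
    intro x y
    rw [map_mul, map_mul, Units.val_mul, Units.val_mul, Matrix.trace_mul_comm]
  have h1 : (ρ σ : Matrix (Fin n) (Fin n) k) = ρ 1 := by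
    rw [hB σ, hB 1]
    refine Finset.sum_congr rfl fun i _ => ?_
    rw [hcyc, h, mul_one]
  rw [map_one] at h1
  exact Units.ext h1

end core

end Pool.Agent.H499.CM
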