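import Mathlib
import Pool.Graph.R_seed8.W401.Cheb.AbsDefs

/-!
# Galois representations modulo powers of `ℓ` and Satake parameters: definitions

`GK K` is the absolute Galois group of the number field `K`, with the Krull topology. `IsFrob v σ`
says that `σ` is an (arithmetic) Frobenius element at the finite place `v`, that is, there is a
maximal ideal `Q` above `v` of the ring of all algebraic integers with `σ x ≡ x ^ N(v)` modulo `Q`
for all `x`; `IsInert v σ` says that `σ` is in one of the inertia groups at `v`. The algebraic closure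
of `ℚ_ℓ` with its norm is `PadicAlgCl ℓ`.
-/

set_option autoImplicit false

namespace Pool.Agent.H499.CM

open Filter Matrix NumberField IsDedekindDomain Polynomial
open Pool.Agent.W401.Cheb (GK IsFrob IsInert)
open scoped NNReal

section rings

variable (ℓ : ℕ) [Fact ℓ.Prime]

/-- the ring of integers of the algebraic closure of `ℚ_ℓ` (the elements of norm at most one) -/
noncomputable abbrev OO : ValuationSubring (PadicAlgCl ℓ) := (Valued.v : Valuation (PadicAlgCl ℓ) ℝ≥0).valuationSubring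

/-- the integers modulo `ℓ ^ m` -/
abbrev RR (m : ℕ) : Type := (OO ℓ) ⧸ (Ideal.span {(ℓ : OO ℓ) ^ m})

variable {ℓ}

/-- reduction modulo `ℓ ^ m` -/
noncomputable abbrev mk (m : ℕ) : OO ℓ →+* RR ℓ m := Ideal.Quotient.mk _

end rings

section places

variable {K : Type} [Field K] [NumberField K]

/-- The set of the finite places `v` of `K` with `Bad v` has upper density at most `c`: for all `ε > 0`
and all large `N` the number of these `v` with norm at most `N` is at most `(c + ε) π(N)`. (By the prime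
ideal theorem the number of all finite places with norm at most `N` is asymptotically equal to the
number `π(N)` of prime numbers up to `N`.) -/
def UpperDensityLE (Bad : HeightOneSpectrum (𝓞 K) → Prop) (c : ℝ) : Prop :=
  ∀ ε : ℝ, 0 < ε → ∀ᶠ N : ℕ in atTop,
    ({v : HeightOneSpectrum (𝓞 K) | Ideal.absNorm v.asIdeal ≤ N ∧ Bad v}.ncard : ℝ) ≤
      (c + ε) * (Nat.primeCounting N : ℝ)

end places

section satake

variable {ℓ : ℕ} [Fact ℓ.Prime] {n : ℕ} {R : Type} [CommRing R]

/-- The matrix `A` belongs to the Satake parameters `a`: its characteristic polynomial is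
`∏ i, (X - a i)`, and if `strict = true` it is moreover in the conjugacy class of the diagonal matrix
of the `a i` (so it is semisimple). -/
def InClass (strict : Bool) (A : Matrix (Fin n) (Fin n) (PadicAlgCl ℓ)) (a : Fin n → PadicAlgCl ℓ) : Prop :=
  A.charpoly = ∏ i, (X - C (a i)) ∧ (strict = true → ∃ h : GL (Fin n) (PadicAlgCl ℓ),
    A = (h : Matrix (Fin n) (Fin n) (PadicAlgCl ℓ)) * Matrix.diagonal a *
      ((h⁻¹ : GL (Fin n) (PadicAlgCl ℓ)) : Matrix (Fin n) (Fin n) (PadicAlgCl ℓ)))

open Classical in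
/-- The same for a matrix `A` over a ring `R`, where `q` is a homomorphism from the integers of the
algebraic closure of `ℚ_ℓ` to `R` (below: reduction modulo `ℓ ^ m`). The `a i` are integral, the
characteristic polynomial of `A` is the image of `∏ i, (X - a i)`, and if `strict = true`, then `A` is
moreover a zero of the image of the product of the `X - x`, `x` in the SET of the `a i` (each
different value is taken once). -/
def InClassMod (strict : Bool) (q : OO ℓ →+* R) (A : Matrix (Fin n) (Fin n) R) (a : Fin n → PadicAlgCl ℓ) :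
    Prop :=
  ∃ b : Fin n → OO ℓ, (∀ i, (b i : PadicAlgCl ℓ) = a i) ∧
    A.charpoly = ∏ i, (X - C (q (b i))) ∧
    (strict = true → Polynomial.aeval A (∏ x ∈ Finset.univ.image b, (X - C (q x))) = 0)

end satake

section reps

variable {K : Type} [Field K] [NumberField K] {ℓ : ℕ} [Fact ℓ.Prime] {n : ℕ} {R : Type} [CommRing R]

/-- `ρ` is unramified at `v` and maps the geometric Frobenius elements at `v` to the class `a`. -/
def Corresponds (strict : Bool) (ρ : GK K →* GL (Fin n) (PadicAlgCl ℓ)) (v : HeightOneSpectrum (𝓞 K))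
    (a : Fin n → PadicAlgCl ℓ) : Prop :=
  (∀ σ, IsInert v σ → ρ σ = 1) ∧
    ∀ σ, IsFrob v σ → InClass strict (ρ σ⁻¹ : Matrix (Fin n) (Fin n) (PadicAlgCl ℓ)) a

/-- `r` is unramified at `v` and maps the geometric Frobenius elements at `v` to the image of the class
`a`. -/
def CorrespondsMod (strict : Bool) (q : OO ℓ →+* R) (r : GK K →* GL (Fin n) R) (v : HeightOneSpectrum (𝓞 K))
    (a : Fin n → PadicAlgCl ℓ) : Prop :=
  (∀ σ, IsInert v σ → r σ = 1) ∧
    ∀ σ, IsFrob v σ → InClassMod strict q (r σ⁻¹ : Matrix (Fin n) (Fin n) R) a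

/-- The trace of `r` at the geometric Frobenius elements at `v` is the image of the sum of the `a i`. -/
def TraceMod (q : OO ℓ →+* R) (r : GK K →* GL (Fin n) R) (v : HeightOneSpectrum (𝓞 K))
    (a : Fin n → PadicAlgCl ℓ) : Prop :=
  ∃ t : OO ℓ, (t : PadicAlgCl ℓ) = ∑ i, a i ∧
    ∀ σ, IsFrob v σ → (r σ⁻¹ : Matrix (Fin n) (Fin n) R).trace = q t

/-- `ρ` is unramified at `v`, and the coefficients of the characteristic polynomial of the geometric
Frobenius elements at `v` are congruent to those of `∏ i, (X - a i)` modulo `ℓ ^ m`. -/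
def CorrespondsNear (m : ℕ) (ρ : GK K →* GL (Fin n) (PadicAlgCl ℓ)) (v : HeightOneSpectrum (𝓞 K))
    (a : Fin n → PadicAlgCl ℓ) : Prop :=
  (∀ σ, IsInert v σ → ρ σ = 1) ∧
    ∀ σ, IsFrob v σ → ∀ k, ‖(ρ σ⁻¹ : Matrix (Fin n) (Fin n) (PadicAlgCl ℓ)).charpoly.coeff k -
      (∏ i, (X - C (a i))).coeff k‖ ≤ ‖(ℓ : PadicAlgCl ℓ)‖ ^ m

/-- The trace of `ρ` at the geometric Frobenius elements at `v` is congruent to the sum of the `a i`
modulo `ℓ ^ m`. -/
def TraceNear (m : ℕ) (ρ : GK K →* GL (Fin n) (PadicAlgCl ℓ)) (v : HeightOneSpectrum (𝓞 K))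
    (a : Fin n → PadicAlgCl ℓ) : Prop :=
  ∀ σ, IsFrob v σ → ‖(ρ σ⁻¹ : Matrix (Fin n) (Fin n) (PadicAlgCl ℓ)).trace - ∑ i, a i‖ ≤
    ‖(ℓ : PadicAlgCl ℓ)‖ ^ m

/-- `ρ` is semisimple: every invariant subspace has an invariant complement. -/
def IsSemisimpleRep {G k : Type*} [Group G] [Field k] (ρ : G →* GL (Fin n) k) : Prop :=
  ∀ W : Submodule k (Fin n → k),
    (∀ g, ∀ w ∈ W, (ρ g : Matrix (Fin n) (Fin n) k).mulVec w ∈ W) →
    ∃ W' : Submodule k (Fin n → k),
      (∀ g, ∀ w ∈ W', (ρ g : Matrix (Fin n) (Fin n) k).mulVec w ∈ W') ∧ IsCompl W W'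

variable (S : Set (HeightOneSpectrum (𝓞 K))) (α : HeightOneSpectrum (𝓞 K) → Fin n → PadicAlgCl ℓ)

/-- `ρ` is a Galois representation for the Satake parameters `α v`, `v ∉ S`. -/
def Attached (strict : Bool) (ρ : GK K →* GL (Fin n) (PadicAlgCl ℓ)) : Prop :=
  Continuous ρ ∧ IsSemisimpleRep ρ ∧ ∀ v ∉ S, Corresponds strict ρ v (α v)

/-- The sums of the Satake parameters are in a finite extension of `ℚ_ℓ`. -/
def FiniteTraces : Prop :=
  ∃ F : IntermediateField ℚ_[ℓ] (PadicAlgCl ℓ), FiniteDimensional ℚ_[ℓ] F ∧ ∀ v ∉ S, ∑ i, α v i ∈ F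

/-- For every `m`, `r m` is a representation over `R m` with open kernel (no other condition: it can
be ramified anywhere, need not be semisimple and need not have a lift). The places `v ∉ S` where the trace
of `r m` is not correct have upper density at most `c`, and every `v ∉ S` corresponds to infinitely many
`r m`. (Here `R m` are rings with homomorphisms `q m` from the integers of the algebraic closure of
`ℚ_ℓ`, below the integers modulo `ℓ ^ m`.) -/
def TorsionSystemOver {R : ℕ → Type} [∀ m, CommRing (R m)] (q : ∀ m, OO ℓ →+* R m) (strict : Bool) (c : ℝ)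
    (r : ∀ m, GK K →* GL (Fin n) (R m)) : Prop :=
  (∀ m, IsOpen ((r m).ker : Set (GK K))) ∧
    (∀ m, UpperDensityLE (fun v => v ∉ S ∧ ¬ TraceMod (q m) (r m) v (α v)) c) ∧
    ∀ v ∉ S, {m | CorrespondsMod strict (q m) (r m) v (α v)}.Infinite

/-- For every `m`, `ρ m` is a continuous `ℓ`-adic representation. The places `v ∉ S` where the trace of
`ρ m` is not correct modulo `ℓ ^ m` have upper density at most `c`, and every `v ∉ S` corresponds to
infinitely many `ρ m` modulo `ℓ ^ m`. -/
def AdicSystem (c : ℝ) (ρ : ℕ → GK K →* GL (Fin n) (PadicAlgCl ℓ)) : Prop :=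
  (∀ m, Continuous (ρ m)) ∧
    (∀ m, UpperDensityLE (fun v => v ∉ S ∧ ¬ TraceNear m (ρ m) v (α v)) c) ∧
    ∀ v ∉ S, {m | CorrespondsNear m (ρ m) v (α v)}.Infinite

/-- The traces of `ρ` are integral and their images are the traces of the `r m`, on the whole Galois
group. -/
def TrCongOver {R : ℕ → Type} [∀ m, CommRing (R m)] (q : ∀ m, OO ℓ →+* R m)
    (ρ : GK K →* GL (Fin n) (PadicAlgCl ℓ)) (r : ∀ m, GK K →* GL (Fin n) (R m)) : Prop :=
  ∀ σ m, ∃ t : OO ℓ, (ρ σ : Matrix (Fin n) (Fin n) (PadicAlgCl ℓ)).trace = t ∧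
    q m t = (r m σ : Matrix (Fin n) (Fin n) (R m)).trace

/-- The traces of `ρ` are congruent to those of `ρ' m` modulo `ℓ ^ m`, on the whole Galois group. -/
def TrNear (ρ : GK K →* GL (Fin n) (PadicAlgCl ℓ)) (ρ' : ℕ → GK K →* GL (Fin n) (PadicAlgCl ℓ)) : Prop :=
  ∀ σ m, ‖(ρ σ : Matrix (Fin n) (Fin n) (PadicAlgCl ℓ)).trace -
    (ρ' m σ : Matrix (Fin n) (Fin n) (PadicAlgCl ℓ)).trace‖ ≤ ‖(ℓ : PadicAlgCl ℓ)‖ ^ m

/-- the case of the integers modulo `ℓ ^ m` -/
abbrev TorsionSystem (strict : Bool) (c : ℝ) (r : ∀ m, GK K →* GL (Fin n) (RR ℓ m)) : Prop :=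
  TorsionSystemOver S α (fun m => mk m) strict c r

/-- the case of the integers modulo `ℓ ^ m` -/
abbrev TrCong (ρ : GK K →* GL (Fin n) (PadicAlgCl ℓ)) (r : ∀ m, GK K →* GL (Fin n) (RR ℓ m)) : Prop :=
  TrCongOver (fun m => mk m) ρ r

end reps

end Pool.Agent.H499.CM
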