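import Pool.Agent.H499.CM.Core

/-! A continuous representation of a compact group over the algebraic closure of `ℚ_ℓ` has an integral model,
which can be reduced modulo the powers of `ℓ`. -/

set_option autoImplicit false
set_option linter.all false

namespace Pool.Agent.H499.CM

open Topology Filter Matrix

section uniserial

variable {R M : Type*} [CommRing R] [AddCommGroup M] [Module R M]

theorem exists_gen_all (hM : ∀ a b : M, (∃ c : R, b = c • a) ∨ ∃ c : R, a = c • b) {ι : Type*} (s : Finset ι)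
    (hs : s.Nonempty) (f : ι → M) : ∃ i ∈ s, ∀ j ∈ s, ∃ c : R, f j = c • f i := by
  classical
  induction hs using Finset.Nonempty.cons_induction with
  | singleton a => exact ⟨a, by simp, fun j hj => ⟨1, by rw [Finset.mem_singleton.1 hj, one_smul]⟩⟩
  | cons a s ha hs ih =>
    obtain ⟨i, hi, hij⟩ := ih
    rcases hM (f a) (f i) with ⟨c, hc⟩ | ⟨c, hc⟩
    · refine ⟨a, Finset.mem_cons_self a s, fun j hj => ?_⟩
      rcases Finset.mem_cons.1 hj with rfl | hj
      · exact ⟨1, by rw [one_smul]⟩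
      · obtain ⟨d, hd⟩ := hij j hj
        exact ⟨d * c, by rw [hd, hc, smul_smul]⟩
    · refine ⟨i, Finset.mem_cons.2 (Or.inr hi), fun j hj => ?_⟩
      rcases Finset.mem_cons.1 hj with rfl | hj
      · exact ⟨c, hc⟩
      · exact hij j hj

/-- adding a zero coordinate -/
def consZeroM (R : Type*) {M : Type*} [CommRing R] [AddCommGroup M] [Module R M] (N : ℕ) :
    (Fin N → M) →ₗ[R] (Fin (N + 1) → M) where
  toFun w := Fin.cons 0 w
  map_add' a b := by
    funext i
    refine Fin.cases ?_ (fun k => ?_) i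
    · simp
    · simp
  map_smul' c a := by
    funext i
    refine Fin.cases ?_ (fun k => ?_) i
    · simp
    · simp

theorem uniserial_span (hM : ∀ a b : M, (∃ c : R, b = c • a) ∨ ∃ c : R, a = c • b) {ι : Type*} (s : Finset ι)
    (N : ℕ) : ∀ y : ι → (Fin N → M), ∃ J ⊆ s, J.card ≤ N ∧
      ∀ i ∈ s, y i ∈ Submodule.span R (y '' (J : Set ι)) := by
  classical
  induction N with
  | zero =>
    intro y
    refine ⟨∅, by simp, by simp, fun i _ => ?_⟩
    have : y i = 0 := Subsingleton.elim _ _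
    rw [this]
    exact Submodule.zero_mem _
  | succ N ih =>
    intro y
    rcases s.eq_empty_or_nonempty with rfl | hs
    · exact ⟨∅, by simp, by simp, by simp⟩
    obtain ⟨j0, hj0, hdiv⟩ := exists_gen_all hM s hs fun i => y i 0
    have hc : ∀ i, ∃ a : R, i ∈ s → y i 0 = a • y j0 0 := by
      intro i
      by_cases hi : i ∈ s
      · obtain ⟨a, ha⟩ := hdiv i hi
        exact ⟨a, fun _ => ha⟩
      · exact ⟨0, fun h => absurd h hi⟩
    choose a ha using hc
    obtain ⟨J, hJs, hJc, hJ⟩ := ih fun i k => y i k.succ - a i • y j0 k.succ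
    refine ⟨insert j0 J, Finset.insert_subset hj0 hJs, (Finset.card_insert_le _ _).trans (by omega),
      fun i hi => ?_⟩
    have key : ∀ i ∈ s, y i = consZeroM R N (fun k => y i k.succ - a i • y j0 k.succ) + a i • y j0 := by
      intro i hi
      funext k
      refine Fin.cases ?_ (fun k => ?_) k
      · show y i 0 = (0 : M) + a i • y j0 0
        rw [ha i hi, zero_add]
      · show y i k.succ = (y i k.succ - a i • y j0 k.succ) + a i • y j0 k.succ
        rw [sub_add_cancel]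
    rw [key i hi]
    refine Submodule.add_mem _ ?_ (Submodule.smul_mem _ _ (Submodule.subset_span
      ⟨j0, Finset.mem_coe.2 (Finset.mem_insert_self _ _), rfl⟩))
    have h1 := Submodule.mem_map_of_mem (f := consZeroM R (M := M) N) (hJ i hi)
    rw [Submodule.map_span] at h1
    refine (Submodule.span_le.2 ?_) h1
    rintro _ ⟨_, ⟨j, hj, rfl⟩, rfl⟩
    have h2 : consZeroM R N (fun k => y j k.succ - a j • y j0 k.succ) = y j - a j • y j0 := by
      rw [eq_sub_iff_add_eq]
      exact (key j (hJs hj)).symm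
    rw [h2]
    refine Submodule.sub_mem _ (Submodule.subset_span ⟨j, Finset.mem_coe.2 (Finset.mem_insert_of_mem hj), rfl⟩)
      (Submodule.smul_mem _ _ (Submodule.subset_span ⟨j0, Finset.mem_coe.2 (Finset.mem_insert_self _ _), rfl⟩))

end uniserial

section lattice

variable {ℓ : ℕ} [Fact ℓ.Prime] {n : ℕ}

theorem uniserial_k (a b : PadicAlgCl ℓ) : (∃ c : OO ℓ, b = c • a) ∨ ∃ c : OO ℓ, a = c • b := by
  have key : ∀ a b : PadicAlgCl ℓ, ‖b‖ ≤ ‖a‖ → ∃ c : OO ℓ, b = c • a := by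
    intro a b h
    by_cases ha : a = 0
    · rw [ha, norm_zero] at h
      have hb : b = 0 := norm_eq_zero.1 (le_antisymm h (norm_nonneg _))
      exact ⟨0, by rw [hb, zero_smul]⟩
    · refine ⟨⟨b / a, ?_⟩, ?_⟩
      · rw [mem_OO, norm_div]
        exact div_le_one_of_le₀ h (norm_nonneg _)
      · show b = b / a * a
        rw [div_mul_cancel₀ _ ha]
  rcases le_total ‖b‖ ‖a‖ with h | h
  · exact Or.inl (key a b h)
  · exact Or.inr (key b a h)

/-- matrices with integral entries -/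
def IntM (A : Matrix (Fin n) (Fin n) (PadicAlgCl ℓ)) : Prop := ∀ i j, A i j ∈ OO ℓ

theorem IntM.mul {A B : Matrix (Fin n) (Fin n) (PadicAlgCl ℓ)} (hA : IntM A) (hB : IntM B) : IntM (A * B) := by
  intro i j
  rw [Matrix.mul_apply]
  exact sum_mem fun k _ => mul_mem (hA i k) (hB k j)

theorem intM_one : IntM (1 : Matrix (Fin n) (Fin n) (PadicAlgCl ℓ)) := by
  intro i j
  rw [Matrix.one_apply]
  split_ifs
  · exact one_mem _
  · exact zero_mem _

theorem isOpen_OO : IsOpen ((OO ℓ : Set (PadicAlgCl ℓ))) := by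
  have e : (OO ℓ : Set (PadicAlgCl ℓ)) = Metric.closedBall 0 1 := by
    ext x
    rw [mem_closedBall_zero_iff]
    exact mem_OO x
  rw [e]
  exact IsUltrametricDist.isOpen_closedBall _ one_ne_zero

/-- **Integral model.** -/
theorem exists_integral {G : Type*} [Group G] [TopologicalSpace G] [IsTopologicalGroup G] [CompactSpace G]
    (ρ : G →* GL (Fin n) (PadicAlgCl ℓ))
    (hρ : Continuous fun g => (ρ g : Matrix (Fin n) (Fin n) (PadicAlgCl ℓ))) :
    ∃ P : GL (Fin n) (PadicAlgCl ℓ), ∀ g, IntM ((P⁻¹ * ρ g * P : GL (Fin n) (PadicAlgCl ℓ)) :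
      Matrix (Fin n) (Fin n) (PadicAlgCl ℓ)) := by
  classical
  -- the open subgroup of the elements with integral matrices
  let G0 : Subgroup G :=
    { carrier := {g | IntM (ρ g : Matrix (Fin n) (Fin n) (PadicAlgCl ℓ)) ∧
        IntM (ρ g⁻¹ : Matrix (Fin n) (Fin n) (PadicAlgCl ℓ))}
      mul_mem' := by
        rintro a b ⟨h1, h2⟩ ⟨h3, h4⟩
        refine ⟨?_, ?_⟩
        · rw [map_mul, Units.val_mul]
          exact h1.mul h3
        · rw [_root_.mul_inv_rev, map_mul, Units.val_mul]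
          exact h4.mul h2
      one_mem' := by
        refine ⟨?_, ?_⟩
        · rw [map_one, Units.val_one]
          exact intM_one
        · rw [inv_one, map_one, Units.val_one]
          exact intM_one
      inv_mem' := by
        rintro a ⟨h1, h2⟩
        exact ⟨h2, by rwa [inv_inv]⟩ }
  have hG0 : IsOpen (G0 : Set G) := by
    have hopen : IsOpen {A : Matrix (Fin n) (Fin n) (PadicAlgCl ℓ) | IntM A} := by
      have e : {A : Matrix (Fin n) (Fin n) (PadicAlgCl ℓ) | IntM A} =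
          ⋂ i, ⋂ j, (fun A : Matrix (Fin n) (Fin n) (PadicAlgCl ℓ) => A i j) ⁻¹' (OO ℓ : Set (PadicAlgCl ℓ)) := by
        ext A
        simp [IntM]
      rw [e]
      refine isOpen_iInter_of_finite fun i => isOpen_iInter_of_finite fun j => isOpen_OO.preimage ?_
      fun_prop
    exact (hopen.preimage hρ).inter (hopen.preimage (hρ.comp continuous_inv))
  haveI : Finite (G ⧸ G0) := Subgroup.quotient_finite_of_isOpen _ hG0
  haveI : Fintype (G ⧸ G0) := Fintype.ofFinite _
  -- the generators of the lattice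
  let y : (G ⧸ G0) × Fin n → (Fin n → PadicAlgCl ℓ) := fun x => fun i =>
    (ρ (Quotient.out x.1) : Matrix (Fin n) (Fin n) (PadicAlgCl ℓ)) i x.2
  obtain ⟨J, -, hJc, hJ⟩ := uniserial_span (R := OO ℓ) (M := PadicAlgCl ℓ) uniserial_k
    (Finset.univ : Finset ((G ⧸ G0) × Fin n)) n y
  set Λ : Submodule (OO ℓ) (Fin n → PadicAlgCl ℓ) := Submodule.span (OO ℓ) (y '' (J : Set _)) with hΛ
  have hyΛ : ∀ x, y x ∈ Λ := fun x => hJ x (Finset.mem_univ _)
  -- columns of the matrices are in the lattice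
  have hcol : ∀ g j, (fun i => (ρ g : Matrix (Fin n) (Fin n) (PadicAlgCl ℓ)) i j) ∈ Λ := by
    intro g j
    set q : G ⧸ G0 := QuotientGroup.mk g with hq
    have hh : (Quotient.out q)⁻¹ * g ∈ G0 := by
      rw [← QuotientGroup.eq]
      rw [QuotientGroup.out_eq']
    set h := (Quotient.out q)⁻¹ * g with hhd
    have e : g = Quotient.out q * h := by rw [hhd]; group
    have e2 : (fun i => (ρ g : Matrix (Fin n) (Fin n) (PadicAlgCl ℓ)) i j) =
        ∑ k, (⟨(ρ h : Matrix (Fin n) (Fin n) (PadicAlgCl ℓ)) k j, hh.1 k j⟩ : OO ℓ) • y (q, k) := by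
      funext i
      rw [Finset.sum_apply]
      conv_lhs => rw [e, map_mul, Units.val_mul, Matrix.mul_apply]
      refine Finset.sum_congr rfl fun k _ => ?_
      show _ = (ρ h : Matrix (Fin n) (Fin n) (PadicAlgCl ℓ)) k j * _
      rw [mul_comm]
    rw [e2]
    exact Submodule.sum_mem _ fun k _ => Submodule.smul_mem _ _ (hyΛ (q, k))
  -- the lattice is stable
  have hact : ∀ g, ∀ w ∈ Λ, (ρ g : Matrix (Fin n) (Fin n) (PadicAlgCl ℓ)) *ᵥ w ∈ Λ := by
    intro g w hw
    refine Submodule.span_induction (p := fun w _ => (ρ g : Matrix (Fin n) (Fin n) (PadicAlgCl ℓ)) *ᵥ w ∈ Λ)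
      ?_ ?_ ?_ ?_ hw
    · rintro _ ⟨x, -, rfl⟩
      have e : (ρ g : Matrix (Fin n) (Fin n) (PadicAlgCl ℓ)) *ᵥ (y x) =
          fun i => (ρ (g * Quotient.out x.1) : Matrix (Fin n) (Fin n) (PadicAlgCl ℓ)) i x.2 := by
        funext i
        rw [map_mul, Units.val_mul, Matrix.mul_apply]
        rfl
      rw [e]
      exact hcol _ _
    · rw [Matrix.mulVec_zero]
      exact Λ.zero_mem
    · intro a b _ _ ha hb
      rw [Matrix.mulVec_add]
      exact Λ.add_mem ha hb
    · intro c a _ ha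
      rw [Matrix.mulVec_smul]
      exact Λ.smul_mem c ha
  -- number the generators
  obtain ⟨z, hz⟩ : ∃ z : Fin n → (Fin n → PadicAlgCl ℓ), y '' (J : Set _) ⊆ Set.range z ∧ ∀ i, z i ∈ Λ := by
    let e2 := J.equivFin
    refine ⟨fun i => if h : (i : ℕ) < J.card then y (e2.symm ⟨i, h⟩ : (G ⧸ G0) × Fin n) else 0, ?_, ?_⟩
    · rintro _ ⟨j, hj, rfl⟩
      have h1 : (e2 ⟨j, hj⟩ : ℕ) < J.card := (e2 ⟨j, hj⟩).2
      refine ⟨⟨(e2 ⟨j, hj⟩ : ℕ), lt_of_lt_of_le h1 hJc⟩, ?_⟩
      simp only [h1, dif_pos]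
      have h2 : (⟨(e2 ⟨j, hj⟩ : ℕ), h1⟩ : Fin J.card) = e2 ⟨j, hj⟩ := rfl
      rw [h2, Equiv.symm_apply_apply]
    · intro i
      by_cases h : (i : ℕ) < J.card
      · simp only [h, dif_pos]
        exact hyΛ _
      · simp only [h, dif_neg, not_false_iff]
        exact Λ.zero_mem
  have hΛz : ∀ w ∈ Λ, ∃ a : Fin n → OO ℓ, w = ∑ i, a i • z i := by
    intro w hw
    have h1 : w ∈ Submodule.span (OO ℓ) (Set.range z) := Submodule.span_mono hz.1 hw
    obtain ⟨a, ha⟩ := (Submodule.mem_span_range_iff_exists_fun _).1 h1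
    exact ⟨a, ha.symm⟩
  let Z : Matrix (Fin n) (Fin n) (PadicAlgCl ℓ) := Matrix.of fun i j => z j i
  -- `Z` is invertible
  have hZ : ∃ B : Matrix (Fin n) (Fin n) (PadicAlgCl ℓ), Z * B = 1 := by
    have h1 : ∀ j, ∃ a : Fin n → OO ℓ, (fun i => (1 : Matrix (Fin n) (Fin n) (PadicAlgCl ℓ)) i j) =
        ∑ i, a i • z i := by
      intro j
      refine hΛz _ ?_
      have := hcol 1 j
      rwa [map_one, Units.val_one] at this
    choose a ha using h1
    refine ⟨Matrix.of fun i j => ((a j i : OO ℓ) : PadicAlgCl ℓ), ?_⟩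
    ext i j
    have h2 := congrFun (ha j) i
    rw [Matrix.mul_apply, h2, Finset.sum_apply]
    refine Finset.sum_congr rfl fun k _ => ?_
    show z k i * _ = ((a j k : OO ℓ) : PadicAlgCl ℓ) * z k i
    rw [mul_comm]
    rfl
  obtain ⟨B, hB⟩ := hZ
  have hB' : B * Z = 1 := mul_eq_one_comm.1 hB
  refine ⟨⟨Z, B, hB, hB'⟩, fun g => ?_⟩
  have h1 : ∀ j, ∃ a : Fin n → OO ℓ, (ρ g : Matrix (Fin n) (Fin n) (PadicAlgCl ℓ)) *ᵥ (z j) =
      ∑ i, a i • z i := fun j => hΛz _ (hact g _ (hz.2 j))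
  choose a ha using h1
  have h2 : (ρ g : Matrix (Fin n) (Fin n) (PadicAlgCl ℓ)) * Z =
      Z * Matrix.of fun i j => ((a j i : OO ℓ) : PadicAlgCl ℓ) := by
    ext i j
    have h3 := congrFun (ha j) i
    rw [Finset.sum_apply] at h3
    have h4 : ((ρ g : Matrix (Fin n) (Fin n) (PadicAlgCl ℓ)) * Z) i j =
        ((ρ g : Matrix (Fin n) (Fin n) (PadicAlgCl ℓ)) *ᵥ (z j)) i := rfl
    rw [h4, h3, Matrix.mul_apply]
    refine Finset.sum_congr rfl fun k _ => ?_
    show ((a j k : OO ℓ) : PadicAlgCl ℓ) * z k i = z k i * _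
    rw [mul_comm]
    rfl
  intro i j
  have h5 : (((⟨Z, B, hB, hB'⟩ : GL (Fin n) (PadicAlgCl ℓ))⁻¹ * ρ g * ⟨Z, B, hB, hB'⟩ :
      GL (Fin n) (PadicAlgCl ℓ)) : Matrix (Fin n) (Fin n) (PadicAlgCl ℓ)) =
      Matrix.of fun i j => ((a j i : OO ℓ) : PadicAlgCl ℓ) := by
    show B * (ρ g : Matrix (Fin n) (Fin n) (PadicAlgCl ℓ)) * Z = _
    rw [mul_assoc, h2, ← mul_assoc, hB', one_mul]
  rw [h5]
  exact (a j i).2

end lattice

end Pool.Agent.H499.CM
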