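import Pool.Graph.R_seed8.Y800.Diag

/-! Matrices which are zeros of polynomials without multiple zeros. -/

set_option autoImplicit false
set_option linter.all false

namespace Pool.Agent.H499.CM

open Matrix Polynomial

section linear

variable {k : Type} [Field k] {n : ℕ}

/-- a matrix which is a zero of a polynomial without multiple zeros has an eigenbasis -/
theorem diag_of_squarefree [IsAlgClosed k] (A : Matrix (Fin n) (Fin n) k) (Q : k[X]) (hQ : Squarefree Q)
    (hA : aeval A Q = 0) :
    ∃ (b : Module.Basis (Fin n) k (Fin n → k)) (d : Fin n → k), ∀ i, A.mulVec (b i) = d i • b i := by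
  classical
  set f : Module.End k (Fin n → k) := Matrix.toLinAlgEquiv' A with hf
  have hfQ : aeval f Q = 0 := by
    rw [hf]
    have h1 := Polynomial.aeval_algHom_apply (Matrix.toLinAlgEquiv' : Matrix (Fin n) (Fin n) k ≃ₐ[k] _).toAlgHom A Q
    have h2 : (Matrix.toLinAlgEquiv' : Matrix (Fin n) (Fin n) k ≃ₐ[k] _).toAlgHom A =
      Matrix.toLinAlgEquiv' A := rfl
    rw [h2] at h1
    rw [h1, hA, map_zero]
  have hss : f.IsSemisimple := Module.End.isSemisimple_of_squarefree_aeval_eq_zero hQ hfQ
  have htop := hss.iSup_eigenspace_eq_top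
  have hint : DirectSum.IsInternal f.eigenspace :=
    DirectSum.isInternal_submodule_of_iSupIndep_of_iSup_eq_top f.eigenspaces_iSupIndep htop
  set b0 := hint.collectedBasis (fun μ => Module.finBasis k (f.eigenspace μ)) with hb0
  have hfin : Finite (Σ μ : k, Fin (Module.finrank k (f.eigenspace μ))) :=
    Module.Finite.finite_basis b0
  have : Fintype (Σ μ : k, Fin (Module.finrank k (f.eigenspace μ))) := Fintype.ofFinite _
  have hcard : Fintype.card (Σ μ : k, Fin (Module.finrank k (f.eigenspace μ))) =
      Fintype.card (Fin n) := by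
    rw [← Module.finrank_eq_card_basis b0, Module.finrank_fintype_fun_eq_card]
  have e := Fintype.equivOfCardEq hcard
  set b : Module.Basis (Fin n) k (Fin n → k) := b0.reindex e with hb
  set d : Fin n → k := fun i => (e.symm i).1 with hd
  refine ⟨b, d, ?_⟩
  intro i
  have h1 : b i = b0 (e.symm i) := by rw [hb, Module.Basis.reindex_apply]
  have h2 : b i ∈ f.eigenspace (d i) := by
    rw [h1]
    exact hint.collectedBasis_mem _ _
  rw [Module.End.mem_eigenspace_iff, hf, Matrix.toLinAlgEquiv'_apply] at h2
  exact h2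

open Classical in
/-- a matrix is conjugate to the diagonal matrix of its eigenvalues if it is a zero of the product of the
different linear factors of its characteristic polynomial -/
theorem conj_diag_of_relation [IsAlgClosed k] (A : Matrix (Fin n) (Fin n) k) (a : Fin n → k)
    (h1 : A.charpoly = ∏ i, (X - C (a i)))
    (h2 : aeval A (∏ x ∈ Finset.univ.image a, (X - C x)) = 0) :
    ∃ h : GL (Fin n) k, A = (h : Matrix (Fin n) (Fin n) k) * Matrix.diagonal a *
      ((h⁻¹ : GL (Fin n) k) : Matrix (Fin n) (Fin n) k) := by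
  have hsq : Squarefree (∏ x ∈ Finset.univ.image a, (X - C x) : k[X]) :=
    (Polynomial.separable_prod_X_sub_C_iff'.2 fun x _ y _ h => h).squarefree
  obtain ⟨b, d, hbd⟩ := diag_of_squarefree A _ hsq h2
  obtain ⟨h, hh⟩ := Pool.Agent.Y800.conj_of_basis A b d hbd
  have h3 : ∏ i, (X - C (d i)) = ∏ i, (X - C (a i)) := by
    rw [← h1, hh, Pool.Agent.Y800.charpoly_conj, Pool.Agent.Y800.charpoly_diag]
  have h4 := congrArg Polynomial.roots h3
  have h5 : ∀ d : Fin n → k, (∏ i, (X - C (d i))).roots = Finset.univ.val.map d := by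
    intro d
    have : ∏ i, (X - C (d i)) = ((Finset.univ.val.map d).map fun a => X - C a).prod := by
      rw [Multiset.map_map]; rfl
    rw [this, Polynomial.roots_multiset_prod_X_sub_C]
  rw [h5, h5] at h4
  obtain ⟨σ, hσ⟩ := Pool.Agent.Y800.exists_perm a d h4.symm
  refine Pool.Agent.Y800.conj_of_basis A (b.reindex σ.symm) a (fun i => ?_)
  rw [Module.Basis.reindex_apply, Equiv.symm_symm, hbd, hσ]

open Classical in
/-- the converse -/
theorem relation_of_conj (h : GL (Fin n) k) (a : Fin n → k) :
    aeval ((h : Matrix (Fin n) (Fin n) k) * Matrix.diagonal a *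
      ((h⁻¹ : GL (Fin n) k) : Matrix (Fin n) (Fin n) k)) (∏ x ∈ Finset.univ.image a, (X - C x)) = 0 := by
  have h1 : ∀ Q : k[X], aeval ((h : Matrix (Fin n) (Fin n) k) * Matrix.diagonal a *
      ((h⁻¹ : GL (Fin n) k) : Matrix (Fin n) (Fin n) k)) Q =
      (h : Matrix (Fin n) (Fin n) k) * aeval (Matrix.diagonal a) Q *
      ((h⁻¹ : GL (Fin n) k) : Matrix (Fin n) (Fin n) k) := by
    intro Q
    induction Q using Polynomial.induction_on' with
    | add p q hp hq => rw [map_add, map_add, hp, hq, mul_add, add_mul]
    | monomial m c =>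
      rw [aeval_monomial, aeval_monomial]
      have h2 : ((h : Matrix (Fin n) (Fin n) k) * Matrix.diagonal a *
        ((h⁻¹ : GL (Fin n) k) : Matrix (Fin n) (Fin n) k)) ^ m =
        (h : Matrix (Fin n) (Fin n) k) * Matrix.diagonal a ^ m *
        ((h⁻¹ : GL (Fin n) k) : Matrix (Fin n) (Fin n) k) := by
        induction m with
        | zero => rw [pow_zero, pow_zero, mul_one, ← Units.val_mul, mul_inv_cancel, Units.val_one]
        | succ m ih =>
          rw [pow_succ, ih, pow_succ]
          have h3 : ((h⁻¹ : GL (Fin n) k) : Matrix (Fin n) (Fin n) k) * (h : Matrix (Fin n) (Fin n) k) = 1 := by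
            rw [← Units.val_mul, inv_mul_cancel, Units.val_one]
          calc (h : Matrix (Fin n) (Fin n) k) * Matrix.diagonal a ^ m *
              ((h⁻¹ : GL (Fin n) k) : Matrix (Fin n) (Fin n) k) * ((h : Matrix (Fin n) (Fin n) k) *
              Matrix.diagonal a * ((h⁻¹ : GL (Fin n) k) : Matrix (Fin n) (Fin n) k))
              = (h : Matrix (Fin n) (Fin n) k) * Matrix.diagonal a ^ m *
              (((h⁻¹ : GL (Fin n) k) : Matrix (Fin n) (Fin n) k) * (h : Matrix (Fin n) (Fin n) k)) *
              Matrix.diagonal a * ((h⁻¹ : GL (Fin n) k) : Matrix (Fin n) (Fin n) k) := by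
                simp only [mul_assoc]
            _ = _ := by rw [h3, mul_one, mul_assoc (h : Matrix (Fin n) (Fin n) k)]
      rw [h2, ← mul_assoc, ← mul_assoc, ← mul_assoc, Algebra.commutes c, mul_assoc _ _ (Matrix.diagonal a ^ m)]
  rw [h1]
  have h2 : aeval (Matrix.diagonal a) (∏ x ∈ Finset.univ.image a, (X - C x) : k[X]) = 0 := by
    have h3 : ∀ Q : k[X], aeval (Matrix.diagonal a) Q = Matrix.diagonal fun i => Q.eval (a i) := by
      intro Q
      induction Q using Polynomial.induction_on' with
      | add p q hp hq =>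
        rw [map_add, hp, hq, Matrix.diagonal_add]
        congr 1
        funext i
        rw [Polynomial.eval_add]
      | monomial m c =>
        rw [aeval_monomial, Matrix.diagonal_pow, Algebra.algebraMap_eq_smul_one, smul_mul_assoc, one_mul,
          ← Matrix.diagonal_smul]
        congr 1
        funext i
        simp [Polynomial.eval_monomial]
    rw [h3]
    ext i j
    rw [Matrix.zero_apply, Matrix.diagonal_apply]
    split_ifs with hij
    · rw [Polynomial.eval_prod]
      exact Finset.prod_eq_zero (Finset.mem_image.2 ⟨i, Finset.mem_univ i, rfl⟩) (by simp)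
    · rfl
  rw [h2, mul_zero, zero_mul]

end linear

end Pool.Agent.H499.CM
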