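import Pool.Agent.H499.CM.Main
import Pool.Agent.H499.CM.Lattice
import Pool.Agent.H499.CM.Lin
import Pool.Graph.R_pool_sql_team_seeded_64922ed1.X320.DS.Frob
import Pool.Graph.R_pool_sql_team_seeded_1acbe0a2.Y800.FinExt

/-! Existence of the Galois representation is equivalent to the existence of representations modulo the powers
of `ℓ` which match at most primes. -/

set_option autoImplicit false
set_option linter.all false

namespace Pool.Agent.H499.CM

open MeasureTheory Topology Filter Matrix NumberField IsDedekindDomain Polynomial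
open Pool.Agent.X320.DS (Semisimple)
open Pool.Agent.W401.Cheb (GK IsFrob IsInert dens)

section density

variable {K : Type} [Field K] [NumberField K]

theorem few_of_density {Bad : HeightOneSpectrum (𝓞 K) → Prop} {c c' : ℝ} (h : UpperDensityLE Bad c)
    (hc : c < c') : Few Bad c' := by
  have h1 := h (c' - c) (by linarith)
  have h2 : ∀ᶠ N : ℕ in atTop, 0 < (Nat.primeCounting N : ℝ) := by
    have := (tendsto_natCast_atTop_atTop (R := ℝ)).comp Nat.tendsto_primeCounting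
    exact this.eventually_gt_atTop 0
  filter_upwards [h1, h2] with N h3 h4
  rw [dens, div_le_iff₀ h4]
  have e : c + (c' - c) = c' := by ring
  rw [e] at h3
  exact h3

theorem density_of_few {Bad : HeightOneSpectrum (𝓞 K) → Prop} {c : ℝ} (h : ∀ c' > c, Few Bad c') :
    UpperDensityLE Bad c := by
  intro ε hε
  have h2 : ∀ᶠ N : ℕ in atTop, 0 < (Nat.primeCounting N : ℝ) := by
    have := (tendsto_natCast_atTop_atTop (R := ℝ)).comp Nat.tendsto_primeCounting
    exact this.eventually_gt_atTop 0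
  filter_upwards [h (c + ε) (by linarith), h2] with N h3 h4
  rw [dens, div_le_iff₀ h4] at h3
  exact h3

end density

variable {K : Type} [Field K] [NumberField K] {ℓ : ℕ} [Fact ℓ.Prime] {n : ℕ}

/-- relations pass to the limit -/
theorem TrCong.relation {ρ : GK K →* GL (Fin n) (PadicAlgCl ℓ)} {r : ∀ m, GK K →* GL (Fin n) (RR ℓ m)}
    (h : TrCong ρ r) (hρ : Semisimple ρ) (Q : (OO ℓ)[X]) (τ : GK K)
    (hv : {m | aeval (r m τ : Matrix (Fin n) (Fin n) (RR ℓ m)) (Q.map (mk m)) = 0}.Infinite) :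
    aeval (ρ τ : Matrix (Fin n) (Fin n) (PadicAlgCl ℓ)) (Q.map (algebraMap (OO ℓ) (PadicAlgCl ℓ))) = 0 := by
  classical
  obtain ⟨N, g, B, -, hB⟩ := Pool.Agent.X320.DS.exists_dual hρ (by exact_mod_cast n.factorial_ne_zero)
  choose T hT1 hT2 using h
  have hc : ∀ x m m', T x m = T x m' := fun x m m' => Subtype.ext ((hT1 x m).symm.trans (hT1 x m'))
  have key : ∀ x, ∑ k ∈ Q.support, Q.coeff k * T (x * τ ^ k) 0 = 0 := by
    intro x
    refine eq_of_cong (hv.mono fun m hm => ?_)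
    show mk m _ = mk m _
    rw [map_zero, map_sum]
    have h1 : ((r m x : Matrix (Fin n) (Fin n) (RR ℓ m)) *
        aeval (r m τ : Matrix (Fin n) (Fin n) (RR ℓ m)) (Q.map (mk m))).trace = 0 := by
      rw [show aeval (r m τ : Matrix (Fin n) (Fin n) (RR ℓ m)) (Q.map (mk m)) = 0 from hm, mul_zero,
        Matrix.trace_zero]
    rw [← h1, aeval_def, eval₂_map, eval₂_eq_sum, Polynomial.sum_def, Finset.mul_sum, Matrix.trace_sum]
    refine Finset.sum_congr rfl fun k _ => ?_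
    rw [map_mul, hc _ 0 m, hT2, map_mul, map_pow, Units.val_mul, Units.val_pow_eq_pow_val]
    show _ = ((r m x : Matrix (Fin n) (Fin n) (RR ℓ m)) * (algebraMap (RR ℓ m) _ (mk m (Q.coeff k)) *
      (r m τ : Matrix (Fin n) (Fin n) (RR ℓ m)) ^ k)).trace
    rw [← mul_assoc, ← Algebra.commutes, mul_assoc, ← Algebra.smul_def, Matrix.trace_smul, smul_eq_mul]
  rw [aeval_def, eval₂_map, eval₂_eq_sum, Polynomial.sum_def]
  have h2 : ∀ k, (ρ τ : Matrix (Fin n) (Fin n) (PadicAlgCl ℓ)) ^ k =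
      ∑ i, ((T (g i * τ ^ k) 0 : OO ℓ) : PadicAlgCl ℓ) • B i := by
    intro k
    have e : (ρ τ : Matrix (Fin n) (Fin n) (PadicAlgCl ℓ)) ^ k = (ρ (τ ^ k) : Matrix (Fin n) (Fin n) _) := by
      rw [map_pow, Units.val_pow_eq_pow_val]
    rw [e, hB]
    refine Finset.sum_congr rfl fun i _ => ?_
    rw [hT1 _ 0]
  have h3 : ∀ k, ((algebraMap (PadicAlgCl ℓ) (Matrix (Fin n) (Fin n) (PadicAlgCl ℓ))).comp
      (algebraMap (OO ℓ) (PadicAlgCl ℓ))) (Q.coeff k) * (ρ τ : Matrix (Fin n) (Fin n) (PadicAlgCl ℓ)) ^ k =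
      ∑ i, ((Q.coeff k * T (g i * τ ^ k) 0 : OO ℓ) : PadicAlgCl ℓ) • B i := by
    intro k
    rw [h2, RingHom.comp_apply, ← Algebra.smul_def, Finset.smul_sum]
    refine Finset.sum_congr rfl fun i _ => ?_
    rw [smul_smul]
    rfl
  simp only [h3]
  rw [Finset.sum_comm]
  refine Finset.sum_eq_zero fun i _ => ?_
  rw [← Finset.sum_smul]
  have h4 : ∑ k ∈ Q.support, ((Q.coeff k * T (g i * τ ^ k) 0 : OO ℓ) : PadicAlgCl ℓ) =
      ((∑ k ∈ Q.support, Q.coeff k * T (g i * τ ^ k) 0 : OO ℓ) : PadicAlgCl ℓ) := by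
    rw [AddSubmonoidClass.coe_finsetSum]
  rw [h4, key]
  show ((0 : OO ℓ) : PadicAlgCl ℓ) • B i = 0
  rw [ZeroMemClass.coe_zero, zero_smul]

theorem forward (S : Set (HeightOneSpectrum (𝓞 K))) (hS : S.Finite)
    (α : HeightOneSpectrum (𝓞 K) → Fin n → PadicAlgCl ℓ) (c : ℝ) (hc : c * (4 * n ^ 2) < 1)
    (hF : FiniteTraces S α) (strict : Bool)
    (r : ∀ m, GK K →* GL (Fin n) (RR ℓ m)) (hr : TorsionSystem S α strict c r) :
    ∃ ρ : GK K →* GL (Fin n) (PadicAlgCl ℓ), Attached S α strict ρ ∧ TrCong ρ r := by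
  classical
  obtain ⟨hker, hfew, hall⟩ := hr
  obtain ⟨F, hFfin, hF⟩ := hF
  haveI := hFfin
  let t : HeightOneSpectrum (𝓞 K) → OO ℓ := fun v =>
    if h : ∑ i, α v i ∈ OO ℓ then ⟨∑ i, α v i, h⟩ else 0
  have ht : ∀ v, ∑ i, α v i ∈ OO ℓ → ((t v : OO ℓ) : PadicAlgCl ℓ) = ∑ i, α v i := by
    intro v h
    show ((if h : ∑ i, α v i ∈ OO ℓ then ⟨∑ i, α v i, h⟩ else 0 : OO ℓ) : PadicAlgCl ℓ) = ∑ i, α v i
    rw [dif_pos h]
  let U : ℕ → Set (HeightOneSpectrum (𝓞 K)) := fun m => {v | v ∉ S ∧ TraceMod (mk m) (r m) v (α v)}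
  have hUint : ∀ m, ∀ v ∈ U m, ∑ i, α v i ∈ OO ℓ := by
    rintro m v ⟨_, s, hs, _⟩
    rw [← hs]
    exact s.2
  -- the places in `S` do not matter
  obtain ⟨ε, hε, hcε⟩ : ∃ ε : ℝ, 0 < ε ∧ (c + ε + ε) * (4 * n ^ 2) < 1 := by
    have h0 : 0 < 1 - c * (4 * (n : ℝ) ^ 2) := by linarith
    have h3 : (0 : ℝ) ≤ (n : ℝ) ^ 2 := sq_nonneg _
    refine ⟨(1 - c * (4 * n ^ 2)) / (4 * (4 * n ^ 2 + 1)), by positivity, ?_⟩
    have h1 : (1 - c * (4 * n ^ 2)) / (4 * (4 * n ^ 2 + 1)) * (4 * n ^ 2) ≤ (1 - c * (4 * n ^ 2)) / 4 := by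
      rw [div_mul_eq_mul_div, div_le_div_iff₀ (by positivity) (by norm_num)]
      nlinarith
    have h4 : (c + (1 - c * (4 * n ^ 2)) / (4 * (4 * n ^ 2 + 1)) +
        (1 - c * (4 * n ^ 2)) / (4 * (4 * n ^ 2 + 1))) * (4 * n ^ 2) =
        c * (4 * n ^ 2) + (1 - c * (4 * n ^ 2)) / (4 * (4 * n ^ 2 + 1)) * (4 * n ^ 2) +
        (1 - c * (4 * n ^ 2)) / (4 * (4 * n ^ 2 + 1)) * (4 * n ^ 2) := by ring
    rw [h4]
    linarith
  have hSf : Few (fun v : HeightOneSpectrum (𝓞 K) => v ∈ S) ε := by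
    have h1 := Pool.Agent.X320.DS.dens_finite S hS
    exact (h1.eventually (gt_mem_nhds hε)).mono fun N hN => hN.le
  have hU : ∀ m, Few (fun v => v ∉ U m) (c + ε + ε) := by
    intro m
    refine ((few_of_density (hfew m) (show c < c + ε by linarith)).or hSf).mono fun v hv => ?_
    by_cases h : v ∈ S
    · exact Or.inr h
    · exact Or.inl ⟨h, fun h2 => hv ⟨h, h2⟩⟩
  obtain ⟨ρ, h1, h2, h3⟩ := main t (c + ε + ε) hcε U hU r hker (fun m v hv σ hσ => by
      obtain ⟨_, s, hs, hfr⟩ := hv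
      rw [hfr σ hσ]
      congr 1
      apply Subtype.ext
      rw [hs, ht v (by rw [← hs]; exact s.2)]) F (fun m v hv => by
        rw [ht v (hUint m v hv)]
        exact hF v hv.1)
  refine ⟨ρ, ⟨h1, h2, fun v hv => ⟨fun σ hσ => ?_, fun σ hσ => ?_⟩⟩, h3⟩
  · exact h3.inert h2 σ ((hall v hv).mono fun m hm => hm.1 σ hσ)
  · have hinf := hall v hv
    obtain ⟨m0, hm0⟩ := hinf.nonempty
    obtain ⟨b, hb, -, -⟩ := hm0.2 σ hσ
    have hbm : ∀ m, CorrespondsMod strict (mk m) (r m) v (α v) →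
        (r m σ⁻¹ : Matrix (Fin n) (Fin n) (RR ℓ m)).charpoly = ∏ i, (X - C (mk m (b i))) ∧
        (strict = true → aeval (r m σ⁻¹ : Matrix (Fin n) (Fin n) (RR ℓ m))
          (∏ x ∈ Finset.univ.image b, (X - C (mk m x))) = 0) := by
      intro m hm
      obtain ⟨b', hb', h4, h5⟩ := hm.2 σ hσ
      have e : b' = b := by
        funext i
        apply Subtype.ext
        rw [hb', hb]
      subst e
      exact ⟨h4, h5⟩
    have h6 : (ρ σ⁻¹ : Matrix (Fin n) (Fin n) (PadicAlgCl ℓ)).charpoly = ∏ i, (X - C (α v i)) := by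
      rw [h3.frob b σ⁻¹ (hinf.mono fun m hm => (hbm m hm).1)]
      exact Finset.prod_congr rfl fun i _ => by rw [hb]
    refine ⟨h6, fun hs => conj_diag_of_relation _ _ h6 ?_⟩
    have h7 := h3.relation h2 (∏ x ∈ Finset.univ.image b, (X - C x)) σ⁻¹ (hinf.mono fun m hm => by
      show aeval _ _ = _
      rw [Polynomial.map_prod]
      simp only [Polynomial.map_sub, Polynomial.map_X, Polynomial.map_C]
      exact (hbm m hm).2 hs)
    rw [Polynomial.map_prod] at h7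
    simp only [Polynomial.map_sub, Polynomial.map_X, Polynomial.map_C] at h7
    have h8 : Finset.univ.image (α v) = (Finset.univ.image b).image fun x : OO ℓ => (x : PadicAlgCl ℓ) := by
      rw [Finset.image_image]
      exact Finset.image_congr fun i _ => (hb i).symm
    rw [h8, Finset.prod_image fun x _ y _ hxy => Subtype.ext hxy]
    exact h7

end Pool.Agent.H499.CM
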