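import Pool.Graph.R_seed8.TH444.TW.Ab
import Pool.Graph.R_seed8.H391R2.T4.Abl
import Pool.Graph.R_seed8.TH15.IGP.TwT

/-! Heisenberg groups: the matrices, and their realization over number fields. -/

set_option autoImplicit false
set_option linter.all false

namespace Pool.Agent.H499.CM

open Matrix

section group

variable (n : ℕ) [NeZero n]

/-- the translations act on the affine functions on `ZMod n` -/
def actH : Multiplicative (ZMod n) →* MulAut (Multiplicative (ZMod n × ZMod n)) where
  toFun c :=
    { toFun := fun x => Multiplicative.ofAdd (x.toAdd.1 - x.toAdd.2 * c.toAdd, x.toAdd.2)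
      invFun := fun x => Multiplicative.ofAdd (x.toAdd.1 + x.toAdd.2 * c.toAdd, x.toAdd.2)
      left_inv := fun x => by
        apply Multiplicative.toAdd.injective
        ext
        · simp
        · simp
      right_inv := fun x => by
        apply Multiplicative.toAdd.injective
        ext
        · simp
        · simp
      map_mul' := fun x y => by
        apply Multiplicative.toAdd.injective
        ext
        · simp
          ring
        · simp }
  map_one' := by
    refine MulEquiv.ext fun x => ?_
    apply Multiplicative.toAdd.injective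
    refine Prod.ext ?_ ?_
    · show x.toAdd.1 - x.toAdd.2 * (1 : Multiplicative (ZMod n)).toAdd = x.toAdd.1
      rw [toAdd_one, mul_zero, sub_zero]
    · rfl
  map_mul' c d := by
    refine MulEquiv.ext fun x => ?_
    apply Multiplicative.toAdd.injective
    refine Prod.ext ?_ ?_
    · show x.toAdd.1 - x.toAdd.2 * (c * d).toAdd = x.toAdd.1 - x.toAdd.2 * d.toAdd - x.toAdd.2 * c.toAdd
      rw [toAdd_mul]
      ring
    · rfl

/-- the quotient -/
abbrev Wq : Type := Multiplicative (ZMod n) × (ℤˣ × ℤˣ)

/-- the action of the quotient -/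
def actW : Wq n →* MulAut (Multiplicative (ZMod n × ZMod n)) := (actH n).comp (MonoidHom.fst _ _)

/-- the product of the Heisenberg group and two groups of order two -/
abbrev Gam : Type := Multiplicative (ZMod n × ZMod n) ⋊[actW n] Wq n

instance finite_Gam : Finite (Gam n) :=
  Finite.of_equiv (Multiplicative (ZMod n × ZMod n) × Wq n) SemidirectProduct.equivProd.symm

theorem card_Gam : Nat.card (Gam n) = 4 * n ^ 3 := by
  rw [Nat.card_congr SemidirectProduct.equivProd, Nat.card_prod, Nat.card_prod, Nat.card_prod]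
  have h1 : Nat.card (Multiplicative (ZMod n × ZMod n)) = n * n := by
    show Nat.card (ZMod n × ZMod n) = n * n
    rw [Nat.card_prod, Nat.card_zmod]
  have h2 : Nat.card (Multiplicative (ZMod n)) = n := by
    show Nat.card (ZMod n) = n
    rw [Nat.card_zmod]
  have h3 : Nat.card ℤˣ = 2 := by
    rw [Nat.card_eq_fintype_card]
    rfl
  rw [h1, h2, h3]
  ring

end group

section matrices

variable {n : ℕ} [NeZero n] {R : Type} [CommRing R]

/-- the matrices of the Heisenberg group -/
def heis (ψ : AddChar (ZMod n) R) (x : Gam n) : Matrix (ZMod n) (ZMod n) R :=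
  Matrix.of fun i j => if i = j + x.right.1.toAdd then ψ (x.left.toAdd.1 + x.left.toAdd.2 * i) else 0

theorem heis_mul (ψ : AddChar (ZMod n) R) (x y : Gam n) : heis ψ (x * y) = heis ψ x * heis ψ y := by
  ext i k
  rw [Matrix.mul_apply]
  have h1 : ∀ j, heis ψ x i j * heis ψ y j k = if j = k + y.right.1.toAdd then
      (if i = k + y.right.1.toAdd + x.right.1.toAdd then ψ (x.left.toAdd.1 + x.left.toAdd.2 * i) *
        ψ (y.left.toAdd.1 + y.left.toAdd.2 * j) else 0) else 0 := by
    intro j
    simp only [heis, Matrix.of_apply]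
    by_cases h2 : j = k + y.right.1.toAdd
    · rw [if_pos h2, if_pos h2, h2]
      split_ifs
      · rfl
      · rw [zero_mul]
    · rw [if_neg h2, if_neg h2, mul_zero]
  simp only [h1]
  rw [Finset.sum_ite_eq' Finset.univ (k + y.right.1.toAdd), if_pos (Finset.mem_univ _)]
  simp only [heis, Matrix.of_apply]
  have h3 : (x * y).right.1.toAdd = x.right.1.toAdd + y.right.1.toAdd := rfl
  have h4 : (x * y).left.toAdd.1 = x.left.toAdd.1 + (y.left.toAdd.1 - y.left.toAdd.2 * x.right.1.toAdd) := rfl
  have h5 : (x * y).left.toAdd.2 = x.left.toAdd.2 + y.left.toAdd.2 := rfl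
  rw [h3, h4, h5]
  by_cases h6 : i = k + y.right.1.toAdd + x.right.1.toAdd
  · rw [if_pos h6, if_pos (by rw [h6]; ring), ← AddChar.map_add_eq_mul]
    congr 1
    rw [h6]
    ring
  · rw [if_neg h6, if_neg (fun h => h6 (by rw [h]; ring))]

theorem heis_one (ψ : AddChar (ZMod n) R) : heis ψ (1 : Gam n) = 1 := by
  ext i j
  simp only [heis, Matrix.of_apply]
  have h3 : (1 : Gam n).right.1.toAdd = 0 := rfl
  have h4 : (1 : Gam n).left.toAdd.1 = 0 := rfl
  have h5 : (1 : Gam n).left.toAdd.2 = 0 := rfl
  rw [h3, h4, h5, add_zero, zero_mul, add_zero, AddChar.map_zero_eq_one, Matrix.one_apply]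

/-- the representation -/
def heisHom (ψ : AddChar (ZMod n) R) : Gam n →* Matrix (ZMod n) (ZMod n) R where
  toFun := heis ψ
  map_one' := heis_one ψ
  map_mul' := heis_mul ψ

theorem trace_heis (ψ : AddChar (ZMod n) R) (x : Gam n) :
    (heis ψ x).trace = if x.right.1.toAdd = 0 then ψ x.left.toAdd.1 * ∑ i, ψ (x.left.toAdd.2 * i) else 0 := by
  rw [Matrix.trace]
  by_cases h : x.right.1.toAdd = 0
  · rw [if_pos h, Finset.mul_sum]
    refine Finset.sum_congr rfl fun i _ => ?_
    rw [Matrix.diag_apply, heis, Matrix.of_apply, if_pos (by rw [h, add_zero]), AddChar.map_add_eq_mul]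
  · rw [if_neg h]
    refine Finset.sum_eq_zero fun i _ => ?_
    rw [Matrix.diag_apply, heis, Matrix.of_apply, if_neg (fun h1 => h (by
      have h2 : i + x.right.1.toAdd = i + 0 := by rw [add_zero]; exact h1.symm
      exact add_left_cancel h2))]

/-- the trace vanishes outside the centre -/
theorem trace_heis_ne [IsDomain R] (ψ : AddChar (ZMod n) R) (hψ : ψ.IsPrimitive) (x : Gam n)
    (h : (heis ψ x).trace ≠ 0) : x.right.1.toAdd = 0 ∧ x.left.toAdd.2 = 0 := by
  rw [trace_heis] at h
  by_cases h1 : x.right.1.toAdd = 0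
  · refine ⟨h1, ?_⟩
    by_contra h2
    apply h
    rw [if_pos h1]
    have h3 := AddChar.sum_mulShift x.left.toAdd.2 hψ
    rw [if_neg h2] at h3
    simp only [mul_comm _ x.left.toAdd.2] at h3
    rw [h3]
    simp
  · exact absurd (if_neg h1) h

end matrices

section realization

/-- the groups are realized over every number field -/
theorem exists_surj (n : ℕ) [NeZero n] (K : Type) [Field K] [NumberField K] :
    ∃ f : Gal(AlgebraicClosure K/K) →* Gam n, Function.Surjective f ∧ IsOpen (f.ker : Set Gal(AlgebraicClosure K/K)) := by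
  have hK := Pool.Agent.H391R2.T4.hilb_numberField K
  let p : Wq n →* Unit := 1
  have h1 : Pool.Agent.TH444.TW.RS p := Pool.Agent.TH444.TW.ab_rs p 1 (fun _ => rfl) (fun x y _ _ => mul_comm x y)
  obtain ⟨f, hf1, hf2, -⟩ := Pool.Agent.TH15.IGP.step_gen (Ω := AlgebraicClosure K) p (h1.stepSol K hK)
    (1 : Gal(AlgebraicClosure K/K) →* Unit) (fun _ => ⟨1, rfl⟩) (by
      have : ((1 : Gal(AlgebraicClosure K/K) →* Unit).ker : Set Gal(AlgebraicClosure K/K)) = Set.univ := by
        ext x
        simp
      rw [this]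
      exact isOpen_univ)
  obtain ⟨g, hg1, hg2, -⟩ := Pool.Agent.TH15.IGP.step_gen (Ω := AlgebraicClosure K)
    (SemidirectProduct.rightHom : Gam n →* Wq n)
    ((Pool.Agent.TH444.TW.ab_ext (actW n)).stepSol K hK) f hf1 hf2
  exact ⟨g, hg1, hg2⟩

end realization

end Pool.Agent.H499.CM
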