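import Pool.Agent.H499.CM.Core

/-! Representations modulo the powers of `ℓ` which match at most primes. -/

set_option autoImplicit false
set_option linter.all false

namespace Pool.Agent.H499.CM

open MeasureTheory Topology Filter Matrix NumberField IsDedekindDomain Polynomial
open Pool.Agent.X320.DS (Semisimple measure_ge_freq dens_all)
open Pool.Agent.W401.Cheb (GK IsFrob IsInert dens)

variable {K : Type} [Field K] [NumberField K]

/-- outside a set `Good` there are asymptotically at most the proportion `c` of the places -/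
def Few (Bad : HeightOneSpectrum (𝓞 K) → Prop) (c : ℝ) : Prop := ∀ᶠ N in atTop, dens Bad N ≤ c

theorem dens_le_add (P Q : HeightOneSpectrum (𝓞 K) → Prop) (N : ℕ) :
    dens (fun v => P v ∨ Q v) N ≤ dens P N + dens Q N := Pool.Agent.W528.Ord.dens_or P Q N

theorem Few.or {P Q : HeightOneSpectrum (𝓞 K) → Prop} {c d : ℝ} (hP : Few P c) (hQ : Few Q d) :
    Few (fun v => P v ∨ Q v) (c + d) := by
  filter_upwards [hP, hQ] with N h1 h2
  exact (dens_le_add P Q N).trans (add_le_add h1 h2)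

theorem Few.mono {P Q : HeightOneSpectrum (𝓞 K) → Prop} {c : ℝ} (hP : Few P c) (h : ∀ v, Q v → P v) :
    Few Q c := by
  filter_upwards [hP] with N h1
  exact (Pool.Agent.W528.Ord.dens_mono h N).trans h1

/-- **Chebotarev.** -/
theorem measure_compl_le [MeasurableSpace (GK K)] [BorelSpace (GK K)] (μ : Measure (GK K))
    [IsProbabilityMeasure μ] [μ.IsMulLeftInvariant] [μ.Regular] {Bad : HeightOneSpectrum (𝓞 K) → Prop} {c : ℝ}
    (hB : Few Bad c) (H : Set (GK K)) (hH : IsClosed H) (hX : ∀ v, ¬ Bad v → ∀ σ, IsFrob v σ → σ⁻¹ ∈ H) :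
    μ Hᶜ ≤ ENNReal.ofReal c := by
  have key : ∀ ε : ℝ, 0 < ε → (μ Hᶜ).toReal ≤ c + ε := by
    intro ε hε
    have h1 : ∀ᶠ N in atTop, 1 - c - ε ≤ dens (fun v => ¬ Bad v) N := by
      have h2 := (dens_all (K := K)).eventually (lt_mem_nhds (show 1 - ε < 1 by linarith))
      filter_upwards [h2, hB] with N h3 h4
      have h5 : dens (fun _ : HeightOneSpectrum (𝓞 K) => True) N ≤ dens (fun v => ¬ Bad v) N + dens Bad N := by
        refine (Pool.Agent.W528.Ord.dens_mono (Q := fun v => ¬ Bad v ∨ Bad v) (fun v _ => ?_) N).trans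
          (dens_le_add _ _ N)
        exact (em (Bad v)).symm
      linarith
    have h2 := measure_ge_freq μ (fun v => ¬ Bad v) h1.frequently H hH hX
    have h3 : (μ Hᶜ).toReal = 1 - (μ H).toReal := by
      rw [measure_compl hH.measurableSet (measure_ne_top _ _), measure_univ,
        ENNReal.toReal_sub_of_le prob_le_one ENNReal.one_ne_top, ENNReal.toReal_one]
    have h4 : 1 - c - ε ≤ (μ H).toReal := (ENNReal.ofReal_le_iff_le_toReal (measure_ne_top _ _)).1 h2
    linarith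
  have h1 : (μ Hᶜ).toReal ≤ c := le_of_forall_pos_le_add key
  exact (ENNReal.le_ofReal_iff_toReal_le (measure_ne_top _ _) (ENNReal.toReal_nonneg.trans h1)).2 h1

theorem mul_lt_one {M : ℕ} {c : ℝ} (hc : (M : ℝ) * c < 1) {x : ENNReal} (hx : x ≤ ENNReal.ofReal c) :
    (M : ENNReal) * x < 1 := by
  have h1 : (M : ENNReal) * x ≤ ENNReal.ofReal (M * c) := by
    rw [ENNReal.ofReal_mul (Nat.cast_nonneg _), ENNReal.ofReal_natCast]
    exact mul_le_mul_right hx _
  refine h1.trans_lt ?_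
  rw [ENNReal.ofReal_lt_one]
  exact hc

variable {ℓ : ℕ} [Fact ℓ.Prime] {n : ℕ}

/-- the trace from the characteristic polynomial -/
theorem trace_of_charpoly {R : Type} [CommRing R] (M : Matrix (Fin n) (Fin n) R) (a : Fin n → R)
    (h : M.charpoly = ∏ i, (X - C (a i))) (k : ℕ) : (M ^ k).trace = ∑ i, a i ^ k := by
  have h1 : (Matrix.diagonal a).charpoly = ∏ i, (X - C (a i)) := Matrix.charpoly_diagonal a
  rw [trace_pow_eq M (Matrix.diagonal a) (h.trans h1.symm) k, Matrix.diagonal_pow, Matrix.trace_diagonal]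
  rfl

theorem main (t : HeightOneSpectrum (𝓞 K) → OO ℓ) (c : ℝ) (hc : c * (4 * n ^ 2) < 1)
    (U : ℕ → Set (HeightOneSpectrum (𝓞 K))) (hU : ∀ m, Few (fun v => v ∉ U m) c)
    (r : ∀ m, GK K →* GL (Fin n) (RR ℓ m)) (hker : ∀ m, IsOpen ((r m).ker : Set (GK K)))
    (hfrob : ∀ m, ∀ v ∈ U m, ∀ σ, IsFrob v σ →
      (r m σ⁻¹ : Matrix (Fin n) (Fin n) (RR ℓ m)).trace = mk m (t v))
    (F : IntermediateField ℚ_[ℓ] (PadicAlgCl ℓ)) [FiniteDimensional ℚ_[ℓ] F]
    (hF : ∀ m, ∀ v ∈ U m, (t v : PadicAlgCl ℓ) ∈ F) :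
    ∃ ρ : GK K →* GL (Fin n) (PadicAlgCl ℓ), Continuous ρ ∧ Semisimple ρ ∧ TrCong ρ r := by
  classical
  letI : MeasurableSpace (GK K) := borel _
  haveI : BorelSpace (GK K) := ⟨rfl⟩
  set μ : Measure (GK K) := Measure.haarMeasure (⊤ : TopologicalSpace.PositiveCompacts (GK K)) with hμ
  haveI : IsProbabilityMeasure μ := ⟨by
    have := Measure.haarMeasure_self (K₀ := (⊤ : TopologicalSpace.PositiveCompacts (GK K)))
    rw [hμ]
    rwa [TopologicalSpace.PositiveCompacts.coe_top] at this⟩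
  haveI : MeasurableMul (GK K) := inferInstance
  let rm : ∀ m, GK K →* Matrix (Fin n) (Fin n) (RR ℓ m) := fun m => (Units.coeHom _).comp (r m)
  have hrm : ∀ m x, rm m x = (r m x : Matrix (Fin n) (Fin n) (RR ℓ m)) := fun _ _ => rfl
  have hfin : ∀ m, (Set.range (rm m)).Finite := by
    intro m
    refine ((finite_range_of_ker (hker m)).image fun u : GL (Fin n) (RR ℓ m) =>
      (u : Matrix (Fin n) (Fin n) (RR ℓ m))).subset ?_
    rintro _ ⟨g, rfl⟩
    exact ⟨_, ⟨g, rfl⟩, rfl⟩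
  -- the trace of Frobenius
  have htr : ∀ m, ∀ v ∈ U m, ∀ σ, IsFrob v σ → (rm m σ⁻¹).trace = mk m (t v) := by
    intro m v hv σ hσ
    rw [hrm, hfrob m v hv σ hσ]
  have hclo : ∀ m, ∀ S : Set (Matrix (Fin n) (Fin n) (RR ℓ m)), IsClosed (rm m ⁻¹' S) := by
    intro m S
    exact isClosed_of_ker (hker m) ((fun u : GL (Fin n) (RR ℓ m) =>
      (u : Matrix (Fin n) (Fin n) (RR ℓ m))) ⁻¹' S)
  -- the sets where the traces agree
  let Z : ℕ → Set (GK K) := fun m => {x | (rm m x).trace = red m (rm (m + 1) x).trace}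
  have hZc : ∀ m, IsClosed (Z m) := by
    intro m
    have e : Z m = ⋂ t : RR ℓ m, ((rm m ⁻¹' {M | M.trace ≠ t}) ∪ (rm (m + 1) ⁻¹' {M | red m M.trace = t})) := by
      ext x
      simp only [Set.mem_iInter, Set.mem_union, Set.mem_preimage, Set.mem_ofPred_eq]
      constructor
      · intro h t
        by_cases h1 : (rm m x).trace = t
        · exact Or.inr (by rw [← h1]; exact h.symm)
        · exact Or.inl h1
      · intro h
        rcases h (rm m x).trace with h1 | h1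
        · exact absurd rfl h1
        · exact h1.symm
    rw [e]
    exact isClosed_iInter fun t => (hclo m _).union (hclo (m + 1) _)
  have hZμ : ∀ m, μ (Z m)ᶜ ≤ ENNReal.ofReal (c + c) := by
    intro m
    refine measure_compl_le μ ((hU m).or (hU (m + 1))) (Z m) (hZc m) fun v hv σ hσ => ?_
    have hv1 : v ∈ U m := by
      by_contra h
      exact hv (Or.inl h)
    have hv2 : v ∈ U (m + 1) := by
      by_contra h
      exact hv (Or.inr h)
    show (rm m σ⁻¹).trace = red m (rm (m + 1) σ⁻¹).trace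
    rw [htr m v hv1 σ hσ, htr (m + 1) v hv2 σ hσ, red_mk]
  have hnum1 : ((2 * n ^ 2 : ℕ) : ℝ) * (c + c) < 1 := by
    push_cast
    nlinarith
  have hnum2 : ((2 * n ^ 2 : ℕ) : ℝ) * c < 1 := by
    push_cast
    have hn2 : (0 : ℝ) ≤ (n : ℝ) ^ 2 := sq_nonneg _
    by_cases h0 : 0 ≤ c
    · nlinarith [mul_nonneg hn2 h0]
    · push Not at h0
      nlinarith [mul_nonneg hn2 (neg_nonneg.2 h0.le)]
  have hZ1 : ∀ m, ((2 * n ^ 2 : ℕ) : ENNReal) * μ (Z m)ᶜ < 1 := fun m => mul_lt_one hnum1 (hZμ m)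
  -- the sets where the traces are rational over `F`
  let S : ℕ → Set (GK K) := fun m => {x | ∃ y : OO ℓ, (y : PadicAlgCl ℓ) ∈ F ∧ mk m y = (rm m x).trace}
  have hSc : ∀ m, IsClosed (S m) := fun m =>
    hclo m {M | ∃ y : OO ℓ, (y : PadicAlgCl ℓ) ∈ F ∧ mk m y = M.trace}
  have hSμ : ∀ m, μ (S m)ᶜ ≤ ENNReal.ofReal c := by
    intro m
    refine measure_compl_le μ (hU m) (S m) (hSc m) fun v hv σ hσ => ?_
    have hv1 : v ∈ U m := by
      by_contra h
      exact hv h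
    exact ⟨t v, hF m v hv1, (htr m v hv1 σ hσ).symm⟩
  have hcomp : ∀ x m, red m (rm (m + 1) x).trace = (rm m x).trace := by
    intro x m
    have h1 := trace_eq_chain (chain_RR m) μ (rm m) (((red m).mapMatrix : Matrix (Fin n) (Fin n) (RR ℓ (m + 1)) →+*
      Matrix (Fin n) (Fin n) (RR ℓ m)).toMonoidHom.comp (rm (m + 1))) (hfin m) (by
        refine ((hfin (m + 1)).image ((red m).mapMatrix : Matrix (Fin n) (Fin n) (RR ℓ (m + 1)) →+*
          Matrix (Fin n) (Fin n) (RR ℓ m))).subset ?_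
        rintro _ ⟨g, rfl⟩
        exact ⟨_, ⟨g, rfl⟩, rfl⟩) (Z m) (hZ1 m) (fun x hx => by
          have hx' : (rm m x).trace = red m (rm (m + 1) x).trace := hx
          rw [hx', ← red_trace]
          rfl) x
    rw [h1]
    exact (red_trace m _).symm
  have hSanti : ∀ m, S (m + 1) ⊆ S m := by
    rintro m x ⟨y, hyF, hy⟩
    refine ⟨y, hyF, ?_⟩
    rw [← red_mk, hy, hcomp]
  have hSF : ((2 * n ^ 2 : ℕ) : ENNReal) * μ {x | ∀ m, ∃ y : OO ℓ, (y : PadicAlgCl ℓ) ∈ F ∧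
      mk m y = (rm m x).trace}ᶜ < 1 := by
    refine mul_lt_one hnum2 ?_
    have e : {x | ∀ m, ∃ y : OO ℓ, (y : PadicAlgCl ℓ) ∈ F ∧ mk m y = (rm m x).trace}ᶜ = ⋃ m, (S m)ᶜ := by
      ext x
      simp only [Set.mem_compl_iff, Set.mem_iUnion, Set.mem_ofPred_eq, S]
      push Not
      rfl
    rw [e]
    have hmono : Monotone fun m => (S m)ᶜ :=
      monotone_nat_of_le_succ fun m => Set.compl_subset_compl.2 (hSanti m)
    exact le_of_tendsto' (tendsto_measure_iUnion_atTop hmono) hSμ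
  obtain ⟨-, T, Ω, iΩ, j, R, hTF, hTm, hTR⟩ := exists_limit_trace μ rm hfin Z hZ1 (fun m x hx => hx) F hSF
  -- continuity
  have hTcont : Continuous fun x => (T x : PadicAlgCl ℓ) := by
    rw [continuous_iff_continuousAt]
    intro x
    rw [ContinuousAt, Metric.tendsto_nhds]
    intro ε hε
    obtain ⟨m, hm⟩ := exists_pow_lt_of_lt_one hε (norm_ell_lt (ℓ := ℓ))
    have h1 : rm m ⁻¹' {M | M = rm m x} ∈ 𝓝 x := (isOpen_of_ker (hker m) ((fun u : GL (Fin n) (RR ℓ m) =>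
      (u : Matrix (Fin n) (Fin n) (RR ℓ m))) ⁻¹' {M | M = rm m x})).mem_nhds rfl
    filter_upwards [h1] with y hy
    have hy' : rm m y = rm m x := hy
    have h2 : mk m (T y) = mk m (T x) := by rw [hTm, hTm, hy']
    rw [mk_eq] at h2
    rw [dist_eq_norm]
    exact h2.trans_lt hm
  obtain ⟨ρ, hρc, hρs, hρt⟩ := exists_rep (fun x => (T x : PadicAlgCl ℓ)) hTcont Ω j R hTR
  exact ⟨ρ, hρc, hρs, fun σ m => ⟨T σ, hρt σ, hTm σ m⟩⟩

/-- two integers which are congruent modulo infinitely many powers of `ℓ` -/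
theorem eq_of_cong {x y : OO ℓ} (h : {m | mk m x = mk m y}.Infinite) : x = y := by
  have h1 : ∀ k, ‖(x : PadicAlgCl ℓ) - y‖ ≤ ‖(ℓ : PadicAlgCl ℓ)‖ ^ k := by
    intro k
    obtain ⟨m, hm1, hm2⟩ := h.exists_gt k
    have h2 : mk m x = mk m y := hm1
    rw [mk_eq] at h2
    exact h2.trans (pow_le_pow_of_le_one (norm_nonneg _) norm_ell_lt.le hm2.le)
  have h2 : ‖(x : PadicAlgCl ℓ) - y‖ ≤ 0 :=
    ge_of_tendsto' (tendsto_pow_atTop_nhds_zero_of_lt_one (norm_nonneg (ℓ : PadicAlgCl ℓ)) norm_ell_lt) h1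
  exact Subtype.ext (sub_eq_zero.1 (norm_le_zero_iff.1 h2))

/-- if infinitely many `r m` are unramified at `v`, then `ρ` is -/
theorem TrCong.inert {ρ : GK K →* GL (Fin n) (PadicAlgCl ℓ)} {r : ∀ m, GK K →* GL (Fin n) (RR ℓ m)}
    (h : TrCong ρ r) (hρ : Semisimple ρ) (σ : GK K) (hv : {m | r m σ = 1}.Infinite) : ρ σ = 1 := by
  refine eq_one_of_trace hρ σ fun x => ?_
  choose T hT1 hT2 using h
  have hc : ∀ x m m', T x m = T x m' := fun x m m' => Subtype.ext ((hT1 x m).symm.trans (hT1 x m'))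
  rw [hT1 (σ * x) 0, hT1 x 0]
  congr 1
  refine eq_of_cong (hv.mono fun m hm => ?_)
  show mk m _ = mk m _
  rw [hc _ 0 m, hc _ 0 m, hT2, hT2, map_mul, show r m σ = 1 from hm, one_mul]

/-- the Frobenius elements at the places which match infinitely often -/
theorem TrCong.frob {ρ : GK K →* GL (Fin n) (PadicAlgCl ℓ)} {r : ∀ m, GK K →* GL (Fin n) (RR ℓ m)}
    (h : TrCong ρ r) (a : Fin n → OO ℓ) (τ : GK K)
    (hv : {m | (r m τ : Matrix (Fin n) (Fin n) (RR ℓ m)).charpoly = ∏ i, (X - C (mk m (a i)))}.Infinite) :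
    (ρ τ : Matrix (Fin n) (Fin n) (PadicAlgCl ℓ)).charpoly =
      ∏ i, (X - C ((a i : OO ℓ) : PadicAlgCl ℓ)) := by
  choose T hT1 hT2 using h
  have hc : ∀ x m m', T x m = T x m' := fun x m m' => Subtype.ext ((hT1 x m).symm.trans (hT1 x m'))
  have h0 : (Matrix.diagonal fun i => ((a i : OO ℓ) : PadicAlgCl ℓ)).charpoly =
      ∏ i, (X - C ((a i : OO ℓ) : PadicAlgCl ℓ)) := Matrix.charpoly_diagonal _
  rw [← h0]
  refine charpoly_eq_of_traces _ _ fun k => ?_
  rw [Matrix.diagonal_pow, Matrix.trace_diagonal]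
  have e : (ρ τ : Matrix (Fin n) (Fin n) (PadicAlgCl ℓ)) ^ k =
      (ρ (τ ^ k) : Matrix (Fin n) (Fin n) (PadicAlgCl ℓ)) := by
    rw [map_pow, Units.val_pow_eq_pow_val]
  rw [e, hT1 _ 0]
  have e2 : ∑ i, ((fun i => ((a i : OO ℓ) : PadicAlgCl ℓ)) ^ k) i =
      ((∑ i, a i ^ k : OO ℓ) : PadicAlgCl ℓ) := by
    rw [AddSubmonoidClass.coe_finsetSum]
    rfl
  rw [e2]
  congr 1
  refine eq_of_cong (hv.mono fun m hm => ?_)
  show mk m _ = mk m _
  rw [hc _ 0 m, hT2, map_pow, Units.val_pow_eq_pow_val, trace_of_charpoly _ _ hm, map_sum]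
  simp only [map_pow]

end Pool.Agent.H499.CM
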