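import Pool.Agent.H499.CM.Back
import Pool.Agent.H499.CM.Unr
import Pool.Agent.H499.CM.Heis
import Pool.Graph.R_seed8.W528.Ord.Dens

/-! The constant `1 / (4 n ^ 2)` cannot be improved. -/

set_option autoImplicit false
set_option linter.all false

namespace Pool.Agent.H499.CM

open MeasureTheory Topology Filter Matrix NumberField IsDedekindDomain Polynomial
open Pool.Agent.X320.DS (Semisimple)
open Pool.Agent.W401.Cheb (GK IsFrob IsInert dens)

section general

variable {K : Type} [Field K] [NumberField K]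

/-- continuous functions which agree on the Frobenius elements -/
theorem eq_of_frob {X : Type*} [TopologicalSpace X] [T2Space X] (f g : GK K → X) (hf : Continuous f)
    (hg : Continuous g) (S : Set (HeightOneSpectrum (𝓞 K))) (hS : S.Finite)
    (h : ∀ v ∉ S, ∀ σ, IsFrob v σ → f σ⁻¹ = g σ⁻¹) : f = g := by
  funext x
  by_contra hx
  have h1 : IsOpen {y | f y ≠ g y} := isOpen_ne_fun hf hg
  have h2 : (fun y => x * y) ⁻¹' {y | f y ≠ g y} ∈ 𝓝 (1 : GK K) := by
    refine (h1.preimage (continuous_const_mul x)).mem_nhds ?_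
    show f (x * 1) ≠ g (x * 1)
    rw [mul_one]
    exact hx
  obtain ⟨W, hW1, hW2, hW3⟩ := mem_nhds_iff.1 h2
  obtain ⟨U, hU⟩ := ProfiniteGrp.exist_openNormalSubgroup_sub_open_nhds_of_one hW2 hW3
  haveI : U.toSubgroup.Normal := U.isNormal'
  obtain ⟨v, hv, σ, hσ, hσx⟩ := Pool.Agent.X320.DS.exists_frob_coset U.toSubgroup U.isOpen' x S hS
  have h3 : x⁻¹ * σ⁻¹ ∈ U.toSubgroup := QuotientGroup.eq.1 hσx.symm
  have h4 := hW1 (hU h3)
  have h5 : f (x * (x⁻¹ * σ⁻¹)) ≠ g (x * (x⁻¹ * σ⁻¹)) := h4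
  rw [mul_inv_cancel_left] at h5
  exact h5 (h v hv σ hσ)

/-- a homomorphism with open kernel is continuous -/
theorem continuous_of_ker {H : Type*} [Group H] [TopologicalSpace H] {r : GK K →* H}
    (hr : IsOpen (r.ker : Set (GK K))) : Continuous r :=
  continuous_def.2 fun s _ => isOpen_of_ker hr s

/-- Chebotarev's theorem, for a homomorphism to a finite group -/
theorem density_le {G' : Type} [Group G'] [Finite G'] (f : GK K →* G') (hf : Function.Surjective f)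
    (hker : IsOpen (f.ker : Set (GK K))) (T : Set G') (hT : ∀ x ∈ T, ∀ y, y * x * y⁻¹ ∈ T)
    (Bad : HeightOneSpectrum (𝓞 K) → Prop) (hBad : ∀ v, Bad v → ∃ σ, IsFrob v σ ∧ f σ ∈ T) :
    UpperDensityLE Bad ((T.ncard : ℝ) / Nat.card G') := by
  have h1 := Pool.Agent.W528.Ord.chebK K f.ker hker (f ⁻¹' T) (fun σ hσ τ => by
    show f (τ * σ * τ⁻¹) ∈ T
    rw [map_mul, map_mul, map_inv]
    exact hT _ hσ _) (fun σ hσ u hu => by
    show f (σ * u) ∈ T
    rw [map_mul, show f u = 1 from hu, mul_one]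
    exact hσ)
  rw [Pool.Agent.W352.ChAbs.ratio f.ker f le_rfl (f ⁻¹' T) (fun σ hσ u hu => by
    show f (σ * u) ∈ T
    rw [map_mul, show f u = 1 from hu, mul_one]
    exact hσ), Set.image_preimage_eq T hf] at h1
  have h2 : Nat.card f.range = Nat.card G' := by
    rw [MonoidHom.range_eq_top.2 hf]
    exact Nat.card_congr Subgroup.topEquiv.toEquiv
  rw [h2] at h1
  refine density_of_few fun c' hc' => ?_
  filter_upwards [h1.eventually (gt_mem_nhds hc')] with N hN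
  refine (Pool.Agent.W528.Ord.dens_mono (fun v hv => ?_) N).trans hN.le
  obtain ⟨σ, hσ1, hσ2⟩ := hBad v hv
  exact ⟨σ, hσ2, hσ1⟩

end general

section example_

variable {K : Type} [Field K] [NumberField K] {ℓ : ℕ} [Fact ℓ.Prime] {n : ℕ} [NeZero n]

/-- a bijection -/
noncomputable def ez (n : ℕ) [NeZero n] : ZMod n ≃ Fin n := Fintype.equivOfCardEq (by simp)

/-- the first of the two representations -/
noncomputable def N0 (ψ : AddChar (ZMod n) (OO ℓ)) (f : GK K →* Gam n) : GK K →* Matrix (Fin n) (Fin n) (OO ℓ) :=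
  ((Matrix.reindexAlgEquiv (OO ℓ) (OO ℓ) (ez n)).toAlgHom.toRingHom.toMonoidHom.comp (heisHom ψ)).comp f

theorem N0_trace (ψ : AddChar (ZMod n) (OO ℓ)) (f : GK K →* Gam n) (g : GK K) :
    (N0 ψ f g).trace = (heis ψ (f g)).trace := by
  show ((Matrix.reindex (ez n) (ez n)) (heis ψ (f g))).trace = _
  rw [Matrix.trace, Matrix.trace]
  exact Equiv.sum_comp (ez n).symm fun i => heis ψ (f g) i i

/-- the first sign -/
def e1 : Gam n →* ℤˣ := ((MonoidHom.fst _ _).comp (MonoidHom.snd _ _)).comp SemidirectProduct.rightHom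

/-- the second sign -/
def e2 : Gam n →* ℤˣ := ((MonoidHom.snd _ _).comp (MonoidHom.snd _ _)).comp SemidirectProduct.rightHom

/-- a sign as a scalar matrix -/
noncomputable def sgn (n : ℕ) (R : Type) [CommRing R] : ℤˣ →* Matrix (Fin n) (Fin n) R :=
  (Matrix.scalar (Fin n)).toMonoidHom.comp ((Int.castRingHom R).toMonoidHom.comp (Units.coeHom ℤ))

theorem sgn_mul (R : Type) [CommRing R] (e : ℤˣ) (A : Matrix (Fin n) (Fin n) R) :
    sgn n R e * A = ((e : ℤ) : R) • A := by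
  show Matrix.scalar (Fin n) ((e : ℤ) : R) * A = _
  rw [Matrix.scalar_apply, ← Matrix.smul_one_eq_diagonal, smul_mul_assoc, one_mul]

theorem sgn_comm (R : Type) [CommRing R] (e : ℤˣ) (A : Matrix (Fin n) (Fin n) R) :
    sgn n R e * A = A * sgn n R e := by
  rw [sgn_mul]
  show _ = A * Matrix.scalar (Fin n) ((e : ℤ) : R)
  rw [Matrix.scalar_apply, ← Matrix.smul_one_eq_diagonal, mul_smul_comm, mul_one]

/-- the twist by the first sign -/
noncomputable def N1 (ψ : AddChar (ZMod n) (OO ℓ)) (f : GK K →* Gam n) : GK K →* Matrix (Fin n) (Fin n) (OO ℓ) where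
  toFun g := sgn n (OO ℓ) (e1 (f g)) * N0 ψ f g
  map_one' := by rw [map_one, map_one, map_one, map_one, mul_one]
  map_mul' g h := by
    rw [map_mul, map_mul, map_mul, map_mul, mul_assoc, mul_assoc, ← mul_assoc (N0 ψ f g), ← sgn_comm, mul_assoc]

theorem N1_trace (ψ : AddChar (ZMod n) (OO ℓ)) (f : GK K →* Gam n) (g : GK K) :
    (N1 ψ f g).trace = ((e1 (f g) : ℤ) : OO ℓ) * (heis ψ (f g)).trace := by
  show (sgn n (OO ℓ) (e1 (f g)) * N0 ψ f g).trace = _
  rw [sgn_mul, Matrix.trace_smul, N0_trace, smul_eq_mul]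

/-- one of the two -/
noncomputable def NN (ψ : AddChar (ZMod n) (OO ℓ)) (f : GK K →* Gam n) (b : Bool) :
    GK K →* Matrix (Fin n) (Fin n) (OO ℓ) := if b then N1 ψ f else N0 ψ f

theorem NN_trace (ψ : AddChar (ZMod n) (OO ℓ)) (f : GK K →* Gam n) (b : Bool) (g : GK K) :
    (NN ψ f b g).trace = (if b then ((e1 (f g) : ℤ) : OO ℓ) else 1) * (heis ψ (f g)).trace := by
  cases b
  · show (N0 ψ f g).trace = _
    rw [N0_trace]
    simp
  · show (N1 ψ f g).trace = _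
    rw [N1_trace]
    simp

theorem NN_of_f (ψ : AddChar (ZMod n) (OO ℓ)) (f : GK K →* Gam n) (b : Bool) {g : GK K} (h : f g = 1) :
    NN ψ f b g = 1 := by
  have h0 : N0 ψ f g = 1 := by
    show (Matrix.reindexAlgEquiv (OO ℓ) (OO ℓ) (ez n)) (heisHom ψ (f g)) = 1
    rw [h, map_one, map_one]
  cases b
  · exact h0
  · show sgn n (OO ℓ) (e1 (f g)) * N0 ψ f g = 1
    rw [h, h0, map_one, map_one, mul_one]

/-- the representations over the field -/
noncomputable def RH (ψ : AddChar (ZMod n) (OO ℓ)) (f : GK K →* Gam n) (b : Bool) : GK K →* GL (Fin n) (PadicAlgCl ℓ) :=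
  (((algebraMap (OO ℓ) (PadicAlgCl ℓ)).mapMatrix : Matrix (Fin n) (Fin n) (OO ℓ) →+*
    Matrix (Fin n) (Fin n) (PadicAlgCl ℓ)).toMonoidHom.comp (NN ψ f b)).toHomUnits

theorem RH_apply (ψ : AddChar (ZMod n) (OO ℓ)) (f : GK K →* Gam n) (b : Bool) (g : GK K) :
    (RH ψ f b g : Matrix (Fin n) (Fin n) (PadicAlgCl ℓ)) = (NN ψ f b g).map (algebraMap (OO ℓ) (PadicAlgCl ℓ)) := rfl

theorem RH_model (ψ : AddChar (ZMod n) (OO ℓ)) (f : GK K →* Gam n) (b : Bool) : IntModel (RH ψ f b) (NN ψ f b) :=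
  ⟨1, fun g => by rw [inv_one, one_mul, mul_one]; rfl⟩

theorem RH_of_f (ψ : AddChar (ZMod n) (OO ℓ)) (f : GK K →* Gam n) (b : Bool) {g : GK K} (h : f g = 1) :
    RH ψ f b g = 1 := by
  apply Units.ext
  rw [RH_apply, NN_of_f ψ f b h, Matrix.map_one _ (map_zero _) (map_one _)]
  rfl

theorem RH_congr (ψ : AddChar (ZMod n) (OO ℓ)) (f : GK K →* Gam n) (b : Bool) {g h : GK K} (e : f g = f h) :
    RH ψ f b g = RH ψ f b h := by
  have h1 : f (g⁻¹ * h) = 1 := by rw [map_mul, map_inv, e, inv_mul_cancel]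
  have h2 := RH_of_f ψ f b h1
  rw [map_mul, map_inv, inv_mul_eq_one] at h2
  exact h2

theorem RH_ker (ψ : AddChar (ZMod n) (OO ℓ)) (f : GK K →* Gam n) (hf : IsOpen (f.ker : Set (GK K))) (b : Bool) :
    IsOpen ((RH ψ f b).ker : Set (GK K)) :=
  Subgroup.isOpen_mono (H₁ := f.ker) (fun g hg => RH_of_f ψ f b hg) hf

theorem RH_trace (ψ : AddChar (ZMod n) (OO ℓ)) (f : GK K →* Gam n) (b : Bool) (g : GK K) :
    (RH ψ f b g : Matrix (Fin n) (Fin n) (PadicAlgCl ℓ)).trace =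
      (((if b then ((e1 (f g) : ℤ) : OO ℓ) else 1) * (heis ψ (f g)).trace : OO ℓ) : PadicAlgCl ℓ) := by
  rw [← (RH_model ψ f b).trace, NN_trace]

/-- which of the two representations is used at `v` -/
noncomputable def jv (f : GK K →* Gam n) (v : HeightOneSpectrum (𝓞 K)) : Bool :=
  decide (e2 (f (Pool.Agent.W401.Frob.exists_frob v).choose) = -1)

theorem exists_alpha (ψ : AddChar (ZMod n) (OO ℓ)) (f : GK K →* Gam n) (v : HeightOneSpectrum (𝓞 K)) :
    ∃ a : Fin n → PadicAlgCl ℓ, ∃ h : GL (Fin n) (PadicAlgCl ℓ),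
      (RH ψ f (jv f v) (Pool.Agent.W401.Frob.exists_frob v).choose⁻¹ : Matrix (Fin n) (Fin n) (PadicAlgCl ℓ)) =
        (h : Matrix (Fin n) (Fin n) (PadicAlgCl ℓ)) * Matrix.diagonal a *
          ((h⁻¹ : GL (Fin n) (PadicAlgCl ℓ)) : Matrix (Fin n) (Fin n) (PadicAlgCl ℓ)) := by
  set g := (Pool.Agent.W401.Frob.exists_frob v).choose⁻¹
  have h1 : (RH ψ f (jv f v) g : Matrix (Fin n) (Fin n) (PadicAlgCl ℓ)) ^ Nat.card (Gam n) = 1 := by
    rw [← Units.val_pow_eq_pow_val, ← map_pow, RH_of_f ψ f (jv f v) (by rw [map_pow, pow_card_eq_one']),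
      Units.val_one]
  obtain ⟨b, d, hbd⟩ := Pool.Agent.Y800.diag_of_pow_eq_one _ _ Nat.card_pos h1
  obtain ⟨h, hh⟩ := Pool.Agent.Y800.conj_of_basis _ b d hbd
  exact ⟨d, h, hh⟩

/-- the parameters -/
noncomputable def al (ψ : AddChar (ZMod n) (OO ℓ)) (f : GK K →* Gam n) (v : HeightOneSpectrum (𝓞 K)) :
    Fin n → PadicAlgCl ℓ := (exists_alpha ψ f v).choose

theorem corr_al (ψ : AddChar (ZMod n) (OO ℓ)) (f : GK K →* Gam n) (v : HeightOneSpectrum (𝓞 K))
    (hv : ∀ σ, IsInert v σ → f σ = 1) : Corresponds true (RH ψ f (jv f v)) v (al ψ f v) := by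
  refine ⟨fun σ hσ => RH_of_f ψ f _ (hv σ hσ), fun σ hσ => ?_⟩
  obtain ⟨h, hh0⟩ := (exists_alpha ψ f v).choose_spec
  have hh : (RH ψ f (jv f v) (Pool.Agent.W401.Frob.exists_frob v).choose⁻¹ : Matrix (Fin n) (Fin n) (PadicAlgCl ℓ)) =
        (h : Matrix (Fin n) (Fin n) (PadicAlgCl ℓ)) * Matrix.diagonal (al ψ f v) *
          ((h⁻¹ : GL (Fin n) (PadicAlgCl ℓ)) : Matrix (Fin n) (Fin n) (PadicAlgCl ℓ)) := hh0
  obtain ⟨τ, ι, hι, hτ⟩ := Pool.Agent.W401.Frob.conj_frob v _ σ (Pool.Agent.W401.Frob.exists_frob v).choose_spec hσ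
  have h1 : f σ⁻¹ = f (τ * (Pool.Agent.W401.Frob.exists_frob v).choose⁻¹ * τ⁻¹) := by
    rw [hτ]
    simp only [map_mul, map_inv, hv ι hι, mul_one, _root_.mul_inv_rev, inv_inv, mul_assoc, inv_one, one_mul]
  have h2 : (RH ψ f (jv f v) σ⁻¹ : Matrix (Fin n) (Fin n) (PadicAlgCl ℓ)) =
      ((RH ψ f (jv f v) τ * h : GL (Fin n) (PadicAlgCl ℓ)) : Matrix (Fin n) (Fin n) (PadicAlgCl ℓ)) *
        Matrix.diagonal (al ψ f v) * (((RH ψ f (jv f v) τ * h)⁻¹ : GL (Fin n) (PadicAlgCl ℓ)) :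
        Matrix (Fin n) (Fin n) (PadicAlgCl ℓ)) := by
    rw [RH_congr ψ f _ h1, map_mul, map_mul, map_inv (RH ψ f (jv f v)) τ, _root_.mul_inv_rev, Units.val_mul, Units.val_mul,
      Units.val_mul, Units.val_mul, hh]
    simp only [Matrix.mul_assoc]
  refine ⟨?_, fun _ => ⟨_, h2⟩⟩
  rw [h2, Pool.Agent.Y800.charpoly_conj, Pool.Agent.Y800.charpoly_diag]

/-- the places which are ramified -/
def SS (f : GK K →* Gam n) : Set (HeightOneSpectrum (𝓞 K)) := {v | ∃ σ, IsInert v σ ∧ σ ∉ f.ker}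

theorem SS_spec {f : GK K →* Gam n} {v : HeightOneSpectrum (𝓞 K)} (hv : v ∉ SS f) (σ : GK K)
    (hσ : IsInert v σ) : f σ = 1 := by
  by_contra h
  exact hv ⟨σ, hσ, h⟩

/-- the elements where the two representations have different traces, on one half of the group -/
def TT (ψ : AddChar (ZMod n) (OO ℓ)) (s : ℤˣ) : Set (Gam n) :=
  {x | e2 x = s ∧ e1 x = -1 ∧ (heis ψ x⁻¹).trace ≠ 0}

theorem heis_conj (ψ : AddChar (ZMod n) (OO ℓ)) (x y : Gam n) :
    (heis ψ (y * x * y⁻¹)).trace = (heis ψ x).trace := by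
  rw [heis_mul, heis_mul, Matrix.trace_mul_comm, ← mul_assoc, ← heis_mul, inv_mul_cancel, heis_one, one_mul]

theorem TT_conj (ψ : AddChar (ZMod n) (OO ℓ)) (s : ℤˣ) : ∀ x ∈ TT ψ s, ∀ y, y * x * y⁻¹ ∈ TT ψ s := by
  rintro x ⟨h1, h2, h3⟩ y
  refine ⟨?_, ?_, ?_⟩
  · rw [map_mul, map_mul, map_inv, mul_comm (e2 y), mul_inv_cancel_right, h1]
  · rw [map_mul, map_mul, map_inv, mul_comm (e1 y), mul_inv_cancel_right, h2]
  · have e : (y * x * y⁻¹)⁻¹ = y * x⁻¹ * y⁻¹ := by group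
    rw [e, heis_conj]
    exact h3

theorem TT_card (ψ : AddChar (ZMod n) (OO ℓ)) (hψ : ψ.IsPrimitive) (s : ℤˣ) : (TT ψ s).ncard ≤ n := by
  classical
  let mkx : ZMod n → Gam n := fun a => (⟨Multiplicative.ofAdd (a, 0), (1, (-1, s))⟩ : Gam n)⁻¹
  have hsub : TT ψ s ⊆ Set.range mkx := by
    rintro x ⟨h1, h2, h3⟩
    obtain ⟨h4, h5⟩ := trace_heis_ne ψ hψ x⁻¹ h3
    refine ⟨x⁻¹.left.toAdd.1, ?_⟩
    show (⟨Multiplicative.ofAdd (x⁻¹.left.toAdd.1, 0), (1, (-1, s))⟩ : Gam n)⁻¹ = x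
    rw [inv_eq_iff_eq_inv]
    have hh1 : e1 x⁻¹ = -1 := by rw [map_inv, h2]; rfl
    have hh2 : e2 x⁻¹ = s := by rw [map_inv, h1, Int.units_inv_eq_self]
    refine SemidirectProduct.ext ?_ ?_
    · apply Multiplicative.toAdd.injective
      refine Prod.ext rfl ?_
      exact h5.symm
    · refine Prod.ext ?_ (Prod.ext ?_ ?_)
      · apply Multiplicative.toAdd.injective
        exact h4.symm
      · exact hh1.symm
      · exact hh2.symm
  refine (Set.ncard_le_ncard hsub (Set.finite_range _)).trans ?_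
  rw [← Set.image_univ]
  refine (Set.ncard_image_le Set.finite_univ).trans ?_
  rw [Set.ncard_univ, Nat.card_zmod]

/-- the trace of the data -/
theorem sum_al (ψ : AddChar (ZMod n) (OO ℓ)) (f : GK K →* Gam n) {v : HeightOneSpectrum (𝓞 K)} (hv : v ∉ SS f)
    {σ : GK K} (hσ : IsFrob v σ) : ∑ i, al ψ f v i =
      (((if jv f v then ((e1 (f σ⁻¹) : ℤ) : OO ℓ) else 1) * (heis ψ (f σ⁻¹)).trace : OO ℓ) : PadicAlgCl ℓ) := by
  rw [← RH_trace, trace_of_corr (corr_al ψ f v (SS_spec hv)) hσ]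

theorem jv_spec (f : GK K →* Gam n) {v : HeightOneSpectrum (𝓞 K)} (hv : v ∉ SS f)
    {σ : GK K} (hσ : IsFrob v σ) : jv f v = decide (e2 (f σ) = -1) := by
  obtain ⟨τ, ι, hι, hτ⟩ := Pool.Agent.W401.Frob.conj_frob v _ σ (Pool.Agent.W401.Frob.exists_frob v).choose_spec hσ
  have h1 : e2 (f σ) = e2 (f (Pool.Agent.W401.Frob.exists_frob v).choose) := by
    rw [hτ, map_mul, SS_spec hv ι hι, mul_one, map_mul, map_mul, map_mul, map_mul, map_inv, map_inv,
      mul_comm (e2 (f τ)), mul_inv_cancel_right]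
  rw [jv, h1]

/-- the bad places -/
theorem bad (ψ : AddChar (ZMod n) (OO ℓ)) (f : GK K →* Gam n) (b : Bool) (m : ℕ)
    {v : HeightOneSpectrum (𝓞 K)} (hv : v ∉ SS f) (h : ¬ TraceNear m (RH ψ f b) v (al ψ f v)) :
    ∃ σ, IsFrob v σ ∧ f σ ∈ TT ψ (if b then 1 else -1) := by
  simp only [TraceNear] at h
  push Not at h
  obtain ⟨σ, hσ, h1⟩ := h
  refine ⟨σ, hσ, ?_⟩
  have h2 : (RH ψ f b σ⁻¹ : Matrix (Fin n) (Fin n) (PadicAlgCl ℓ)).trace ≠ ∑ i, al ψ f v i := by
    intro h3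
    rw [h3, sub_self, norm_zero] at h1
    exact absurd h1 (not_lt.2 (pow_nonneg (norm_nonneg _) _))
  rw [RH_trace, sum_al ψ f hv hσ, jv_spec f hv hσ] at h2
  have hu : ∀ s : ℤˣ, s = 1 ∨ s = -1 := Int.units_eq_one_or
  have h3 : (heis ψ (f σ⁻¹)).trace ≠ 0 := by
    intro h4
    apply h2
    rw [h4, mul_zero, mul_zero]
  have h4 : e1 (f σ⁻¹) = -1 := by
    rcases hu (e1 (f σ⁻¹)) with h5 | h5
    · exfalso
      apply h2
      rw [h5]
      simp
    · exact h5
  have h4' : e1 (f σ) = -1 := by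
    rw [map_inv, map_inv, inv_eq_iff_eq_inv] at h4
    rw [h4]
    rfl
  rw [map_inv] at h3
  refine ⟨?_, h4', h3⟩
  rcases hu (e2 (f σ)) with h5 | h5
  · cases b
    · exfalso
      apply h2
      rw [h5]
      simp
    · rw [h5]
      rfl
  · cases b
    · rw [h5]
      rfl
    · exfalso
      apply h2
      rw [h5]
      simp

theorem density_bad (ψ : AddChar (ZMod n) (OO ℓ)) (hψ : ψ.IsPrimitive) (f : GK K →* Gam n)
    (hf : Function.Surjective f) (hker : IsOpen (f.ker : Set (GK K))) (b : Bool) (m : ℕ) :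
    UpperDensityLE (fun v => v ∉ SS f ∧ ¬ TraceNear m (RH ψ f b) v (al ψ f v)) (1 / (4 * (n : ℝ) ^ 2)) := by
  have h1 := density_le f hf hker (TT ψ (if b then 1 else -1)) (TT_conj ψ _)
    (fun v => v ∉ SS f ∧ ¬ TraceNear m (RH ψ f b) v (al ψ f v)) (fun v hv => bad ψ f b m hv.1 hv.2)
  have hn : (0 : ℝ) < n := by exact_mod_cast Nat.pos_of_ne_zero (NeZero.ne n)
  have h2 : ((TT ψ (if b then 1 else -1)).ncard : ℝ) / Nat.card (Gam n) ≤ 1 / (4 * (n : ℝ) ^ 2) := by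
    have h3 : ((TT ψ (if b then 1 else -1)).ncard : ℝ) ≤ n := by exact_mod_cast TT_card ψ hψ _
    have h4 : (Nat.card (Gam n) : ℝ) = 4 * (n : ℝ) ^ 3 := by
      rw [card_Gam]
      push_cast
      ring
    rw [h4, div_le_div_iff₀ (by positivity) (by positivity)]
    nlinarith [sq_nonneg (n : ℝ), mul_le_mul_of_nonneg_right h3 (show (0 : ℝ) ≤ 4 * (n : ℝ) ^ 2 by positivity)]
  intro ε hε
  refine (h1 ε hε).mono fun N hN => hN.trans ?_
  exact mul_le_mul_of_nonneg_right (by linarith) (Nat.cast_nonneg _)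

/-- the trace which a representation attached to the data would have -/
noncomputable def Th (ψ : AddChar (ZMod n) (OO ℓ)) (f : GK K →* Gam n) (g : GK K) : PadicAlgCl ℓ :=
  if e2 (f g) = -1 then (RH ψ f true g : Matrix (Fin n) (Fin n) (PadicAlgCl ℓ)).trace
  else (RH ψ f false g : Matrix (Fin n) (Fin n) (PadicAlgCl ℓ)).trace

theorem Th_congr (ψ : AddChar (ZMod n) (OO ℓ)) (f : GK K →* Gam n) {g h : GK K} (e : f g = f h) :
    Th ψ f g = Th ψ f h := by
  rw [Th, Th, e, RH_congr ψ f true e, RH_congr ψ f false e]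

theorem Th_cont (ψ : AddChar (ZMod n) (OO ℓ)) (f : GK K →* Gam n) (hker : IsOpen (f.ker : Set (GK K))) :
    Continuous (Th ψ f) := by
  rw [continuous_iff_continuousAt]
  intro g
  have h1 : f ⁻¹' {f g} ∈ 𝓝 g := (isOpen_of_ker hker {f g}).mem_nhds rfl
  refine (continuousAt_const (y := Th ψ f g)).congr ?_
  filter_upwards [h1] with h hh
  exact Th_congr ψ f (show f g = f h from (show f h = f g from hh).symm)

/-- there is no representation -/
theorem no_rep (ψ : AddChar (ZMod n) (OO ℓ)) (f : GK K →* Gam n)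
    (hf : Function.Surjective f) (hker : IsOpen (f.ker : Set (GK K)))
    (ρ : GK K →* GL (Fin n) (PadicAlgCl ℓ)) : ¬ Attached (SS f) (al ψ f) false ρ := by
  rintro ⟨hρ1, hρ2, hρ3⟩
  have hρ2' : Semisimple ρ := hρ2
  have hS : (SS f).Finite := finite_ram f.ker hker
  have hρ' : Continuous fun g => (ρ g : Matrix (Fin n) (Fin n) (PadicAlgCl ℓ)) :=
    Units.continuous_val.comp hρ1
  -- the traces
  have hT : (fun g => (ρ g : Matrix (Fin n) (Fin n) (PadicAlgCl ℓ)).trace) = Th ψ f := by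
    refine eq_of_frob _ _ (Continuous.matrix_trace hρ') (Th_cont ψ f hker) (SS f) hS fun v hv σ hσ => ?_
    show (ρ σ⁻¹ : Matrix (Fin n) (Fin n) (PadicAlgCl ℓ)).trace = _
    rw [trace_of_corr (hρ3 v hv) hσ, sum_al ψ f hv hσ, jv_spec f hv hσ, Th, RH_trace, RH_trace]
    have h1 : e2 (f σ⁻¹) = e2 (f σ) := by rw [map_inv, map_inv, Int.units_inv_eq_self]
    rw [h1]
    by_cases h2 : e2 (f σ) = -1
    · rw [if_pos h2]
      simp [h2]
    · rw [if_neg h2]
      simp [h2]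
  have hT' : ∀ g, (ρ g : Matrix (Fin n) (Fin n) (PadicAlgCl ℓ)).trace = Th ψ f g := fun g => congrFun hT g
  -- it factors
  have hfac : ∀ z, f z = 1 → ρ z = 1 := by
    intro z hz
    refine eq_one_of_trace hρ2' z fun x => ?_
    rw [hT', hT']
    exact Th_congr ψ f (by rw [map_mul, hz, one_mul])
  -- two elements
  obtain ⟨x, hx⟩ := hf ⟨1, (1, (-1, 1))⟩
  obtain ⟨y, hy⟩ := hf ⟨1, (1, (1, -1))⟩
  have hone : ∀ z : Gam n, z.left = 1 → z.right.1 = 1 → heis ψ z = 1 := by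
    intro z hz1 hz2
    refine Matrix.ext fun i j => ?_
    simp only [heis, Matrix.of_apply]
    rw [hz1, hz2, toAdd_one, toAdd_one, add_zero, Matrix.one_apply]
    show (if i = j then ψ ((0 : ZMod n × ZMod n).1 + (0 : ZMod n × ZMod n).2 * i) else 0) = _
    rw [Prod.fst_zero, Prod.snd_zero, zero_mul, add_zero, AddChar.map_zero_eq_one]
  have hn1 : ((1 : Matrix (ZMod n) (ZMod n) (OO ℓ))).trace = (n : OO ℓ) := by
    rw [Matrix.trace_one, ZMod.card]
  -- involutions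
  have hinv : ∀ z : GK K, f z * f z = 1 → (∀ k : ℕ, Th ψ f (z ^ k) = n) → ρ z = 1 := by
    intro z hz hk
    have h1 : (ρ z : Matrix (Fin n) (Fin n) (PadicAlgCl ℓ)) ^ 2 = 1 := by
      rw [← Units.val_pow_eq_pow_val, ← map_pow, hfac _ (by rw [pow_two, map_mul, hz]), Units.val_one]
    have h2 : (ρ z : Matrix (Fin n) (Fin n) (PadicAlgCl ℓ)).charpoly =
        (1 : Matrix (Fin n) (Fin n) (PadicAlgCl ℓ)).charpoly := by
      refine charpoly_eq_of_traces _ _ fun k => ?_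
      rw [one_pow, Matrix.trace_one, Fintype.card_fin, ← Units.val_pow_eq_pow_val, ← map_pow, hT', hk]
    exact Units.ext (Pool.Agent.Y800.eq_one_of_charpoly _ 2 (by norm_num) h1 h2)
  have e2x : ∀ k : ℕ, e2 (f (x ^ k)) = 1 := by
    intro k
    rw [map_pow, map_pow, hx]
    show (1 : ℤˣ) ^ k = 1
    rw [one_pow]
  have e1y : ∀ k : ℕ, e1 (f (y ^ k)) = 1 := by
    intro k
    rw [map_pow, map_pow, hy]
    show (1 : ℤˣ) ^ k = 1
    rw [one_pow]
  have hxl : ∀ (s : ℤˣ × ℤˣ) (k : ℕ), ((⟨1, (1, s)⟩ : Gam n) ^ k).left = 1 ∧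
      ((⟨1, (1, s)⟩ : Gam n) ^ k).right.1 = 1 := by
    intro s k
    induction k with
    | zero => exact ⟨rfl, rfl⟩
    | succ k ih =>
      rw [pow_succ]
      refine ⟨?_, ?_⟩
      · rw [SemidirectProduct.mul_left, ih.1, map_one, mul_one]
      · rw [SemidirectProduct.mul_right, Prod.fst_mul, ih.2, mul_one]
  have hx1 : ρ x = 1 := by
    refine hinv x ?_ fun k => ?_
    · rw [hx]
      refine SemidirectProduct.ext ?_ ?_
      · rw [SemidirectProduct.mul_left, map_one, mul_one]; rfl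
      · rw [SemidirectProduct.mul_right]; exact Prod.ext (mul_one _) rfl
    · rw [Th, if_neg (by rw [e2x k]; decide), RH_trace, map_pow, hx, hone _ (hxl _ k).1 (hxl _ k).2, hn1]
      simp
  have hy1 : ρ y = 1 := by
    refine hinv y ?_ fun k => ?_
    · rw [hy]
      refine SemidirectProduct.ext ?_ ?_
      · rw [SemidirectProduct.mul_left, map_one, mul_one]; rfl
      · rw [SemidirectProduct.mul_right]; exact Prod.ext (mul_one _) rfl
    · rw [Th, RH_trace, RH_trace, e1y k, map_pow, hy, hone _ (hxl _ k).1 (hxl _ k).2, hn1]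
      simp
  have hxy := hT' (x * y)
  have hfxy : f (x * y) = ⟨1, (1, (-1, -1))⟩ := by
    rw [map_mul, hx, hy]
    refine SemidirectProduct.ext ?_ ?_
    · rw [SemidirectProduct.mul_left, map_one, mul_one]
    · rw [SemidirectProduct.mul_right]; exact Prod.ext (mul_one _) rfl
  rw [map_mul, hx1, hy1, mul_one, Units.val_one, Matrix.trace_one, Fintype.card_fin, Th, hfxy,
    if_pos (by rfl), RH_trace, hfxy, hone _ rfl rfl, hn1] at hxy
  have h3 : e1 (⟨1, (1, (-1, -1))⟩ : Gam n) = -1 := rfl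
  rw [h3] at hxy
  have h4 : (n : PadicAlgCl ℓ) = -n := by simpa using hxy
  have h5 : (2 : PadicAlgCl ℓ) * n = 0 := by linear_combination h4
  have h6 : (n : PadicAlgCl ℓ) ≠ 0 := by exact_mod_cast NeZero.ne n
  exact (mul_ne_zero two_ne_zero h6) h5

/-- primitive characters with integral values -/
theorem exists_psi (ℓ : ℕ) [Fact ℓ.Prime] (n : ℕ) [NeZero n] : ∃ ψ : AddChar (ZMod n) (OO ℓ), ψ.IsPrimitive := by
  obtain ⟨ζ, hζ⟩ := HasEnoughRootsOfUnity.exists_primitiveRoot (PadicAlgCl ℓ) n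
  have hζn : ‖ζ‖ = 1 := by
    have h1 : ‖ζ‖ ^ n = 1 := by rw [← norm_pow, hζ.pow_eq_one, norm_one]
    exact (pow_eq_one_iff_of_nonneg (norm_nonneg _) (NeZero.ne n)).1 h1
  let z : OO ℓ := ⟨ζ, (mem_OO _).2 hζn.le⟩
  have hz : IsPrimitiveRoot z n := by
    refine IsPrimitiveRoot.of_map_of_injective (f := algebraMap (OO ℓ) (PadicAlgCl ℓ)) ?_ Subtype.val_injective
    exact hζ
  exact ⟨AddChar.zmodChar n hz.pow_eq_one, AddChar.zmodChar_primitive_of_primitive_root n hz⟩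

end example_

/-- **The constant is sharp.** -/
theorem sharp (K : Type) [Field K] [NumberField K] (ℓ : ℕ) [Fact ℓ.Prime] (n : ℕ) (hn : 0 < n) :
    ∃ (S : Set (HeightOneSpectrum (𝓞 K))) (α : HeightOneSpectrum (𝓞 K) → Fin n → PadicAlgCl ℓ),
      S.Finite ∧ FiniteTraces S α ∧
      (∃ r, TorsionSystem S α true (1 / (4 * (n : ℝ) ^ 2)) r) ∧
      (∃ ρ, AdicSystem S α (1 / (4 * (n : ℝ) ^ 2)) ρ) ∧
      ∀ ρ, ¬ Attached S α false ρ := by
  haveI : NeZero n := ⟨hn.ne'⟩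
  obtain ⟨ψ, hψ⟩ := exists_psi ℓ n
  obtain ⟨f, hf, hker⟩ := exists_surj n K
  let q : ℕ → Bool := fun m => decide (m % 2 = 1)
  have hcont : ∀ b, Continuous (RH ψ f b) := fun b => continuous_of_ker (RH_ker ψ f hker b)
  have hinf : ∀ b : Bool, {m | q m = b}.Infinite := by
    intro b
    refine Set.infinite_of_not_bddAbove ?_
    rintro ⟨B, hB⟩
    cases b
    · have h1 : 2 * (B + 1) ∈ {m | q m = false} := by
        show decide (2 * (B + 1) % 2 = 1) = false
        rw [Nat.mul_mod_right]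
        rfl
      have h2 := hB h1
      omega
    · have h1 : 2 * (B + 1) + 1 ∈ {m | q m = true} := by
        show decide ((2 * (B + 1) + 1) % 2 = 1) = true
        rw [Nat.mul_add_mod]
        rfl
      have h2 := hB h1
      omega
  refine ⟨SS f, al ψ f, finite_ram f.ker hker, ?_, ⟨fun m => redRep (NN ψ f (q m)) m, fun m => ?_, fun m => ?_,
    fun v hv => ?_⟩, ⟨fun m => RH ψ f (q m), fun m => hcont _, fun m => ?_, fun v hv => ?_⟩,
    no_rep ψ f hf hker⟩
  · obtain ⟨F, hF, hFt⟩ := exists_field (RH ψ f false) (hcont _)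
    refine ⟨F, hF, fun v hv => ?_⟩
    obtain ⟨σ, hσ⟩ := Pool.Agent.W401.Frob.exists_frob v
    have h1 := hFt σ⁻¹
    rw [RH_trace] at h1
    rw [sum_al ψ f hv hσ]
    have h2 : ((((if (false : Bool) = true then ((e1 (f σ⁻¹) : ℤ) : OO ℓ) else 1) *
      (heis ψ (f σ⁻¹)).trace : OO ℓ)) : PadicAlgCl ℓ) = (heis ψ (f σ⁻¹)).trace := by simp
    rw [h2] at h1
    rcases Int.units_eq_one_or (e1 (f σ⁻¹)) with h5 | h5
    · rw [h5]
      simpa using h1
    · rw [h5]
      cases jv f v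
      · simpa using h1
      · have := F.neg_mem h1
        simpa using this
  · exact (RH_model ψ f _).isOpen_ker (hcont _) m
  · intro ε hε
    refine (density_bad ψ hψ f hf hker (q m) m ε hε).mono fun M hM => le_trans ?_ hM
    have hsub : {v : HeightOneSpectrum (𝓞 K) | Ideal.absNorm v.asIdeal ≤ M ∧
        (v ∉ SS f ∧ ¬ TraceMod (mk m) (redRep (NN ψ f (q m)) m) v (al ψ f v))} ⊆ {v : HeightOneSpectrum (𝓞 K) |
        Ideal.absNorm v.asIdeal ≤ M ∧ (v ∉ SS f ∧ ¬ TraceNear m (RH ψ f (q m)) v (al ψ f v))} := fun v hv =>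
      ⟨hv.1, hv.2.1, fun hh => hv.2.2 ((RH_model ψ f _).traceNear m v _ hh)⟩
    have hfin : {v : HeightOneSpectrum (𝓞 K) | Ideal.absNorm v.asIdeal ≤ M ∧
        (v ∉ SS f ∧ ¬ TraceNear m (RH ψ f (q m)) v (al ψ f v))}.Finite :=
      (Pool.Agent.W352.ChAbs.finite_le (K := K) M).subset (fun v hv => hv.1)
    exact_mod_cast Set.ncard_le_ncard hsub hfin
  · refine (hinf (jv f v)).mono fun m hm => ?_
    show CorrespondsMod true (mk m) (redRep (NN ψ f (q m)) m) v _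
    rw [show q m = jv f v from hm]
    exact (RH_model ψ f _).corr (corr_al ψ f v (SS_spec hv)) m
  · exact density_bad ψ hψ f hf hker (q m) m
  · refine (hinf (jv f v)).mono fun m hm => ?_
    show CorrespondsNear m (RH ψ f (q m)) v _
    rw [show q m = jv f v from hm]
    exact near_of_corr (corr_al ψ f v (SS_spec hv)) m

end Pool.Agent.H499.CM
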